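import Mathlib

set_option autoImplicit false

/-!
In a free group `x ^ 2 * y ^ 2 = z ^ 2` forces `x, y, z` to commute (Lyndon), and two equations
can be combined into one: `(c u)^2 (v b v b⁻¹)^2 = c^2 ↔ u = 1 ∧ v = 1` for letters `b ≠ c`.
-/

namespace Pool.Agent.LibH36.AndTrick

open QuaternionGroup

universe u

/-- first exponent of a quaternion, modulo two -/
def k1 : QuaternionGroup 2 → ZMod 2
  | a i => (i.val : ZMod 2)
  | xa i => (i.val : ZMod 2)

/-- second exponent of a quaternion, modulo two -/
def k2 : QuaternionGroup 2 → ZMod 2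
  | a _ => 0
  | xa _ => 1

theorem k1_mul : ∀ x y : QuaternionGroup 2, k1 (x * y) = k1 x + k1 y := by decide +kernel

theorem k2_mul : ∀ x y : QuaternionGroup 2, k2 (x * y) = k2 x + k2 y := by decide +kernel

theorem q8_fact : ∀ X Y Z : QuaternionGroup 2, X ^ 2 * Y ^ 2 = Z ^ 2 → k1 X + k1 Y = k1 Z →
    k2 X + k2 Y = k2 Z → (X * Y = Y * X ∧ X * Z = Z * X ∧ Y * Z = Z * Y) := by decide +kernel

/-- `k1` as a homomorphism -/
def k1hom : QuaternionGroup 2 →* Multiplicative (ZMod 2) where
  toFun x := Multiplicative.ofAdd (k1 x)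
  map_one' := rfl
  map_mul' x y := by rw [k1_mul]; rfl

/-- `k2` as a homomorphism -/
def k2hom : QuaternionGroup 2 →* Multiplicative (ZMod 2) where
  toFun x := Multiplicative.ofAdd (k2 x)
  map_one' := rfl
  map_mul' x y := by rw [k2_mul]; rfl

/-- Exponent sum of the letter `p`. -/
def ex {ι : Type u} [DecidableEq ι] (p : ι) : FreeGroup ι →* Multiplicative ℤ :=
  FreeGroup.lift fun i => if i = p then Multiplicative.ofAdd 1 else 1

/-- reduction modulo two -/
def red2 : Multiplicative ℤ →* Multiplicative (ZMod 2) :=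
  AddMonoidHom.toMultiplicative (Int.castAddHom (ZMod 2))

theorem ex_sq {ι : Type u} [DecidableEq ι] (p : ι) {x y z : FreeGroup ι}
    (h : x ^ 2 * y ^ 2 = z ^ 2) : ex p x * ex p y = ex p z := by
  have h1 := congrArg (ex p) h
  rw [map_mul, map_pow, map_pow, map_pow, ← mul_pow] at h1
  exact (pow_left_injective (M := Multiplicative ℤ) two_ne_zero) h1

/-- The homomorphism to the quaternion group. -/
def phi {ι : Type u} [DecidableEq ι] (p q : ι) : FreeGroup ι →* QuaternionGroup 2 :=
  FreeGroup.lift fun i => if i = p then a 1 else if i = q then xa 0 else 1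

theorem k1_phi {ι : Type u} [DecidableEq ι] {p q : ι} (hpq : p ≠ q) :
    k1hom.comp (phi p q) = red2.comp (ex p) := by
  ext i
  simp only [MonoidHom.comp_apply, phi, ex, FreeGroup.lift_apply_of]
  by_cases h1 : i = p
  · simp only [h1, if_true]; decide
  · by_cases h2 : i = q
    · subst h2; simp only [h1, if_false, if_true]; decide
    · simp only [h1, h2, if_false]; rfl

theorem k2_phi {ι : Type u} [DecidableEq ι] {p q : ι} (hpq : p ≠ q) :
    k2hom.comp (phi p q) = red2.comp (ex q) := by
  ext i
  simp only [MonoidHom.comp_apply, phi, ex, FreeGroup.lift_apply_of]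
  by_cases h1 : i = p
  · simp only [h1, if_true, hpq, if_false]; decide
  · by_cases h2 : i = q
    · subst h2; simp only [h1, if_false, if_true]; decide
    · simp only [h1, h2, if_false]; rfl

theorem phi_comm {ι : Type u} [DecidableEq ι] {p q : ι} (hpq : p ≠ q) {x y z : FreeGroup ι}
    (h : x ^ 2 * y ^ 2 = z ^ 2) :
    Commute (phi p q x) (phi p q y) ∧ Commute (phi p q x) (phi p q z) ∧
      Commute (phi p q y) (phi p q z) := by
  apply q8_fact
  · rw [← map_pow, ← map_pow, ← map_pow, ← map_mul, h]
  · have h1 : ∀ g, Multiplicative.ofAdd (k1 (phi p q g)) = red2 (ex p g) := fun g =>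
      DFunLike.congr_fun (k1_phi hpq) g
    have h2 := congrArg red2 (ex_sq p h)
    rw [map_mul, ← h1, ← h1, ← h1] at h2
    exact h2
  · have h1 : ∀ g, Multiplicative.ofAdd (k2 (phi p q g)) = red2 (ex q g) := fun g =>
      DFunLike.congr_fun (k2_phi hpq) g
    have h2 := congrArg red2 (ex_sq q h)
    rw [map_mul, ← h1, ← h1, ← h1] at h2
    exact h2

theorem comm_of_closure {G K : Type*} [Group G] [Group K] (f : G →* K) (s : Set G)
    (hs : Subgroup.closure s = ⊤) (hc : ∀ x ∈ s, ∀ y ∈ s, Commute (f x) (f y)) :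
    ∀ g h : G, Commute (f g) (f h) := by
  have h1 : ∀ g : G, ∀ y ∈ s, Commute (f g) (f y) := by
    intro g y hy
    have hg : g ∈ Subgroup.closure s := hs ▸ Subgroup.mem_top g
    induction hg using Subgroup.closure_induction with
    | mem x hx => exact hc x hx y hy
    | one => rw [map_one]; exact Commute.one_left _
    | mul x z _ _ hx hz => rw [map_mul]; exact hx.mul_left hz
    | inv x _ hx => rw [map_inv]; exact hx.inv_left
  intro g h
  have hh : h ∈ Subgroup.closure s := hs ▸ Subgroup.mem_top h
  induction hh using Subgroup.closure_induction with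
  | mem x hx => exact h1 g x hx
  | one => rw [map_one]; exact Commute.one_right _
  | mul x z _ _ hx hz => rw [map_mul]; exact hx.mul_right hz
  | inv x _ hx => rw [map_inv]; exact hx.inv_right

theorem of_not_commute {ι : Type u} {p q : ι} (hpq : p ≠ q) :
    ¬ Commute (FreeGroup.of p) (FreeGroup.of q) := by
  classical
  intro h
  have h1 := h.map (phi p q)
  have h2 : phi p q (FreeGroup.of p) = a 1 := by simp [phi]
  have h3 : phi p q (FreeGroup.of q) = xa 0 := by simp [phi, Ne.symm hpq]
  rw [h2, h3] at h1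
  revert h1
  unfold Commute SemiconjBy
  decide

/-- a free group on at most one letter is generated by one element -/
theorem cyclic_of_subsingleton {ι : Type u} [Subsingleton ι] :
    ∃ t : FreeGroup ι, ∀ g : FreeGroup ι, ∃ n : ℤ, g = t ^ n := by
  rcases isEmpty_or_nonempty ι with h | ⟨⟨i⟩⟩
  · exact ⟨1, fun g => ⟨0, Subsingleton.elim _ _⟩⟩
  · refine ⟨FreeGroup.of i, fun g => ?_⟩
    induction g using FreeGroup.induction_on with
    | C1 => exact ⟨0, by simp⟩
    | of j => exact ⟨1, by rw [Subsingleton.elim j i]; simp⟩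
    | inv_of j _ => exact ⟨-1, by rw [Subsingleton.elim j i]; simp⟩
    | mul x y hx hy =>
      obtain ⟨m, rfl⟩ := hx
      obtain ⟨n, rfl⟩ := hy
      exact ⟨m + n, (zpow_add _ _ _).symm⟩

/-- **Lyndon**: in a free group `x² y² = z²` implies that `x, y, z` commute. -/
theorem lyndon {α : Type u} {x y z : FreeGroup α} (h : x ^ 2 * y ^ 2 = z ^ 2) :
    Commute x y ∧ Commute x z ∧ Commute y z := by
  classical
  let s : Set (FreeGroup α) := {x, y, z}
  let H := Subgroup.closure s
  let e := IsFreeGroup.toFreeGroup H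
  have hx : x ∈ H := Subgroup.subset_closure (by simp [s])
  have hy : y ∈ H := Subgroup.subset_closure (by simp [s])
  have hz : z ∈ H := Subgroup.subset_closure (by simp [s])
  by_cases hι : Subsingleton (IsFreeGroup.Generators H)
  · obtain ⟨t, ht⟩ := cyclic_of_subsingleton (ι := IsFreeGroup.Generators H)
    have hcomm : ∀ g k : H, Commute g k := by
      intro g k
      obtain ⟨m, hm⟩ := ht (e g)
      obtain ⟨n, hn⟩ := ht (e k)
      have : Commute (e g) (e k) := by
        rw [hm, hn]; exact (Commute.refl t).zpow_zpow m n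
      have h2 := this.map e.symm
      simpa using h2
    have h1 := (hcomm ⟨x, hx⟩ ⟨y, hy⟩).map H.subtype
    have h2 := (hcomm ⟨x, hx⟩ ⟨z, hz⟩).map H.subtype
    have h3 := (hcomm ⟨y, hy⟩ ⟨z, hz⟩).map H.subtype
    exact ⟨h1, h2, h3⟩
  · exfalso
    rw [not_subsingleton_iff_nontrivial] at hι
    obtain ⟨p, q, hpq⟩ := exists_pair_ne (IsFreeGroup.Generators H)
    let X : H := ⟨x, hx⟩
    let Y : H := ⟨y, hy⟩
    let Z : H := ⟨z, hz⟩
    have hH : X ^ 2 * Y ^ 2 = Z ^ 2 := Subtype.ext h
    have hH' : (e X) ^ 2 * (e Y) ^ 2 = (e Z) ^ 2 := by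
      rw [← map_pow, ← map_pow, ← map_pow, ← map_mul, hH]
    obtain ⟨c1, c2, c3⟩ := phi_comm hpq hH'
    let f : H →* QuaternionGroup 2 := (phi p q).comp e.toMonoidHom
    have hcl : Subgroup.closure (((↑) : H → FreeGroup α) ⁻¹' s) = ⊤ :=
      Subgroup.closure_closure_coe_preimage
    have hall := comm_of_closure f _ hcl (by
      have key : ∀ g : H, g ∈ (((↑) : H → FreeGroup α) ⁻¹' s) → g = X ∨ g = Y ∨ g = Z := by
        rintro ⟨g, hg⟩ hgs
        have : g = x ∨ g = y ∨ g = z := by simpa [s] using hgs
        rcases this with rfl | rfl | rfl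
        · exact Or.inl rfl
        · exact Or.inr (Or.inl rfl)
        · exact Or.inr (Or.inr rfl)
      intro g hg k hk
      rcases key g hg with rfl | rfl | rfl <;> rcases key k hk with rfl | rfl | rfl
      · exact Commute.refl _
      · exact c1
      · exact c2
      · exact c1.symm
      · exact Commute.refl _
      · exact c3
      · exact c2.symm
      · exact c3.symm
      · exact Commute.refl _)
    have := hall (e.symm (FreeGroup.of p)) (e.symm (FreeGroup.of q))
    have h4 : f (e.symm (FreeGroup.of p)) = a 1 := by simp [f, phi]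
    have h5 : f (e.symm (FreeGroup.of q)) = xa 0 := by simp [f, phi, Ne.symm hpq]
    rw [h4, h5] at this
    revert this
    unfold Commute SemiconjBy
    decide

/-- commuting elements of a free group are powers of one element -/
theorem comm_cyclic {α : Type u} {x y : FreeGroup α} (h : Commute x y) :
    ∃ (t : FreeGroup α) (m n : ℤ), x = t ^ m ∧ y = t ^ n := by
  classical
  let s : Set (FreeGroup α) := {x, y}
  let H := Subgroup.closure s
  let e := IsFreeGroup.toFreeGroup H
  have hx : x ∈ H := Subgroup.subset_closure (by simp [s])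
  have hy : y ∈ H := Subgroup.subset_closure (by simp [s])
  have hcl : Subgroup.closure (((↑) : H → FreeGroup α) ⁻¹' s) = ⊤ :=
    Subgroup.closure_closure_coe_preimage
  have hall := comm_of_closure (MonoidHom.id H) _ hcl (by
    have key : ∀ g : H, g ∈ (((↑) : H → FreeGroup α) ⁻¹' s) → (g : FreeGroup α) = x ∨
        (g : FreeGroup α) = y := by
      rintro ⟨g, hg⟩ hgs
      simpa [s] using hgs
    intro g hg k hk
    have : (g : FreeGroup α) * k = k * g := by
      rcases key g hg with h1 | h1 <;> rcases key k hk with h2 | h2 <;> rw [h1, h2]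
      · exact h
      · exact h.symm
    exact Subtype.ext this)
  have hsub : Subsingleton (IsFreeGroup.Generators H) := by
    constructor
    intro p q
    by_contra hpq
    apply of_not_commute hpq
    have := (hall (e.symm (FreeGroup.of p)) (e.symm (FreeGroup.of q))).map e
    simpa using this
  obtain ⟨t, ht⟩ := cyclic_of_subsingleton (ι := IsFreeGroup.Generators H)
  obtain ⟨m, hm⟩ := ht (e ⟨x, hx⟩)
  obtain ⟨n, hn⟩ := ht (e ⟨y, hy⟩)
  refine ⟨(e.symm t : H), m, n, ?_, ?_⟩
  · have : (⟨x, hx⟩ : H) = (e.symm t) ^ m := by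
      rw [← map_zpow, ← hm]; simp
    have := congrArg (Subtype.val) this
    simpa using this
  · have : (⟨y, hy⟩ : H) = (e.symm t) ^ n := by
      rw [← map_zpow, ← hn]; simp
    have := congrArg (Subtype.val) this
    simpa using this

/-- an element commuting with a letter is a power of this letter -/
theorem comm_letter {α : Type u} {c : α} {g : FreeGroup α} (h : Commute g (FreeGroup.of c)) :
    ∃ n : ℤ, g = FreeGroup.of c ^ n := by
  classical
  obtain ⟨t, m, n, hm, hn⟩ := comm_cyclic h
  have h1 := congrArg (ex c) hn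
  have h2 : ex c (FreeGroup.of c) = Multiplicative.ofAdd (1 : ℤ) := by simp [ex]
  rw [h2, map_zpow] at h1
  have h3 : (1 : ℤ) = n * Multiplicative.toAdd (ex c t) := by
    have := congrArg Multiplicative.toAdd h1
    simpa using this
  have h4 : n = 1 ∨ n = -1 := by
    have : n ∣ 1 := ⟨_, h3⟩
    exact Int.isUnit_iff.mp (isUnit_of_dvd_one this)
  rcases h4 with rfl | rfl
  · exact ⟨m, by rw [hm, hn]; simp⟩
  · refine ⟨-m, ?_⟩
    rw [hm, hn, ← zpow_mul]; simp

theorem sq_inj {α : Type u} {x y : FreeGroup α} (h : x ^ 2 = y ^ 2) : x = y :=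
  pow_left_injective (M := FreeGroup α) two_ne_zero h

/-- **The AND trick.** -/
theorem and_trick {α : Type u} {b c : α} (hbc : b ≠ c) (u v : FreeGroup α) :
    (FreeGroup.of c * u) ^ 2 * (v * FreeGroup.of b * v * (FreeGroup.of b)⁻¹) ^ 2 =
      (FreeGroup.of c) ^ 2 ↔ u = 1 ∧ v = 1 := by
  classical
  constructor
  swap
  · rintro ⟨rfl, rfl⟩; simp
  intro h
  set C := FreeGroup.of c with hC
  set B := FreeGroup.of b with hB
  obtain ⟨h1, h2, h3⟩ := lyndon h
  -- `u` is a power of `c`
  have hu : Commute u C := by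
    have : Commute (C⁻¹ * (C * u)) C := (Commute.refl C).inv_left.mul_left h2
    simpa using this
  obtain ⟨j, hj⟩ := comm_letter hu
  -- product is `c`
  have hXY : (C * u) * (v * B * v * B⁻¹) = C := by
    apply sq_inj
    rw [h1.mul_pow]; exact h
  have hY : v * B * v * B⁻¹ = u⁻¹ := by
    have : (v * B * v * B⁻¹) = (C * u)⁻¹ * C := by
      rw [eq_inv_mul_iff_mul_eq]; exact hXY
    rw [this, mul_inv_rev, mul_assoc, inv_mul_cancel, mul_one]
  -- exponent of `c`
  have hexB : ex c B = 1 := by simp [ex, hB, hbc]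
  have hexC : ex c C = Multiplicative.ofAdd (1 : ℤ) := by simp [ex, hC]
  have hex : j = -(2 * Multiplicative.toAdd (ex c v)) := by
    have hexu : Multiplicative.toAdd (ex c u) = j := by
      rw [hj, map_zpow, hexC]; simp
    have := congrArg (fun g => Multiplicative.toAdd (ex c g)) hY
    simp only [map_mul, map_inv, hexB, inv_one, mul_one, toAdd_mul, toAdd_inv, hexu] at this
    omega
  set s := Multiplicative.toAdd (ex c v) with hs
  have hsq : (C ^ s) ^ 2 * B ^ 2 = (v * B) ^ 2 := by
    have e1 : (v * B) ^ 2 = (v * B * v * B⁻¹) * B ^ 2 := by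
      rw [pow_two, pow_two]; group
    rw [e1, hY, hj, hex]
    congr 1
    rw [← zpow_natCast, ← zpow_mul, ← zpow_neg]
    congr 1
    push_cast
    ring
  obtain ⟨g1, g2, g3⟩ := lyndon hsq
  have hs0 : s = 0 := by
    obtain ⟨m, hm⟩ := comm_letter g1
    have := congrArg (fun g => Multiplicative.toAdd (ex c g)) hm
    simp only [map_zpow, ← hB, hexB, hexC] at this
    simpa using this
  have hj0 : j = 0 := by omega
  have hu1 : u = 1 := by rw [hj, hj0, zpow_zero]
  refine ⟨hu1, ?_⟩
  rw [hs0, zpow_zero, one_pow, one_mul] at hsq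
  have := sq_inj hsq
  have h5 : v * B = 1 * B := by rw [one_mul]; exact this.symm
  exact mul_right_cancel h5

end Pool.Agent.LibH36.AndTrick
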