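import Pool.Agent.Lib_helper36.LemmaA

/-!
# Assembly of the counterexample
-/

namespace Pool.Agent.BlockFusion

open IsLocalRing

universe u

/-- A complete local ring with algebraically closed residue field of characteristic two contains
a primitive cube root of unity. -/
lemma exists_omega (O : Type u) [CommRing O] [IsLocalRing O] [IsAdicComplete (maximalIdeal O) O]
    [IsAlgClosed (ResidueField O)] [CharP (ResidueField O) 2] :
    ∃ ω : O, ω ^ 3 = 1 ∧ residue O ω ≠ 1 := by
  have h2 : (2 : ResidueField O) = 0 := CharP.cast_eq_zero _ 2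
  obtain ⟨a, ha⟩ : ∃ a : ResidueField O, a ^ 2 + a + 1 = 0 := by
    let f : Polynomial (ResidueField O) := Polynomial.X ^ 2 + Polynomial.X + 1
    have hf : f.degree = 2 := by
      have : f = Polynomial.C 1 * Polynomial.X ^ 2 + Polynomial.C 1 * Polynomial.X
          + Polynomial.C 1 := by
        simp [f]
      rw [this]
      exact Polynomial.degree_quadratic one_ne_zero
    obtain ⟨a, ha⟩ := IsAlgClosed.exists_root f (by rw [hf]; norm_num)
    refine ⟨a, ?_⟩
    simpa [f, Polynomial.IsRoot] using ha
  obtain ⟨a₀, rfl⟩ := residue_surjective a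
  let f : Polynomial O := Polynomial.X ^ 2 + Polynomial.X + 1
  have hmonic : f.Monic := by
    have h1 : f = Polynomial.X ^ (1 + 1) + (Polynomial.X + 1) := by
      simp only [f]; ring
    rw [h1]
    refine Polynomial.monic_X_pow_add ?_
    have h3 : (Polynomial.X + 1 : Polynomial O) = Polynomial.X + Polynomial.C 1 := by simp
    rw [h3, Polynomial.degree_X_add_C]
    norm_num
  have hev : f.eval a₀ ∈ maximalIdeal O := by
    rw [← residue_eq_zero_iff]
    simp only [f, Polynomial.eval_add, Polynomial.eval_pow, Polynomial.eval_X, Polynomial.eval_one,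
      map_add, map_pow, map_one]
    exact ha
  have hder : IsUnit (Ideal.Quotient.mk (maximalIdeal O) (f.derivative.eval a₀)) := by
    have h4 : residue O (f.derivative.eval a₀) = 1 := by
      have h7 : f.derivative.eval a₀ = 2 * a₀ + 1 := by
        simp [f]
        ring
      rw [h7, map_add, map_mul, map_ofNat, map_one]
      linear_combination (residue O a₀) * h2
    change IsUnit (residue O (f.derivative.eval a₀))
    rw [h4]
    exact isUnit_one
  obtain ⟨ω, hω, hω'⟩ := HenselianRing.is_henselian (I := maximalIdeal O) f hmonic a₀ hev hder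
  have h5 : ω ^ 2 + ω + 1 = 0 := by
    simpa [f, Polynomial.IsRoot] using hω
  refine ⟨ω, by linear_combination (ω - 1) * h5, ?_⟩
  intro h
  have h6 := congrArg (residue O) h5
  simp only [map_add, map_pow, map_one, map_zero, h] at h6
  apply one_ne_zero (α := ResidueField O)
  linear_combination h6 - h2

lemma psi_one (O : Type u) [CommRing O] {ω : O} (hω : ω ^ 3 = 1) :
    (AddChar.zmodChar 3 hω) 1 = ω := by
  rw [AddChar.zmodChar_apply]
  exact pow_one ω

/-- The counterexample, over a local ring with a primitive cube root of unity. -/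
theorem counterexample (O : Type u) [CommRing O] [IsLocalRing O] [IsNoetherianRing O]
    [CharP (ResidueField O) 2] {ω : O} (hω : ω ^ 3 = 1) (hω' : residue O ω ≠ 1) :
    ∃ b i : MonoidAlgebra O GG, IsBlock b ∧ IsDefectGroup 2 b DG ∧ IsSourceIdempotent b DG i ∧
      (∃ X : Set (MonoidAlgebra O GG), IsStableBasis DG i X) ∧
      (∃ eD : MonoidAlgebra (ResidueField O) GG, IsBrauerPair 2 DG eD ∧ brauerMap DG i * eD ≠ 0) ∧
      ∀ eD : MonoidAlgebra (ResidueField O) GG, IsBrauerPair 2 DG eD → brauerMap DG i * eD ≠ 0 →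
        ∀ X : Set (MonoidAlgebra O GG), IsStableBasis DG i X → ¬ IsFusionStable 2 DG eD X := by
  classical
  have h2 : (2 : ResidueField O) = 0 := CharP.cast_eq_zero _ 2
  let χ : AddChar (ZMod 3) O := AddChar.zmodChar 3 hω
  have hωk : (residue O ω) ^ 3 = 1 := by rw [← map_pow, hω, map_one]
  let ψ : AddChar (ZMod 3) (ResidueField O) := AddChar.zmodChar 3 hωk
  have hψ : ψ 1 ≠ 1 := by
    change AddChar.zmodChar 3 hωk 1 ≠ 1
    rw [psi_one]
    exact hω'
  have hχψ : ∀ a, residue O (χ a) = ψ a := by
    intro a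
    change residue O (AddChar.zmodChar 3 hω a) = AddChar.zmodChar 3 hωk a
    rw [AddChar.zmodChar_apply, AddChar.zmodChar_apply, map_pow]
  -- 3 is a unit
  have h3 : IsUnit (3 : O) := by
    rw [← isUnit_map_iff (residue O)]
    have : residue O (3 : O) = 1 := by
      rw [map_ofNat]
      linear_combination h2
    rw [this]
    exact isUnit_one
  obtain ⟨n3, hn3⟩ := h3.exists_right_inv
  have hn3' : residue O n3 = 1 := by
    have := congrArg (residue O) hn3
    rw [map_mul, map_ofNat, map_one] at this
    linear_combination this - residue O n3 * h2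
  let n27 : O := n3 * n3 * n3
  have hn27 : n27 * 27 = 1 := by
    change n3 * n3 * n3 * 27 = 1
    linear_combination (9 * n3 * n3 + 3 * n3 + 1) * hn3
  have hlam : ∀ x ∈ KG, ∀ y ∈ KG, lamG χ (x * y) = lamG χ x * lamG χ y :=
    fun x hx y hy => lamG_mul χ hx hy
  let β : MonoidAlgebra O GG := linIdem ZG (lamG χ) n3
  let e : MonoidAlgebra O GG := linIdem KG (lamG χ) n27
  have hcard3 : n3 * (Nat.card ZG : O) = 1 := by
    rw [card_ZG, mul_comm]
    exact_mod_cast hn3
  have hcard27 : n27 * (Nat.card KG : O) = 1 := by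
    rw [card_KG]
    exact_mod_cast hn27
  have hβ : ∀ g, β.coeff g ≠ 0 → g ∈ Subgroup.center GG := by
    intro g hg
    apply ZG_le_center
    by_contra h
    exact hg (coeff_linIdem_of_notMem _ _ h)
  have hββ : β * β = β := linIdem_mul le_rfl n3 n3
    (fun x hx y hy => hlam x (ZG_le_KG hx) y (ZG_le_KG hy)) (lamG_one χ) hcard3
  have hee : e * e = e := linIdem_mul le_rfl n27 n27 hlam (lamG_one χ) hcard27
  have heβ : e * β = e := by
    rw [← commute_of_support hβ]
    exact linIdem_mul ZG_le_KG n27 n3 hlam (lamG_one χ) hcard3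
  have he : e ∈ fixedPoints O DG := linIdem_mem_fixedPoints n27
    (fun u hu x hx => conj_KG hu hx)
    (fun u hu x hx => by
      unfold lamG
      rw [conj_t hu hx])
  -- reduction of β
  have hβk : MonoidAlgebra.mapRingHom GG (residue O) β = betaK ψ := by
    apply MonoidAlgebra.ext
    ext g
    rw [MonoidAlgebra.coeff_mapRingHom]
    unfold betaK
    by_cases hg : g ∈ ZG
    · rw [coeff_linIdem_of_mem _ _ hg, coeff_linIdem_of_mem _ _ hg, map_mul, hn3']
      unfold lamG
      rw [hχψ]
    · rw [coeff_linIdem_of_notMem _ _ hg, coeff_linIdem_of_notMem _ _ hg, map_zero]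
  have hn27' : residue O n27 = 1 := by
    change residue O (n3 * n3 * n3) = 1
    rw [map_mul, map_mul, hn3', one_mul, one_mul]
  have hBrD : brauerMap DG e ≠ 0 := by
    intro h
    have h1 : (brauerMap DG e).coeff 1 = 0 := by rw [h]; rfl
    rw [coeff_brauerMap_of_mem _ (one_mem _)] at h1
    rw [coeff_linIdem_of_mem _ _ (one_mem KG), inv_one, lamG_one, mul_one, hn27'] at h1
    exact one_ne_zero h1
  refine not_isFusionStable_of_data isPGroup_DG maximal_DG hβ hββ he hee heβ zG_mem zG_comm sG_mem
    hBrD ?_ ?_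
  · intro f hf hff hfD hfβ
    rw [hβk] at hfβ ⊢
    exact lemmaA ψ hψ hf hff hfD hfβ
  · intro h
    have hk : kG ∈ Subgroup.centralizer (Subgroup.zpowers (gG * zG * gG⁻¹) : Set GG) := by
      rw [Subgroup.mem_centralizer_iff]
      rintro _ ⟨n, rfl⟩
      exact (Commute.zpow_left (show Commute (gG * zG * gG⁻¹) kG from kG_comm) n)
    have h1 : (brauerMap (Subgroup.zpowers (gG * zG * gG⁻¹)) e).coeff kG
        = (MonoidAlgebra.mapRingHom GG (residue O) β).coeff kG := by rw [h]
    rw [coeff_brauerMap_of_mem _ hk, hβk] at h1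
    unfold betaK at h1
    rw [coeff_linIdem_of_notMem _ _ kG_notMem, coeff_linIdem_of_mem _ _ kG_mem, map_mul, hn27',
      one_mul] at h1
    have h5 : lamG χ kG⁻¹ = 1 := by
      have h6 : (kG⁻¹).left.t = 0 := by
        change -(0 : ZMod 3) = 0
        exact neg_zero
      unfold lamG
      rw [h6, AddChar.map_zero_eq_one]
    rw [h5, map_one] at h1
    exact one_ne_zero h1

end Pool.Agent.BlockFusion
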