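import Mathlib

/-!
# Blocks of finite group algebras: definitions

`O` is a commutative local ring (a complete discrete valuation ring in the application), with
residue field `k`, and `G` is a group (finite in the application). The group algebras are
`MonoidAlgebra O G` and `MonoidAlgebra k G`. We define blocks, fixed subrings, the Brauer map,
defect groups, source idempotents, source algebras, stable bases, Brauer pairs, the morphisms of
the block fusion system, and fusion-stability of a stable basis.
-/

namespace Pool.Agent.BlockFusion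

open IsLocalRing

universe u v

/-- The element of the group algebra given by the group element `g`. -/
noncomputable abbrev elt (A : Type u) [CommRing A] {G : Type v} [Group G] (g : G) :
    MonoidAlgebra A G :=
  MonoidAlgebra.single g 1

/-- `e` is a primitive idempotent of `A`, where `A` is (the underlying set of) a ring contained in
the ring `R`, with the same multiplication and possibly a different unit element: `e` is a nonzero
idempotent of `A`, and every idempotent `f` of `A` with `f * e = f = e * f` is `0` or `e`. -/
def IsPrimitiveIdempotent {R : Type*} [Ring R] (A : Set R) (e : R) : Prop :=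
  e ∈ A ∧ e * e = e ∧ e ≠ 0 ∧ ∀ f ∈ A, f * f = f → f * e = f → e * f = f → f = 0 ∨ f = e

/-- A block of the group algebra of `G` over `A`: a primitive idempotent of its centre. -/
def IsBlock {A : Type u} [CommRing A] {G : Type v} [Group G] (b : MonoidAlgebra A G) : Prop :=
  IsPrimitiveIdempotent (Subring.center (MonoidAlgebra A G) : Set (MonoidAlgebra A G)) b

/-- `(AG)^P`: the elements of the group algebra fixed by conjugation with all elements of the
subgroup `P` (equivalently, commuting with all elements of `P`). -/
def fixedPoints (A : Type u) [CommRing A] {G : Type v} [Group G] (P : Subgroup G) :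
    Set (MonoidAlgebra A G) :=
  {a | ∀ x ∈ P, elt A x * a = a * elt A x}

/-- The subalgebra `A C_G(P)` of the group algebra `AG`: the elements supported on the centralizer
of `P` in `G`. -/
def centralizerAlgebra (A : Type u) [CommRing A] {G : Type v} [Group G] (P : Subgroup G) :
    Set (MonoidAlgebra A G) :=
  {a | ∀ g, a.coeff g ≠ 0 → g ∈ Subgroup.centralizer (P : Set G)}

/-- The centre of `A C_G(P)`. -/
def centreOfCentralizerAlgebra (A : Type u) [CommRing A] {G : Type v} [Group G]
    (P : Subgroup G) : Set (MonoidAlgebra A G) :=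
  {a | a ∈ centralizerAlgebra A P ∧ ∀ c ∈ centralizerAlgebra A P, a * c = c * a}

/-- `e` is a block of `A C_G(P)`: a primitive idempotent of the centre of `A C_G(P)`. -/
def IsBlockOfCentralizer {A : Type u} [CommRing A] {G : Type v} [Group G] (P : Subgroup G)
    (e : MonoidAlgebra A G) : Prop :=
  IsPrimitiveIdempotent (centreOfCentralizerAlgebra A P) e

section Local

variable {O : Type u} [CommRing O] [IsLocalRing O] {G : Type v} [Group G]

open scoped Classical in
/-- The Brauer map `Br_P`: it reduces the coefficients modulo the maximal ideal of `O` and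
restricts to the coefficients at the elements of the centralizer of `P`. On `(OG)^P` it is the
Brauer homomorphism `(OG)^P → k C_G(P)`. -/
noncomputable def brauerMap (P : Subgroup G) (a : MonoidAlgebra O G) :
    MonoidAlgebra (ResidueField O) G :=
  MonoidAlgebra.ofCoeff
    ((MonoidAlgebra.mapRingHom G (residue O) a).coeff.filter
      (fun g => g ∈ Subgroup.centralizer (P : Set G)))

/-- `D` is a defect group of `b`: a maximal `p`-subgroup `D` of `G` with `Br_D(b) ≠ 0`. -/
def IsDefectGroup (p : ℕ) (b : MonoidAlgebra O G) (D : Subgroup G) : Prop :=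
  IsPGroup p D ∧ brauerMap D b ≠ 0 ∧
    ∀ Q : Subgroup G, D ≤ Q → IsPGroup p Q → brauerMap Q b ≠ 0 → Q = D

/-- `i` is a source idempotent of the block `b` with defect group `D`: a primitive idempotent of
`(OGb)^D` with `Br_D(i) ≠ 0`. -/
def IsSourceIdempotent (b : MonoidAlgebra O G) (D : Subgroup G) (i : MonoidAlgebra O G) : Prop :=
  IsPrimitiveIdempotent {a | a ∈ fixedPoints O D ∧ a * b = a} i ∧ brauerMap D i ≠ 0

/-- The source algebra `i OG i`, as an `O`-submodule of `OG`. -/
noncomputable def sourceAlgebra (i : MonoidAlgebra O G) : Submodule O (MonoidAlgebra O G) :=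
  LinearMap.range ((LinearMap.mulLeft O i).comp (LinearMap.mulRight O i))

/-- `X` is a `(D, D)`-stable `O`-basis of `i OG i`: an `O`-basis `X` of `i OG i` such that
`u X v = X` for all `u, v` in `D`. -/
def IsStableBasis (D : Subgroup G) (i : MonoidAlgebra O G) (X : Set (MonoidAlgebra O G)) : Prop :=
  LinearIndependent O ((↑) : X → MonoidAlgebra O G) ∧
    Submodule.span O X = sourceAlgebra i ∧
    ∀ u ∈ D, ∀ v ∈ D, (fun x => elt O u * x * elt O v) '' X = X

/-- `(P, e)` is a Brauer pair: `P` is a `p`-subgroup of `G` and `e` is a block of `k C_G(P)`. -/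
def IsBrauerPair (p : ℕ) (P : Subgroup G) (e : MonoidAlgebra (ResidueField O) G) : Prop :=
  IsPGroup p P ∧ IsBlockOfCentralizer P e

/-- Inclusion of Brauer pairs, `(Q, f) ≤ (P, e)`: `Q ≤ P`, and there is a primitive idempotent `j`
of `(OG)^P` with `Br_P(j) e ≠ 0` and `Br_Q(j) f ≠ 0`. -/
def BrauerPairLE (Q : Subgroup G) (f : MonoidAlgebra (ResidueField O) G) (P : Subgroup G)
    (e : MonoidAlgebra (ResidueField O) G) : Prop :=
  Q ≤ P ∧ ∃ j : MonoidAlgebra O G, IsPrimitiveIdempotent (fixedPoints O P) j ∧
    brauerMap P j * e ≠ 0 ∧ brauerMap Q j * f ≠ 0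

/-- The conjugate `g P g⁻¹` of a subgroup. -/
def conjSubgroup (g : G) (P : Subgroup G) : Subgroup G :=
  P.map (MulAut.conj g).toMonoidHom

/-- The conjugate `g e g⁻¹` of an element of a group algebra. -/
noncomputable def conjElt {A : Type u} [CommRing A] (g : G) (e : MonoidAlgebra A G) :
    MonoidAlgebra A G :=
  elt A g * e * elt A g⁻¹

/-- Let `(D, eD)` be a Brauer pair. For `P ≤ D` and `g` in `G`, the map `c_g : P → D`,
`x ↦ g x g⁻¹`, is a morphism of the fusion system of `(D, eD)`: there is a Brauer pair
`(P, e) ≤ (D, eD)` such that its conjugate `(g P g⁻¹, g e g⁻¹)` is a Brauer pair contained in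
`(D, eD)`. Every morphism from `P` to `D` in the block fusion system on `D` defined by the
Brauer pairs contained in `(D, eD)` has this form. -/
def IsFusionMorphism (p : ℕ) (D : Subgroup G) (eD : MonoidAlgebra (ResidueField O) G)
    (P : Subgroup G) (g : G) : Prop :=
  ∃ e : MonoidAlgebra (ResidueField O) G,
    IsBrauerPair p P e ∧ BrauerPairLE (O := O) P e D eD ∧
    IsBrauerPair p (conjSubgroup g P) (conjElt g e) ∧
    BrauerPairLE (O := O) (conjSubgroup g P) (conjElt g e) D eD

/-- A `(D, D)`-stable basis `X` is stable under the fusion system of `(D, eD)`: for every `P ≤ D`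
and every morphism `φ = c_g : P → D` of the fusion system, there are
* an isomorphism of `(P, D)`-bisets from `X`, with `P` acting on the left through `φ`, to `X`;
* an isomorphism of `(D, P)`-bisets from `X`, with `P` acting on the right through `φ`, to `X`. -/
def IsFusionStable (p : ℕ) (D : Subgroup G) (eD : MonoidAlgebra (ResidueField O) G)
    (X : Set (MonoidAlgebra O G)) : Prop :=
  ∀ (P : Subgroup G) (g : G), P ≤ D → IsFusionMorphism (O := O) p D eD P g →
    (∃ f : MonoidAlgebra O G → MonoidAlgebra O G, Set.BijOn f X X ∧
      ∀ x ∈ X, ∀ u ∈ P, ∀ v ∈ D,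
        f (elt O (g * u * g⁻¹) * x * elt O v) = elt O u * f x * elt O v) ∧
    (∃ f : MonoidAlgebra O G → MonoidAlgebra O G, Set.BijOn f X X ∧
      ∀ x ∈ X, ∀ u ∈ D, ∀ v ∈ P,
        f (elt O u * x * elt O (g * v * g⁻¹)) = elt O u * f x * elt O v)

end Local

end Pool.Agent.BlockFusion
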