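import Pool.Agent.Lib_helper36.PFixed

/-!
# Direct summands of permutation modules of p-groups are permutation modules
-/

namespace Pool.Agent.BlockFusion

open IsLocalRing

universe u v w

section Transitive

variable {p : ℕ} [hp : Fact p.Prime] {P : Type*} [Group P] [Finite P]
  {O : Type u} [CommRing O] [IsLocalRing O] [CharP (ResidueField O) p]

/-- An equivariant endomorphism `f` of a transitive permutation module of a `p`-group such that
`f 1` has a unit coordinate (`1` the constant function) is invertible. -/
theorem exists_inverse_of_unit (hP : IsPGroup p P) {ι : Type v} [Fintype ι] [DecidableEq ι]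
    [MulAction P ι] (htr : ∀ j j' : ι, ∃ u : P, u • j = j')
    (f : (ι → O) →ₗ[O] (ι → O))
    (hf : ∀ (u : P) (y : ι → O) (j : ι), f (fun j => y (u⁻¹ • j)) j = f y (u⁻¹ • j))
    (j₀ : ι) (hunit : IsUnit (f (fun _ => 1) j₀)) :
    ∃ g : (ι → O) →ₗ[O] (ι → O), (∀ y, f (g y) = y) ∧ (∀ y, g (f y) = y) := by
  classical
  set A : Matrix ι ι O := LinearMap.toMatrix' f with hA
  have hAent : ∀ j j', A j j' = f (Pi.single j' 1) j := by
    intro j j'
    rw [hA, LinearMap.toMatrix'_apply]
  have hAeq : ∀ (u : P) j j', A (u • j) (u • j') = A j j' := by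
    intro u j j'
    rw [hAent, hAent]
    have h1 := hf u (Pi.single j' 1) (u • j)
    rw [inv_smul_smul] at h1
    have h2 : (fun i => (Pi.single j' 1 : ι → O) (u⁻¹ • i)) = Pi.single (u • j') 1 := by
      funext i
      by_cases h : i = u • j'
      · subst h; simp
      · have h' : u⁻¹ • i ≠ j' := by
          intro hh
          apply h
          rw [← hh, smul_inv_smul]
        simp [Pi.single_apply, h, h']
    rw [h2] at h1
    exact h1
  have hdet : IsUnit A.det := by
    by_contra hnu
    set Ab : Matrix ι ι (ResidueField O) := A.map (residue O) with hAb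
    have hdet0 : Ab.det = 0 := by
      rw [hAb, ← RingHom.mapMatrix_apply, ← RingHom.map_det]
      exact (residue_eq_zero_iff _).2 ((mem_maximalIdeal _).2 hnu)
    obtain ⟨c, hc0, hc⟩ := Matrix.exists_mulVec_eq_zero_iff.2 hdet0
    let ρ : P →* AddMonoid.End (ι → ResidueField O) :=
      { toFun := fun u =>
          { toFun := fun y j => y (u⁻¹ • j)
            map_zero' := rfl
            map_add' := fun _ _ => rfl }
        map_one' := AddMonoidHom.ext fun y => funext fun j => by
          change y ((1 : P)⁻¹ • j) = y j
          rw [inv_one, one_smul]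
        map_mul' := fun u u' => AddMonoidHom.ext fun y => funext fun j => by
          change y ((u * u')⁻¹ • j) = y (u'⁻¹ • u⁻¹ • j)
          rw [mul_inv_rev, mul_smul] }
    let W : AddSubgroup (ι → ResidueField O) :=
      { carrier := {y | Ab.mulVec y = 0}
        zero_mem' := by simp
        add_mem' := fun {x y} hx hy => by
          simp only [Set.mem_ofPred_eq] at hx hy ⊢
          rw [Matrix.mulVec_add, hx, hy, add_zero]
        neg_mem' := fun {x} hx => by
          simp only [Set.mem_ofPred_eq] at hx ⊢
          rw [Matrix.mulVec_neg, hx, neg_zero] }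
    have hW : ∀ u : P, ∀ x ∈ W, ρ u x ∈ W := by
      intro u x hx
      change Ab.mulVec (fun j => x (u⁻¹ • j)) = 0
      have hx' : Ab.mulVec x = 0 := hx
      funext j
      have h1 := congrFun hx' (u⁻¹ • j)
      simp only [Matrix.mulVec, dotProduct, Pi.zero_apply] at h1 ⊢
      rw [← h1]
      refine Fintype.sum_equiv (MulAction.toPerm u⁻¹) _ _ ?_
      intro i
      rw [MulAction.toPerm_apply]
      congr 1
      rw [hAb, Matrix.map_apply, Matrix.map_apply]
      congr 1
      exact (hAeq u⁻¹ j i).symm
    have hexp : ∀ x : ι → ResidueField O, p • x = 0 := by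
      intro x
      funext j
      simp
    obtain ⟨w, hwW, hw0, hwf⟩ := exists_fixed_vector hP hexp ρ W hW (v := c) hc hc0
    have hconst : ∀ j, w j = w j₀ := by
      intro j
      obtain ⟨u, hu⟩ := htr j j₀
      have h1 := congrFun (hwf u) j₀
      change w (u⁻¹ • j₀) = w j₀ at h1
      rw [← hu, inv_smul_smul] at h1
      rw [h1, hu]
    have hγ : w j₀ ≠ 0 := by
      intro h
      apply hw0
      funext j
      rw [hconst, h]; rfl
    have hwW' : Ab.mulVec w = 0 := hwW
    have h1 := congrFun hwW' j₀
    simp only [Matrix.mulVec, dotProduct, Pi.zero_apply] at h1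
    rw [Finset.sum_congr rfl (fun j _ => by rw [hconst j]), ← Finset.sum_mul] at h1
    have h2 : ∑ j, Ab j₀ j = residue O (f (fun _ => 1) j₀) := by
      have h3 : f (fun _ => 1) j₀ = ∑ j, A j₀ j := by
        have h4 : (fun _ : ι => (1 : O)) = ∑ j, Pi.single j 1 := by
          funext i
          simp [Finset.sum_apply, Pi.single_apply]
        rw [h4, map_sum, Finset.sum_apply]
        exact Finset.sum_congr rfl (fun j _ => (hAent _ _).symm)
      rw [h3, map_sum]
      rfl
    rw [h2] at h1
    rcases mul_eq_zero.1 h1 with h | h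
    · have := (residue_eq_zero_iff _).1 h
      exact ((mem_maximalIdeal _).1 this) hunit
    · exact hγ h
  refine ⟨Matrix.toLin' A⁻¹, ?_, ?_⟩
  · intro y
    have h1 : f = Matrix.toLin' A := by rw [hA, Matrix.toLin'_toMatrix']
    rw [h1, ← Matrix.toLin'_mul_apply, Matrix.mul_nonsing_inv _ hdet, Matrix.toLin'_one]
    rfl
  · intro y
    have h1 : f = Matrix.toLin' A := by rw [hA, Matrix.toLin'_toMatrix']
    rw [h1, ← Matrix.toLin'_mul_apply, Matrix.nonsing_inv_mul _ hdet, Matrix.toLin'_one]
    rfl

end Transitive

section Main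

variable {p : ℕ} [hp : Fact p.Prime] {P : Type*} [Group P] [Finite P]
  {O : Type u} [CommRing O] [IsLocalRing O] [CharP (ResidueField O) p]

/-- Translation of functions on a `P`-set. -/
def trans (O : Type u) [CommRing O] {P : Type*} [Group P] {ι : Type v} [MulAction P ι] (u : P) :
    (ι → O) →ₗ[O] (ι → O) where
  toFun y j := y (u⁻¹ • j)
  map_add' _ _ := rfl
  map_smul' _ _ := rfl

/-- Extension by zero. -/
def extz (O : Type u) [CommRing O] {ι : Type v} (q : ι → Prop) [DecidablePred q] :
    ({j // q j} → O) →ₗ[O] (ι → O) where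
  toFun y j := if h : q j then y ⟨j, h⟩ else 0
  map_add' x y := by funext j; by_cases h : q j <;> simp [h]
  map_smul' c y := by funext j; by_cases h : q j <;> simp [h]

/-- Restriction. -/
def resq (O : Type u) [CommRing O] {ι : Type v} (q : ι → Prop) :
    (ι → O) →ₗ[O] ({j // q j} → O) where
  toFun y j := y j.1
  map_add' _ _ := rfl
  map_smul' _ _ := rfl

/-- The action on an invariant subset. -/
@[instance_reducible]
def subAction {P : Type*} [Group P] {ι : Type v} [MulAction P ι] (q : ι → Prop)
    (hq : ∀ (u : P) j, q j → q (u • j)) : MulAction P {j // q j} where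
  smul u j := ⟨u • j.1, hq u j.1 j.2⟩
  one_smul j := Subtype.ext (one_smul P j.1)
  mul_smul u u' j := Subtype.ext (mul_smul u u' j.1)

theorem exists_perm_basis (hP : IsPGroup p P) (n : ℕ) :
    ∀ (ι : Type v) [Fintype ι] [MulAction P ι], Fintype.card ι = n →
    ∀ (N : Type w) [AddCommGroup N] [Module O N] (ρ : P →* Module.End O N)
      (s : N →ₗ[O] (ι → O)) (r : (ι → O) →ₗ[O] N),
      (∀ u x, s (ρ u x) = trans O u (s x)) →
      (∀ u y, r (trans O u y) = ρ u (r y)) →
      (∀ x, r (s x) = x) →
      ∃ (κ : Type v) (_ : Fintype κ) (B : Module.Basis κ O N), ∀ u k, ∃ k', ρ u (B k) = B k' := by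
  classical
  induction n using Nat.strong_induction_on with
  | _ n ih =>
    intro ι _ _ hn N _ _ ρ s r hs hr hrs
    rcases isEmpty_or_nonempty ι with hι | ⟨⟨j₀⟩⟩
    · -- N is trivial
      have hN : Subsingleton N := by
        refine ⟨fun x y => ?_⟩
        rw [← hrs x, ← hrs y]
        congr 1
        funext j
        exact hι.elim j
      exact ⟨PEmpty, inferInstance, Module.Basis.empty N, fun _ k => k.elim⟩
    · let q : ι → Prop := fun j => j ∈ MulAction.orbit P j₀
      have hq : ∀ (u : P) j, q j → q (u • j) := by
        rintro u _ ⟨u', rfl⟩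
        exact ⟨u * u', mul_smul u u' j₀⟩
      have hq' : ∀ (u : P) j, ¬ q j → ¬ q (u • j) := by
        intro u j hj h
        apply hj
        have := hq u⁻¹ _ h
        rwa [inv_smul_smul] at this
      let act1 : MulAction P {j // q j} := subAction q hq
      let act2 : MulAction P {j // ¬ q j} := subAction (fun j => ¬ q j) hq'
      have hsm1 : ∀ (u : P) (j : {j // q j}), (u • j).1 = u • j.1 := fun _ _ => rfl
      have hsm2 : ∀ (u : P) (j : {j // ¬ q j}), (u • j).1 = u • j.1 := fun _ _ => rfl
      let i1 := extz O q
      let i2 := extz O (fun j => ¬ q j)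
      let p1 := resq O q
      let p2 := resq O (fun j => ¬ q j)
      have hp1i1 : ∀ y, p1 (i1 y) = y := by
        intro y
        funext j
        change (if h : q j.1 then y ⟨j.1, h⟩ else 0) = y j
        rw [dif_pos j.2]
      have hdec : ∀ x, p1 x = 0 → i2 (p2 x) = x := by
        intro x hx
        funext j
        change (if h : ¬ q j then x j else 0) = x j
        by_cases h : q j
        · rw [dif_neg (not_not.2 h)]
          exact (congrFun hx ⟨j, h⟩).symm
        · rw [dif_pos h]
      have hp1i2 : ∀ y, p1 (i2 y) = 0 := by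
        intro y
        funext j
        change (if h : ¬ q j.1 then y ⟨j.1, h⟩ else 0) = 0
        rw [dif_neg (not_not.2 j.2)]
      have hti1 : ∀ (u : P) y, i1 (trans O u y) = trans O u (i1 y) := by
        intro u y
        funext j
        change (if h : q j then y (u⁻¹ • ⟨j, h⟩) else 0)
          = (if h : q (u⁻¹ • j) then y ⟨u⁻¹ • j, h⟩ else 0)
        by_cases h : q j
        · rw [dif_pos h, dif_pos (hq u⁻¹ j h)]; rfl
        · rw [dif_neg h, dif_neg (hq' u⁻¹ j h)]
      have hti2 : ∀ (u : P) y, i2 (trans O u y) = trans O u (i2 y) := by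
        intro u y
        funext j
        change (if h : ¬ q j then y (u⁻¹ • ⟨j, h⟩) else 0)
          = (if h : ¬ q (u⁻¹ • j) then y ⟨u⁻¹ • j, h⟩ else 0)
        by_cases h : q j
        · rw [dif_neg (not_not.2 h), dif_neg (not_not.2 (hq u⁻¹ j h))]
        · rw [dif_pos h, dif_pos (hq' u⁻¹ j h)]; rfl
      have htp1 : ∀ (u : P) y, p1 (trans O u y) = trans O u (p1 y) := fun _ _ => rfl
      have htp2 : ∀ (u : P) y, p2 (trans O u y) = trans O u (p2 y) := fun _ _ => rfl
      have htr : ∀ j j' : {j // q j}, ∃ u : P, u • j = j' := by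
        rintro ⟨_, ⟨u, rfl⟩⟩ ⟨_, ⟨u', rfl⟩⟩
        refine ⟨u' * u⁻¹, Subtype.ext ?_⟩
        change (u' * u⁻¹) • (u • j₀) = u' • j₀
        rw [← mul_smul, inv_mul_cancel_right]
      have hcard2 : Fintype.card {j // ¬ q j} < n := by
        rw [← hn]
        exact Fintype.card_subtype_lt (x := j₀) (not_not.2 ⟨1, one_smul P j₀⟩)
      let j1 : {j // q j} := ⟨j₀, ⟨1, one_smul P j₀⟩⟩
      -- the endomorphism f
      let f : ({j // q j} → O) →ₗ[O] ({j // q j} → O) := p1 ∘ₗ s ∘ₗ r ∘ₗ i1
      have hf : ∀ (u : P) y, f (trans O u y) = trans O u (f y) := by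
        intro u y
        change p1 (s (r (i1 (trans O u y)))) = trans O u (p1 (s (r (i1 y))))
        rw [hti1, hr, hs, htp1]
      -- inverse of equivariant is equivariant
      have hinv : ∀ (f g : ({j // q j} → O) →ₗ[O] ({j // q j} → O)),
          (∀ (u : P) y, f (trans O u y) = trans O u (f y)) → (∀ y, f (g y) = y) →
          (∀ y, g (f y) = y) → ∀ (u : P) y, g (trans O u y) = trans O u (g y) := by
        intro f g hf hfg hgf u y
        have h1 := hf u (g y)
        rw [hfg] at h1
        rw [← h1, hgf]
      rcases IsLocalRing.isUnit_or_isUnit_one_sub_self (f (fun _ => 1) j1) with hu | hu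
      · -- case 1
        obtain ⟨g, hfg, hgf⟩ := exists_inverse_of_unit hP htr f
          (fun u y j => congrFun (hf u y) j) j1 hu
        have hg := hinv f g hf hfg hgf
        let t : N →ₗ[O] ({j // q j} → O) := p1 ∘ₗ s
        have ht : ∀ u x, t (ρ u x) = trans O u (t x) := by
          intro u x
          change p1 (s (ρ u x)) = _
          rw [hs, htp1]; rfl
        let N1 : Submodule O N := LinearMap.ker t
        have hN1 : ∀ u, ∀ x ∈ N1, ρ u x ∈ N1 := by
          intro u x hx
          rw [LinearMap.mem_ker] at hx ⊢
          rw [ht, hx, map_zero]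
        let ρ1 : P →* Module.End O N1 :=
          { toFun := fun u => (ρ u).restrict (hN1 u)
            map_one' := by
              ext x
              change ρ 1 x.1 = x.1
              rw [map_one]; rfl
            map_mul' := fun u u' => by
              ext x
              change ρ (u * u') x.1 = ρ u (ρ u' x.1)
              rw [map_mul]; rfl }
        have hmemπ : ∀ x, x - r (i1 (g (t x))) ∈ N1 := by
          intro x
          rw [LinearMap.mem_ker, map_sub]
          have : t (r (i1 (g (t x)))) = f (g (t x)) := rfl
          rw [this, hfg, sub_self]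
        let π1 : N →ₗ[O] N1 :=
          { toFun := fun x => ⟨x - r (i1 (g (t x))), hmemπ x⟩
            map_add' := fun x y => Subtype.ext (by
              change (x + y) - r (i1 (g (t (x + y)))) = (x - _) + (y - _)
              simp only [map_add]; abel)
            map_smul' := fun c x => Subtype.ext (by
              change (c • x) - r (i1 (g (t (c • x)))) = c • (x - _)
              simp only [map_smul, smul_sub]) }
        have hπ1 : ∀ x, (π1 x : N) = x - r (i1 (g (t x))) := fun _ => rfl
        have hπ1N : ∀ x : N1, π1 x.1 = x := by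
          intro x
          apply Subtype.ext
          rw [hπ1, LinearMap.mem_ker.1 x.2, map_zero, map_zero, map_zero, sub_zero]
        let s1 : N1 →ₗ[O] ({j // ¬ q j} → O) := p2 ∘ₗ s ∘ₗ N1.subtype
        let r1 : ({j // ¬ q j} → O) →ₗ[O] N1 := π1 ∘ₗ r ∘ₗ i2
        obtain ⟨κ', hκ', B', hB'⟩ := ih _ hcard2 {j // ¬ q j} rfl N1 ρ1 s1 r1
          (by
            intro u x
            change p2 (s (ρ u x.1)) = trans O u (p2 (s x.1))
            rw [hs, htp2])
          (by
            intro u y
            apply Subtype.ext
            change r (i2 (trans O u y)) - r (i1 (g (t (r (i2 (trans O u y))))))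
              = ρ u (r (i2 y) - r (i1 (g (t (r (i2 y))))))
            rw [hti2, hr, ht, hg, hti1, hr, map_sub])
          (by
            intro x
            change π1 (r (i2 (p2 (s x.1)))) = x
            rw [hdec (s x.1) (LinearMap.mem_ker.1 x.2), hrs, hπ1N])
        have hti : ∀ y, t (r (i1 y)) = f y := fun _ => rfl
        let e : N ≃ₗ[O] N1 × ({j // q j} → O) :=
          { toFun := fun x => (π1 x, g (t x))
            map_add' := fun x y => by simp only [map_add]; rfl
            map_smul' := fun c x => by simp only [map_smul]; rfl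
            invFun := fun z => z.1.1 + r (i1 z.2)
            left_inv := fun x => by
              change (π1 x : N) + r (i1 (g (t x))) = x
              rw [hπ1, sub_add_cancel]
            right_inv := fun z => by
              have h1 : g (t (z.1.1 + r (i1 z.2))) = z.2 := by
                rw [map_add, LinearMap.mem_ker.1 z.1.2, zero_add, hti, hgf]
              refine Prod.ext (Subtype.ext ?_) h1
              change (π1 (z.1.1 + r (i1 z.2)) : N) = z.1.1
              rw [hπ1, h1, add_sub_cancel_right] }
        refine ⟨κ' ⊕ {j // q j}, inferInstance,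
          (B'.prod (Pi.basisFun O {j // q j})).map e.symm, ?_⟩
        have hesymm : ∀ z, e.symm z = z.1.1 + r (i1 z.2) := fun _ => rfl
        intro u k
        rcases k with k | j
        · obtain ⟨k', hk'⟩ := hB' u k
          refine ⟨Sum.inl k', ?_⟩
          rw [Module.Basis.map_apply, Module.Basis.map_apply, hesymm, hesymm]
          simp only [Module.Basis.prod_apply, Sum.elim_inl, Function.comp_apply,
            LinearMap.inl_apply, map_zero, add_zero]
          exact congrArg Subtype.val hk'
        · refine ⟨Sum.inr (u • j), ?_⟩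
          rw [Module.Basis.map_apply, Module.Basis.map_apply, hesymm, hesymm]
          simp only [Module.Basis.prod_apply, Sum.elim_inr, Function.comp_apply,
            LinearMap.inr_apply, ZeroMemClass.coe_zero, zero_add, Pi.basisFun_apply]
          rw [← hr, ← hti1]
          congr 2
          funext i
          change (Pi.single j 1 : {j // q j} → O) (u⁻¹ • i) = _
          by_cases h : i = u • j
          · subst h; simp
          · have h' : u⁻¹ • i ≠ j := by
              intro hh
              apply h
              rw [← hh, smul_inv_smul]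
            simp [h, h']
      · -- case 2
        let f' : ({j // q j} → O) →ₗ[O] ({j // q j} → O) := LinearMap.id - f
        have hf' : ∀ (u : P) y, f' (trans O u y) = trans O u (f' y) := by
          intro u y
          change trans O u y - f (trans O u y) = trans O u (y - f y)
          rw [hf, map_sub]
        obtain ⟨g, hfg, hgf⟩ := exists_inverse_of_unit hP htr f'
          (fun u y j => congrFun (hf' u y) j) j1 hu
        have hg := hinv f' g hf' hfg hgf
        let E : (ι → O) →ₗ[O] (ι → O) := LinearMap.id - s ∘ₗ r
        have hE : ∀ y, E y = y - s (r y) := fun _ => rfl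
        let Q : (ι → O) →ₗ[O] (ι → O) := LinearMap.id - E ∘ₗ i1 ∘ₗ g ∘ₗ p1
        have hQ : ∀ y, Q y = y - E (i1 (g (p1 y))) := fun _ => rfl
        have hp1Q : ∀ y, p1 (Q y) = 0 := by
          intro y
          rw [hQ, map_sub, hE, map_sub, hp1i1]
          have : g (p1 y) - p1 (s (r (i1 (g (p1 y))))) = f' (g (p1 y)) := rfl
          rw [this, hfg, sub_self]
        have hrE : ∀ y, r (E y) = 0 := by
          intro y
          rw [hE, map_sub, hrs, sub_self]
        refine ih _ hcard2 {j // ¬ q j} rfl N ρ (p2 ∘ₗ Q ∘ₗ s) (r ∘ₗ i2) ?_ ?_ ?_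
        · intro u x
          change p2 (Q (s (ρ u x))) = trans O u (p2 (Q (s x)))
          rw [← htp2]
          congr 1
          rw [hQ, hQ, hE, hE, hs, htp1, hg, hti1, hr, hs, map_sub, map_sub]
        · intro u y
          change r (i2 (trans O u y)) = ρ u (r (i2 y))
          rw [hti2, hr]
        · intro x
          change r (i2 (p2 (Q (s x)))) = x
          rw [hdec _ (hp1Q _), hQ, map_sub, hrE, sub_zero, hrs]

end Main

end Pool.Agent.BlockFusion
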