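import Pool.Agent.Lib_helper36.BlockDefs
import Pool.Agent.Lib_helper36.PermBasis

/-!
# General lemmas on Brauer maps, primitive idempotents and stable bases
-/

namespace Pool.Agent.BlockFusion

open IsLocalRing

universe u v

section Basic

variable {O : Type u} [CommRing O] [IsLocalRing O] {G : Type v} [Group G]

open scoped Classical in
lemma coeff_brauerMap (P : Subgroup G) (a : MonoidAlgebra O G) (g : G) :
    (brauerMap P a).coeff g
      = if g ∈ Subgroup.centralizer (P : Set G) then residue O (a.coeff g) else 0 := by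
  unfold brauerMap
  simp only [Finsupp.filter_apply, MonoidAlgebra.coeff_mapRingHom]

lemma coeff_brauerMap_of_mem {P : Subgroup G} {g : G} (a : MonoidAlgebra O G)
    (hg : g ∈ Subgroup.centralizer (P : Set G)) :
    (brauerMap P a).coeff g = residue O (a.coeff g) := by
  classical
  rw [coeff_brauerMap, if_pos hg]

lemma coeff_brauerMap_of_notMem {P : Subgroup G} {g : G} (a : MonoidAlgebra O G)
    (hg : g ∉ Subgroup.centralizer (P : Set G)) :
    (brauerMap P a).coeff g = 0 := by
  classical
  rw [coeff_brauerMap, if_neg hg]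

lemma brauerMap_mem (P : Subgroup G) (a : MonoidAlgebra O G) :
    brauerMap P a ∈ centralizerAlgebra (ResidueField O) P := by
  intro g hg
  by_contra h
  exact hg (coeff_brauerMap_of_notMem a h)

lemma brauerMap_add (P : Subgroup G) (a b : MonoidAlgebra O G) :
    brauerMap P (a + b) = brauerMap P a + brauerMap P b := by
  classical
  apply MonoidAlgebra.ext
  ext g
  simp only [MonoidAlgebra.coeff_add, Finsupp.add_apply, coeff_brauerMap, map_add]
  split_ifs <;> simp

lemma brauerMap_zero (P : Subgroup G) : brauerMap P (0 : MonoidAlgebra O G) = 0 := by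
  classical
  apply MonoidAlgebra.ext
  ext g
  rw [coeff_brauerMap]
  simp

/-- The Brauer map as an additive homomorphism. -/
noncomputable def brauerHom (P : Subgroup G) :
    MonoidAlgebra O G →+ MonoidAlgebra (ResidueField O) G where
  toFun := brauerMap P
  map_zero' := brauerMap_zero P
  map_add' := brauerMap_add P

lemma coeff_mul_fin {A : Type*} [CommRing A] [Fintype G] (x y : MonoidAlgebra A G) (g : G) :
    (x * y).coeff g = ∑ h, x.coeff h * y.coeff (h⁻¹ * g) := by
  rw [MonoidAlgebra.coeff_mul_apply_left, Finsupp.sum_fintype]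
  intro i
  rw [zero_mul]

lemma mem_fixedPoints_iff {A : Type*} [CommRing A] {P : Subgroup G} {a : MonoidAlgebra A G} :
    a ∈ fixedPoints A P ↔ ∀ u ∈ P, ∀ g, a.coeff (u * g * u⁻¹) = a.coeff g := by
  constructor
  · intro h u hu g
    have h1 := congrArg (fun z => z.coeff (u * g)) (h u hu)
    simp only [MonoidAlgebra.coeff_single_mul_apply, MonoidAlgebra.coeff_mul_single_apply, one_mul,
      mul_one, inv_mul_cancel_left] at h1
    exact h1.symm
  · intro h u hu
    apply MonoidAlgebra.ext
    ext g
    simp only [MonoidAlgebra.coeff_single_mul_apply, MonoidAlgebra.coeff_mul_single_apply, one_mul,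
      mul_one]
    have := h u hu (u⁻¹ * g)
    rw [← this]
    congr 1
    group

/-- The conjugation action of a subgroup on the group. -/
@[instance_reducible]
def conjAction (P : Subgroup G) : MulAction P G where
  smul u g := u.1 * g * u.1⁻¹
  one_smul g := by
    change (1 : G) * g * (1 : G)⁻¹ = g
    simp
  mul_smul u u' g := by
    change (u.1 * u'.1) * g * (u.1 * u'.1)⁻¹ = u.1 * (u'.1 * g * u'.1⁻¹) * u.1⁻¹
    group

/-- A sum over `G` of a function invariant under conjugation with the `p`-group `P`, with values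
in characteristic `p`, is the sum over the centralizer. -/
lemma sum_conj_invariant [Fintype G] {p : ℕ} [Fact p.Prime] {P : Subgroup G} (hP : IsPGroup p P)
    {k : Type*} [CommRing k] [CharP k p] (F : G → k)
    (hF : ∀ u ∈ P, ∀ g, F (u * g * u⁻¹) = F g)
    [DecidablePred (fun g => g ∈ Subgroup.centralizer (P : Set G))] :
    ∑ g, F g = ∑ g, if g ∈ Subgroup.centralizer (P : Set G) then F g else 0 := by
  classical
  let act := conjAction P
  have h1 := sum_eq_sum_fixed (P := P) hP F (fun u x => hF u.1 u.2 x)
  rw [h1, Finset.sum_filter]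
  refine Finset.sum_congr rfl (fun g _ => ?_)
  have h2 : g ∈ MulAction.fixedPoints P G ↔ g ∈ Subgroup.centralizer (P : Set G) := by
    rw [MulAction.mem_fixedPoints, Subgroup.mem_centralizer_iff]
    constructor
    · intro h u hu
      have h3 : u * g * u⁻¹ = g := h ⟨u, hu⟩
      exact mul_inv_eq_iff_eq_mul.1 h3
    · intro h u
      change u.1 * g * u.1⁻¹ = g
      exact mul_inv_eq_iff_eq_mul.2 (h u.1 u.2)
  by_cases h : g ∈ Subgroup.centralizer (P : Set G)
  · rw [if_pos (h2.2 h), if_pos h]
  · rw [if_neg (fun hh => h (h2.1 hh)), if_neg h]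

lemma centralizer_conj_mem {P : Subgroup G} {g : G} (hg : g ∈ Subgroup.centralizer (P : Set G))
    {u : G} (hu : u ∈ P) : u * g = g * u :=
  (Subgroup.mem_centralizer_iff.1 hg) u hu

/-- The Brauer map is multiplicative on `(OG)^P`. -/
lemma brauerMap_mul [Finite G] {p : ℕ} [Fact p.Prime] [CharP (ResidueField O) p]
    {P : Subgroup G} (hP : IsPGroup p P) {a b : MonoidAlgebra O G} (ha : a ∈ fixedPoints O P)
    (hb : b ∈ fixedPoints O P) :
    brauerMap P (a * b) = brauerMap P a * brauerMap P b := by
  classical
  have := Fintype.ofFinite G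
  apply MonoidAlgebra.ext
  ext g
  rw [coeff_mul_fin]
  by_cases hg : g ∈ Subgroup.centralizer (P : Set G)
  · rw [coeff_brauerMap_of_mem _ hg, coeff_mul_fin, map_sum]
    rw [sum_conj_invariant hP]
    · refine Finset.sum_congr rfl (fun h _ => ?_)
      by_cases hh : h ∈ Subgroup.centralizer (P : Set G)
      · rw [if_pos hh, coeff_brauerMap_of_mem _ hh,
          coeff_brauerMap_of_mem _ (mul_mem (inv_mem hh) hg), map_mul]
      · rw [if_neg hh, coeff_brauerMap_of_notMem _ hh, zero_mul]
    · intro u hu h
      have h1 : (u * h * u⁻¹)⁻¹ * g = u * (h⁻¹ * g) * u⁻¹ := by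
        have := centralizer_conj_mem hg hu
        calc (u * h * u⁻¹)⁻¹ * g = u * h⁻¹ * (u⁻¹ * g) := by group
          _ = u * h⁻¹ * (g * u⁻¹) := by
              rw [show u⁻¹ * g = g * u⁻¹ by
                rw [inv_mul_eq_iff_eq_mul, ← mul_assoc, this, mul_inv_cancel_right]]
          _ = _ := by group
      rw [h1, mem_fixedPoints_iff.1 ha u hu, mem_fixedPoints_iff.1 hb u hu]
  · rw [coeff_brauerMap_of_notMem _ hg]
    symm
    apply Finset.sum_eq_zero
    intro h _
    by_cases hh : h ∈ Subgroup.centralizer (P : Set G)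
    · have : h⁻¹ * g ∉ Subgroup.centralizer (P : Set G) := by
        intro hc
        apply hg
        have := mul_mem hh hc
        rwa [mul_inv_cancel_left] at this
      rw [coeff_brauerMap_of_notMem _ this, mul_zero]
    · rw [coeff_brauerMap_of_notMem _ hh, zero_mul]

end Basic

section Primitive

/-- Existence of primitive idempotents below a given idempotent, not killed by a given additive
map. -/
lemma exists_primitive_below {O : Type*} [CommRing O] {R : Type*} [Ring R] [Algebra O R]
    [IsNoetherian O R] {B : Type*} [AddCommGroup B] (A : Set R) (hA : ∀ x ∈ A, ∀ y ∈ A, x - y ∈ A)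
    (β : R →+ B) {e : R} (he : e ∈ A) (hee : e * e = e) (hβ : β e ≠ 0) :
    ∃ i, IsPrimitiveIdempotent A i ∧ i * e = i ∧ e * i = i ∧ β i ≠ 0 := by
  let S : Set (Submodule O R) :=
    {M | ∃ i ∈ A, i * i = i ∧ i * e = i ∧ e * i = i ∧ β i ≠ 0 ∧
      M = LinearMap.range (LinearMap.mulLeft O (1 - i))}
  have hS : S.Nonempty := ⟨_, e, he, hee, hee, hee, hβ, rfl⟩
  obtain ⟨M, ⟨i, hiA, hii, hie, hei, hβi, rfl⟩, hmax⟩ :=
    (set_has_maximal_iff_noetherian (R := O) (M := R)).2 inferInstance S hS
  refine ⟨i, ⟨hiA, hii, ?_, ?_⟩, hie, hei, hβi⟩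
  · rintro rfl
    exact hβi (map_zero β)
  · -- primitivity
    have key : ∀ f ∈ A, f * f = f → f * i = f → i * f = f → f ≠ i → β f = 0 := by
      intro f hfA hff hfi hif hne
      by_contra hβf
      have hfe : f * e = f := by
        calc f * e = (f * i) * e := by rw [hfi]
          _ = f * (i * e) := by rw [mul_assoc]
          _ = f := by rw [hie, hfi]
      have hef : e * f = f := by
        calc e * f = e * (i * f) := by rw [hif]
          _ = (e * i) * f := by rw [mul_assoc]
          _ = f := by rw [hei, hif]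
      refine hmax _ ⟨f, hfA, hff, hfe, hef, hβf, rfl⟩ ?_
      rw [SetLike.lt_iff_le_and_exists]
      constructor
      · rintro _ ⟨x, rfl⟩
        refine ⟨(1 - i) * x, ?_⟩
        simp only [LinearMap.mulLeft_apply]
        have : (1 - f) * ((1 - i) * x) = (1 - i) * x - (f - f * i) * x := by noncomm_ring
        rw [this, hfi, sub_self, zero_mul, sub_zero]
      · refine ⟨i - f, ⟨i - f, ?_⟩, ?_⟩
        · simp only [LinearMap.mulLeft_apply]
          have : (1 - f) * (i - f) = i - f - (f * i - f * f) := by noncomm_ring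
          rw [this, hfi, hff, sub_self, sub_zero]
        · rintro ⟨x, hx⟩
          simp only [LinearMap.mulLeft_apply] at hx
          have h1 : i * (i - f) = 0 := by
            rw [← hx]
            have : i * ((1 - i) * x) = (i - i * i) * x := by noncomm_ring
            rw [this, hii, sub_self, zero_mul]
          rw [mul_sub, hii, hif] at h1
          exact hne (sub_eq_zero.1 h1).symm
    intro f hfA hff hfi hif
    by_contra hcon
    push Not at hcon
    obtain ⟨hf0, hfne⟩ := hcon
    have h1 := key f hfA hff hfi hif hfne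
    have h2 : β (i - f) = 0 := by
      apply key (i - f) (hA i hiA f hfA)
      · have : (i - f) * (i - f) = i * i - i * f - f * i + f * f := by noncomm_ring
        rw [this, hii, hif, hfi, hff]; abel
      · rw [sub_mul, hii, hfi]
      · rw [mul_sub, hii, hif]
      · intro h
        apply hf0
        have : f = i - (i - f) := by abel
        rw [this, h, sub_self]
    rw [map_sub, h1, sub_zero] at h2
    exact hβi h2

end Primitive

section StableBasis

variable {O : Type u} [CommRing O] [IsLocalRing O] {G : Type v} [Group G]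

lemma mem_sourceAlgebra_iff {i x : MonoidAlgebra O G} :
    x ∈ sourceAlgebra i ↔ ∃ y, x = i * (y * i) := by
  constructor
  · rintro ⟨y, rfl⟩
    exact ⟨y, rfl⟩
  · rintro ⟨y, rfl⟩
    exact ⟨y, rfl⟩

lemma mem_sourceAlgebra_iff' {i x : MonoidAlgebra O G} (hi : i * i = i) :
    x ∈ sourceAlgebra i ↔ i * x * i = x := by
  rw [mem_sourceAlgebra_iff]
  constructor
  · rintro ⟨y, rfl⟩
    calc i * (i * (y * i)) * i = (i * i) * y * (i * i) := by noncomm_ring
      _ = i * (y * i) := by rw [hi]; noncomm_ring
  · intro h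
    exact ⟨x, by rw [← mul_assoc]; exact h.symm⟩

/-- The two-sided action of `D × D` on `G`. -/
@[instance_reducible]
def twoSided (D : Subgroup G) : MulAction (D × D) G where
  smul u g := u.1.1 * g * u.2.1⁻¹
  one_smul g := by
    change (1 : G) * g * (1 : G)⁻¹ = g
    simp
  mul_smul u u' g := by
    change (u.1.1 * u'.1.1) * g * (u.2.1 * u'.2.1)⁻¹
      = u.1.1 * (u'.1.1 * g * u'.2.1⁻¹) * u.2.1⁻¹
    group

lemma isPGroup_prod {p : ℕ} {D : Subgroup G} (hD : IsPGroup p D) : IsPGroup p (D × D) := by
  intro x
  obtain ⟨a, ha⟩ := hD x.1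
  obtain ⟨b, hb⟩ := hD x.2
  refine ⟨a + b, ?_⟩
  ext
  · simp only [Prod.pow_fst, Prod.fst_one, OneMemClass.coe_one]
    rw [pow_add, pow_mul, ha, one_pow]; rfl
  · simp only [Prod.pow_snd, Prod.snd_one, OneMemClass.coe_one]
    rw [pow_add, mul_comm, pow_mul, hb, one_pow]; rfl

/-- Every `i OG i`, for an idempotent `i` of `(OG)^D`, has a `(D, D)`-stable basis. -/
theorem exists_stableBasis [Finite G] {p : ℕ} [Fact p.Prime] [CharP (ResidueField O) p]
    {D : Subgroup G} (hD : IsPGroup p D) {i : MonoidAlgebra O G} (hi : i ∈ fixedPoints O D)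
    (hii : i * i = i) : ∃ X : Set (MonoidAlgebra O G), IsStableBasis D i X := by
  classical
  have := Fintype.ofFinite G
  let act := twoSided D
  let N := sourceAlgebra i
  have hN : ∀ x : MonoidAlgebra O G, x ∈ N ↔ i * x * i = x := fun x =>
    mem_sourceAlgebra_iff' hii
  have hmem : ∀ (u v : G), u ∈ D → v ∈ D → ∀ x ∈ N, elt O u * x * elt O v ∈ N := by
    intro u v hu hv x hx
    rw [hN] at hx ⊢
    calc i * (elt O u * x * elt O v) * i = (i * elt O u) * x * (elt O v * i) := by noncomm_ring
      _ = (elt O u * i) * x * (i * elt O v) := by rw [hi u hu, hi v hv]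
      _ = elt O u * (i * x * i) * elt O v := by noncomm_ring
      _ = _ := by rw [hx]
  let ρ : (D × D) →* Module.End O N :=
    { toFun := fun u =>
        { toFun := fun x => ⟨elt O u.1.1 * x.1 * elt O u.2.1⁻¹,
            hmem _ _ u.1.2 (inv_mem u.2.2) x.1 x.2⟩
          map_add' := fun x y => Subtype.ext (by
            change elt O u.1.1 * (x.1 + y.1) * elt O u.2.1⁻¹ = _ + _
            rw [mul_add, add_mul])
          map_smul' := fun c x => Subtype.ext (by
            change elt O u.1.1 * (c • x.1) * elt O u.2.1⁻¹ = c • _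
            rw [mul_smul_comm, smul_mul_assoc]) }
      map_one' := by
        refine LinearMap.ext fun x => Subtype.ext ?_
        change (elt O (1 : G) * x.1 * elt O (1 : G)⁻¹) = x.1
        rw [inv_one]
        change (1 : MonoidAlgebra O G) * x.1 * 1 = x.1
        rw [one_mul, mul_one]
      map_mul' := fun u u' => by
        refine LinearMap.ext fun x => Subtype.ext ?_
        change elt O (u.1.1 * u'.1.1) * x.1 * elt O (u.2.1 * u'.2.1)⁻¹
          = elt O u.1.1 * (elt O u'.1.1 * x.1 * elt O u'.2.1⁻¹) * elt O u.2.1⁻¹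
        have h1 : elt O (u.1.1 * u'.1.1) = elt O u.1.1 * elt O u'.1.1 := by
          rw [MonoidAlgebra.single_mul_single, one_mul]
        have h2 : elt O (u.2.1 * u'.2.1)⁻¹ = elt O u'.2.1⁻¹ * elt O u.2.1⁻¹ := by
          rw [MonoidAlgebra.single_mul_single, one_mul, mul_inv_rev]
        rw [h1, h2]
        noncomm_ring }
  let s : N →ₗ[O] (G → O) :=
    { toFun := fun x g => x.1.coeff g
      map_add' := fun x y => rfl
      map_smul' := fun c x => rfl }
  let toA : (G → O) →ₗ[O] MonoidAlgebra O G :=
    { toFun := fun y => ∑ g, y g • elt O g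
      map_add' := fun x y => by
        rw [← Finset.sum_add_distrib]
        exact Finset.sum_congr rfl (fun g _ => by rw [Pi.add_apply, add_smul])
      map_smul' := fun c x => by
        rw [RingHom.id_apply, Finset.smul_sum]
        exact Finset.sum_congr rfl (fun g _ => by rw [Pi.smul_apply, smul_assoc]) }
  have htoA : ∀ x : MonoidAlgebra O G, toA (fun g => x.coeff g) = x := by
    intro x
    change ∑ g, x.coeff g • elt O g = x
    apply MonoidAlgebra.ext
    ext h
    rw [MonoidAlgebra.coeff_sum, Finsupp.finsetSum_apply]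
    simp [Finsupp.single_apply]
  let r : (G → O) →ₗ[O] N :=
    { toFun := fun y => ⟨i * (toA y * i), mem_sourceAlgebra_iff.2 ⟨_, rfl⟩⟩
      map_add' := fun x y => Subtype.ext (by
        change i * (toA (x + y) * i) = i * (toA x * i) + i * (toA y * i)
        rw [map_add, add_mul, mul_add])
      map_smul' := fun c x => Subtype.ext (by
        change i * (toA (c • x) * i) = c • (i * (toA x * i))
        rw [map_smul, smul_mul_assoc, mul_smul_comm]) }
  obtain ⟨κ, hκ, B, hB⟩ := exists_perm_basis (isPGroup_prod hD) _ G rfl N ρ s r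
    (by
      intro u x
      funext g
      change (elt O u.1.1 * x.1 * elt O u.2.1⁻¹).coeff g = x.1.coeff (u.1.1⁻¹ * g * u.2.1⁻¹⁻¹)
      simp only [MonoidAlgebra.coeff_single_mul_apply, MonoidAlgebra.coeff_mul_single_apply,
        one_mul, mul_one]
      congr 1
      group)
    (by
      intro u y
      apply Subtype.ext
      change i * (toA (fun g => y (u.1.1⁻¹ * g * u.2.1⁻¹⁻¹)) * i)
        = elt O u.1.1 * (i * (toA y * i)) * elt O u.2.1⁻¹
      have h1 : toA (fun g => y (u.1.1⁻¹ * g * u.2.1⁻¹⁻¹))
          = elt O u.1.1 * toA y * elt O u.2.1⁻¹ := by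
        change ∑ g, y (u.1.1⁻¹ * g * u.2.1⁻¹⁻¹) • elt O g
          = elt O u.1.1 * (∑ g, y g • elt O g) * elt O u.2.1⁻¹
        rw [Finset.mul_sum, Finset.sum_mul]
        refine Fintype.sum_equiv
          ((Equiv.mulLeft u.1.1⁻¹).trans (Equiv.mulRight u.2.1⁻¹⁻¹)) _ _ (fun g => ?_)
        simp only [Equiv.trans_apply, Equiv.coe_mulLeft, Equiv.coe_mulRight]
        rw [mul_smul_comm, smul_mul_assoc, MonoidAlgebra.single_mul_single,
          MonoidAlgebra.single_mul_single, one_mul, one_mul]
        congr 2
        group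
      rw [h1]
      calc i * (elt O u.1.1 * toA y * elt O u.2.1⁻¹ * i)
          = (i * elt O u.1.1) * toA y * (elt O u.2.1⁻¹ * i) := by noncomm_ring
        _ = (elt O u.1.1 * i) * toA y * (i * elt O u.2.1⁻¹) := by
            rw [hi _ u.1.2, hi _ (inv_mem u.2.2)]
        _ = _ := by noncomm_ring)
    (by
      intro x
      apply Subtype.ext
      change i * (toA (fun g => x.1.coeff g) * i) = x.1
      rw [htoA, ← mul_assoc]
      exact (hN x.1).1 x.2)
  refine ⟨Set.range (fun k => (B k : MonoidAlgebra O G)), ?_, ?_, ?_⟩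
  · -- linear independence
    have hinj : Function.Injective (fun k => (B k : MonoidAlgebra O G)) :=
      fun a b h => by
        by_cases hnt : Nontrivial O
        · exact B.injective (Subtype.ext h)
        · exact absurd (inferInstance : Nontrivial O) hnt
    have h1 : LinearIndependent O (fun k => (B k : MonoidAlgebra O G)) :=
      B.linearIndependent.map' N.subtype (Submodule.ker_subtype N)
    exact h1.linearIndepOn_id
  · -- span
    have h1 : Submodule.span O (Set.range B) = ⊤ := B.span_eq
    have h2 : Set.range (fun k => (B k : MonoidAlgebra O G)) = N.subtype '' (Set.range B) := by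
      rw [← Set.range_comp]; rfl
    rw [h2, Submodule.span_image, h1, Submodule.map_top, Submodule.range_subtype]
  · -- stability
    have hsub : ∀ u ∈ D, ∀ v ∈ D, ∀ x ∈ Set.range (fun k => (B k : MonoidAlgebra O G)),
        elt O u * x * elt O v ∈ Set.range (fun k => (B k : MonoidAlgebra O G)) := by
      rintro u hu v hv _ ⟨k, rfl⟩
      obtain ⟨k', hk'⟩ := hB (⟨u, hu⟩, ⟨v⁻¹, inv_mem hv⟩) k
      refine ⟨k', ?_⟩
      have h1 := congrArg Subtype.val hk'
      change elt O u * (B k).1 * elt O (v⁻¹)⁻¹ = (B k').1 at h1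
      rw [inv_inv] at h1
      exact h1.symm
    intro u hu v hv
    apply Set.Subset.antisymm
    · rintro _ ⟨x, hx, rfl⟩
      exact hsub u hu v hv x hx
    · intro x hx
      refine ⟨elt O u⁻¹ * x * elt O v⁻¹, hsub _ (inv_mem hu) _ (inv_mem hv) x hx, ?_⟩
      simp only
      calc elt O u * (elt O u⁻¹ * x * elt O v⁻¹) * elt O v
          = (elt O u * elt O u⁻¹) * x * (elt O v⁻¹ * elt O v) := by noncomm_ring
        _ = x := by
          rw [MonoidAlgebra.single_mul_single, MonoidAlgebra.single_mul_single, mul_inv_cancel,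
            inv_mul_cancel, one_mul]
          change (1 : MonoidAlgebra O G) * x * 1 = x
          rw [one_mul, mul_one]

end StableBasis

end Pool.Agent.BlockFusion
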