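import Pool.Agent.Lib_helper36.FixedCount

/-!
# A criterion for the failure of fusion-stability
-/

namespace Pool.Agent.BlockFusion

open IsLocalRing

universe u v

section Stab

variable {O : Type u} [CommRing O] [IsLocalRing O] {G : Type v} [Group G]

lemma elt_inv_mul_cancel_left {A : Type*} [CommRing A] (g : G) (a : MonoidAlgebra A G) :
    elt A g⁻¹ * (elt A g * a) = a := by
  rw [← mul_assoc, elt_mul_elt, inv_mul_cancel, elt_one, one_mul]

lemma elt_mul_inv_cancel_left {A : Type*} [CommRing A] (g : G) (a : MonoidAlgebra A G) :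
    elt A g * (elt A g⁻¹ * a) = a := by
  rw [← mul_assoc, elt_mul_elt, mul_inv_cancel, elt_one, one_mul]

lemma mul_elt_inv_cancel_right {A : Type*} [CommRing A] (g : G) (a : MonoidAlgebra A G) :
    a * elt A g * elt A g⁻¹ = a := by
  rw [mul_assoc, elt_mul_elt, mul_inv_cancel, elt_one, mul_one]

lemma mul_inv_elt_cancel_right {A : Type*} [CommRing A] (g : G) (a : MonoidAlgebra A G) :
    a * elt A g⁻¹ * elt A g = a := by
  rw [mul_assoc, elt_mul_elt, inv_mul_cancel, elt_one, mul_one]

/-- Fusion-stability forces equal numbers of fixed points. -/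
lemma ncard_eq_of_isFusionStable {p : ℕ} {D : Subgroup G} {eD : MonoidAlgebra (ResidueField O) G}
    {i : MonoidAlgebra O G} {X : Set (MonoidAlgebra O G)} (hX : IsStableBasis D i X)
    (hF : IsFusionStable p D eD X) {P : Subgroup G} {g : G} (hPD : P ≤ D)
    (hgP : conjSubgroup g P ≤ D) (hfus : IsFusionMorphism (O := O) p D eD P g) :
    Set.ncard {x | x ∈ X ∧ ∀ u ∈ P, elt O u * x = x * elt O u}
      = Set.ncard {x | x ∈ X ∧ ∀ u ∈ conjSubgroup g P, elt O u * x = x * elt O u} := by
  obtain ⟨⟨f, hf, hf'⟩, ⟨h, hh, hh'⟩⟩ := hF P g hPD hfus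
  have hmul : ∀ u ∈ D, ∀ w ∈ D, ∀ x ∈ X, elt O u * x * elt O w ∈ X := by
    intro u hu w hw x hx
    have := hX.2.2 u hu w hw
    rw [← this]
    exact ⟨x, hx, rfl⟩
  have hmemg : ∀ u ∈ P, g * u * g⁻¹ ∈ D := fun u hu => hgP ⟨u, hu, rfl⟩
  -- the set of twisted fixed points
  let T : Set (MonoidAlgebra O G) :=
    {x | x ∈ X ∧ ∀ u ∈ P, elt O (g * u * g⁻¹) * x = x * elt O u}
  have h1 : f '' T = {x | x ∈ X ∧ ∀ u ∈ P, elt O u * x = x * elt O u} := by
    apply Set.Subset.antisymm
    · rintro _ ⟨x, ⟨hx, hxT⟩, rfl⟩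
      refine ⟨hf.mapsTo hx, fun u hu => ?_⟩
      have h2 := hf' x hx u hu u⁻¹ (hPD (inv_mem hu))
      rw [hxT u hu, mul_elt_inv_cancel_right] at h2
      rw [h2, mul_inv_elt_cancel_right, ← h2]
    · rintro y ⟨hy, hyT⟩
      obtain ⟨x, hx, rfl⟩ := hf.surjOn hy
      refine ⟨x, ⟨hx, fun u hu => ?_⟩, rfl⟩
      have h2 := hf' x hx u hu u⁻¹ (hPD (inv_mem hu))
      rw [hyT u hu, mul_elt_inv_cancel_right] at h2
      have h3 := hf.injOn (hmul _ (hmemg u hu) _ (inv_mem (hPD hu)) x hx) hx h2
      rw [← h3, mul_inv_elt_cancel_right, h3]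
  have h2 : h '' {x | x ∈ X ∧ ∀ u ∈ conjSubgroup g P, elt O u * x = x * elt O u} = T := by
    apply Set.Subset.antisymm
    · rintro _ ⟨x, ⟨hx, hxT⟩, rfl⟩
      refine ⟨hh.mapsTo hx, fun u hu => ?_⟩
      have h2 := hh' x hx _ (hmemg u hu) u⁻¹ (inv_mem hu)
      have hxT' : elt O (g * u * g⁻¹) * x = x * elt O (g * u * g⁻¹) := hxT _ ⟨u, hu, rfl⟩
      rw [hxT', show g * u⁻¹ * g⁻¹ = (g * u * g⁻¹)⁻¹ by group,
        mul_elt_inv_cancel_right] at h2
      rw [h2, mul_inv_elt_cancel_right, ← h2]
    · rintro y ⟨hy, hyT⟩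
      obtain ⟨x, hx, rfl⟩ := hh.surjOn hy
      refine ⟨x, ⟨hx, ?_⟩, rfl⟩
      rintro _ ⟨u, hu, rfl⟩
      change elt O (g * u * g⁻¹) * x = x * elt O (g * u * g⁻¹)
      have h2 := hh' x hx _ (hmemg u hu) u⁻¹ (inv_mem hu)
      rw [hyT u hu, mul_elt_inv_cancel_right, show g * u⁻¹ * g⁻¹ = (g * u * g⁻¹)⁻¹ by group] at h2
      have h3 := hh.injOn (hmul _ (hmemg u hu) _ (inv_mem (hmemg u hu)) x hx) hx h2
      conv_rhs => rw [← h3]
      rw [mul_inv_elt_cancel_right]
  rw [← h1, (hf.injOn.mono (fun x hx => hx.1)).ncard_image, ← h2,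
    (hh.injOn.mono (fun x hx => hx.1)).ncard_image]

end Stab

section Criterion

variable {O : Type u} [CommRing O] [IsLocalRing O] {G : Type v} [Group G]

lemma brauerMap_elt_mul {P : Subgroup G} {u : G} (hu : u ∈ Subgroup.centralizer (P : Set G))
    (a : MonoidAlgebra O G) :
    brauerMap P (elt O u * a) = elt (ResidueField O) u * brauerMap P a := by
  classical
  apply MonoidAlgebra.ext
  ext g
  rw [MonoidAlgebra.coeff_single_mul_apply, one_mul, coeff_brauerMap, coeff_brauerMap,
    MonoidAlgebra.coeff_single_mul_apply, one_mul]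
  have h : u⁻¹ * g ∈ Subgroup.centralizer (P : Set G) ↔ g ∈ Subgroup.centralizer (P : Set G) :=
    (Subgroup.centralizer (P : Set G)).mul_mem_cancel_left (inv_mem hu)
  simp only [h]

lemma brauerMap_mul_elt {P : Subgroup G} {u : G} (hu : u ∈ Subgroup.centralizer (P : Set G))
    (a : MonoidAlgebra O G) :
    brauerMap P (a * elt O u) = brauerMap P a * elt (ResidueField O) u := by
  classical
  apply MonoidAlgebra.ext
  ext g
  rw [MonoidAlgebra.coeff_mul_single_apply, mul_one, coeff_brauerMap, coeff_brauerMap,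
    MonoidAlgebra.coeff_mul_single_apply, mul_one]
  have h : g * u⁻¹ ∈ Subgroup.centralizer (P : Set G) ↔ g ∈ Subgroup.centralizer (P : Set G) :=
    (Subgroup.centralizer (P : Set G)).mul_mem_cancel_right (inv_mem hu)
  simp only [h]

lemma brauerMap_eq_zero_of_le {P D : Subgroup G} (h : P ≤ D) {a : MonoidAlgebra O G}
    (ha : brauerMap P a = 0) : brauerMap D a = 0 := by
  apply MonoidAlgebra.ext
  ext g
  by_cases hg : g ∈ Subgroup.centralizer (D : Set G)
  · have hg' : g ∈ Subgroup.centralizer (P : Set G) :=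
      Subgroup.centralizer_le (fun x hx => h hx) hg
    rw [coeff_brauerMap_of_mem _ hg, ← coeff_brauerMap_of_mem _ hg', ha]
  · rw [coeff_brauerMap_of_notMem _ hg]
    simp

/-- An element supported on the centre of the group is central in the group algebra. -/
lemma commute_of_support {A : Type*} [CommRing A] [Finite G] {β : MonoidAlgebra A G}
    (hβ : ∀ g, β.coeff g ≠ 0 → g ∈ Subgroup.center G) (a : MonoidAlgebra A G) :
    β * a = a * β := by
  classical
  have := Fintype.ofFinite G
  rw [expand β, Finset.sum_mul, Finset.mul_sum]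
  refine Finset.sum_congr rfl (fun g _ => ?_)
  rw [smul_mul_assoc, mul_smul_comm]
  by_cases hg : β.coeff g = 0
  · rw [hg, zero_smul, zero_smul]
  · congr 1
    apply MonoidAlgebra.ext
    ext x
    rw [MonoidAlgebra.coeff_single_mul_apply, MonoidAlgebra.coeff_mul_single_apply, one_mul,
      mul_one]
    congr 1
    exact ((Subgroup.mem_center_iff.1 (inv_mem (hβ g hg))) x).symm

lemma brauerMap_of_support {β : MonoidAlgebra O G}
    (hβ : ∀ g, β.coeff g ≠ 0 → g ∈ Subgroup.center G) (P : Subgroup G) :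
    brauerMap P β = MonoidAlgebra.mapRingHom G (residue O) β := by
  apply MonoidAlgebra.ext
  ext g
  rw [MonoidAlgebra.coeff_mapRingHom]
  by_cases hg : g ∈ Subgroup.centralizer (P : Set G)
  · rw [coeff_brauerMap_of_mem _ hg]
  · rw [coeff_brauerMap_of_notMem _ hg]
    have : β.coeff g = 0 := by
      by_contra h
      exact hg (Subgroup.center_le_centralizer _ (hβ g h))
    rw [this, map_zero]

/-- Conjugation as a linear automorphism of the group algebra. -/
noncomputable def conjLin (A : Type*) [CommRing A] (g : G) :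
    MonoidAlgebra A G ≃ₗ[A] MonoidAlgebra A G where
  toFun x := elt A g * x * elt A g⁻¹
  invFun x := elt A g⁻¹ * x * elt A g
  map_add' x y := by rw [mul_add, add_mul]
  map_smul' c x := by rw [mul_smul_comm, smul_mul_assoc, RingHom.id_apply]
  left_inv x := by
    simp only
    rw [← mul_assoc, ← mul_assoc, elt_mul_elt, inv_mul_cancel, elt_one, one_mul,
      mul_inv_elt_cancel_right]
  right_inv x := by
    simp only
    rw [← mul_assoc, ← mul_assoc, elt_mul_elt, mul_inv_cancel, elt_one, one_mul,
      mul_elt_inv_cancel_right]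

lemma coeff_conj {A : Type*} [CommRing A] (g : G) (x : MonoidAlgebra A G) (h : G) :
    (elt A g * x * elt A g⁻¹).coeff h = x.coeff (g⁻¹ * h * g) := by
  rw [MonoidAlgebra.coeff_mul_single_apply, mul_one, MonoidAlgebra.coeff_single_mul_apply, one_mul,
    inv_inv]
  congr 1
  group

lemma mem_centralizer_conj {P : Subgroup G} {g h : G} :
    h ∈ Subgroup.centralizer (conjSubgroup g P : Set G)
      ↔ g⁻¹ * h * g ∈ Subgroup.centralizer (P : Set G) := by
  rw [Subgroup.mem_centralizer_iff, Subgroup.mem_centralizer_iff]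
  constructor
  · intro H u hu
    have h1 : g * u * g⁻¹ * h = h * (g * u * g⁻¹) := H _ ⟨u, hu, rfl⟩
    calc u * (g⁻¹ * h * g) = g⁻¹ * (g * u * g⁻¹ * h) * g := by group
      _ = g⁻¹ * (h * (g * u * g⁻¹)) * g := by rw [h1]
      _ = _ := by group
  · rintro H _ ⟨u, hu, rfl⟩
    change g * u * g⁻¹ * h = h * (g * u * g⁻¹)
    have h1 := H u hu
    calc g * u * g⁻¹ * h = g * (u * (g⁻¹ * h * g)) * g⁻¹ := by group
      _ = g * ((g⁻¹ * h * g) * u) * g⁻¹ := by rw [h1]
      _ = _ := by group

lemma mem_centralizerAlgebra_conj {A : Type*} [CommRing A] {P : Subgroup G} {g : G}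
    {x : MonoidAlgebra A G} :
    elt A g * x * elt A g⁻¹ ∈ centralizerAlgebra A (conjSubgroup g P)
      ↔ x ∈ centralizerAlgebra A P := by
  constructor
  · intro H h hh
    have h1 := H (g * h * g⁻¹) (by
      rw [coeff_conj]
      rwa [show g⁻¹ * (g * h * g⁻¹) * g = h by group])
    rw [mem_centralizer_conj] at h1
    rwa [show g⁻¹ * (g * h * g⁻¹) * g = h by group] at h1
  · intro H h hh
    rw [coeff_conj] at hh
    rw [mem_centralizer_conj]
    exact H _ hh

/-- The criterion. -/
theorem not_isFusionStable_of_data [IsNoetherianRing O] [Finite G] {p : ℕ} [Fact p.Prime]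
    [CharP (ResidueField O) p] {D : Subgroup G} (hD : IsPGroup p D)
    (hDmax : ∀ Q : Subgroup G, D ≤ Q → IsPGroup p Q → Q = D)
    {β e : MonoidAlgebra O G} (hβ : ∀ g, β.coeff g ≠ 0 → g ∈ Subgroup.center G)
    (hββ : β * β = β) (he : e ∈ fixedPoints O D) (hee : e * e = e) (heβ : e * β = e)
    {z g : G} (hz : z ∈ D) (hDz : ∀ u ∈ D, u * z = z * u) (hs : g * z * g⁻¹ ∈ D)
    (h1 : brauerMap D e ≠ 0)
    (h2 : ∀ f ∈ centralizerAlgebra (ResidueField O) (Subgroup.zpowers z), f * f = f →
      (∀ u ∈ D, elt (ResidueField O) u * f = f * elt (ResidueField O) u) →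
      f * MonoidAlgebra.mapRingHom G (residue O) β = f →
      f = 0 ∨ f = MonoidAlgebra.mapRingHom G (residue O) β)
    (h3 : brauerMap (Subgroup.zpowers (g * z * g⁻¹)) e
      ≠ MonoidAlgebra.mapRingHom G (residue O) β) :
    ∃ b i : MonoidAlgebra O G, IsBlock b ∧ IsDefectGroup p b D ∧ IsSourceIdempotent b D i ∧
      (∃ X : Set (MonoidAlgebra O G), IsStableBasis D i X) ∧
      (∃ eD : MonoidAlgebra (ResidueField O) G, IsBrauerPair p D eD ∧ brauerMap D i * eD ≠ 0) ∧
      ∀ eD : MonoidAlgebra (ResidueField O) G, IsBrauerPair p D eD → brauerMap D i * eD ≠ 0 →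
        ∀ X : Set (MonoidAlgebra O G), IsStableBasis D i X → ¬ IsFusionStable p D eD X := by
  classical
  have := Fintype.ofFinite G
  set βk := MonoidAlgebra.mapRingHom G (residue O) β with hβk
  have hβc : ∀ a, β * a = a * β := commute_of_support hβ
  have hβks : ∀ g, βk.coeff g ≠ 0 → g ∈ Subgroup.center G := by
    intro g hg
    apply hβ
    intro h
    apply hg
    rw [hβk, MonoidAlgebra.coeff_mapRingHom, h, map_zero]
  have hβkc : ∀ a, βk * a = a * βk := commute_of_support hβks
  have hBrβ : ∀ P : Subgroup G, brauerMap P β = βk := brauerMap_of_support hβ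
  have hβfix : ∀ P : Subgroup G, β ∈ fixedPoints O P := fun P u _ => (hβc _).symm
  have hβkβk : βk * βk = βk := by rw [hβk, ← map_mul, hββ]
  have hcfix : ∀ (P : Subgroup G) (a : MonoidAlgebra O G),
      a ∈ Subring.center (MonoidAlgebra O G) → a ∈ fixedPoints O P := by
    intro P a ha u _
    exact Subring.mem_center_iff.1 ha _
  have hmulfix : ∀ (P : Subgroup G) (a b : MonoidAlgebra O G), a ∈ fixedPoints O P →
      b ∈ fixedPoints O P → a * b ∈ fixedPoints O P := by
    intro P a b ha hb u hu
    rw [← mul_assoc, ha u hu, mul_assoc, hb u hu, ← mul_assoc]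
  have hsubfix : ∀ (P : Subgroup G) (a b : MonoidAlgebra O G), a ∈ fixedPoints O P →
      b ∈ fixedPoints O P → a - b ∈ fixedPoints O P := by
    intro P a b ha hb u hu
    rw [mul_sub, sub_mul, ha u hu, hb u hu]
  have hNoeth : IsNoetherian O (MonoidAlgebra O G) := by
    have hfin : Module.Finite O (MonoidAlgebra O G) := inferInstance
    exact isNoetherian_of_isNoetherianRing_of_finite O _
  -- the block
  have hβcen : β ∈ Subring.center (MonoidAlgebra O G) := by
    rw [Subring.mem_center_iff]
    intro a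
    exact (hβc a).symm
  obtain ⟨b, hb, hbβ, hβb, hbBr⟩ := exists_primitive_below (O := O)
    (Subring.center (MonoidAlgebra O G) : Set (MonoidAlgebra O G))
    (fun x hx y hy => sub_mem hx hy)
    ((brauerHom D).comp (AddMonoidHom.mulLeft e)) hβcen hββ
    (by
      change brauerMap D (e * β) ≠ 0
      rwa [heβ])
  change brauerMap D (e * b) ≠ 0 at hbBr
  have hbc : ∀ a, a * b = b * a := Subring.mem_center_iff.1 hb.1
  have hbb : b * b = b := hb.2.1
  have hbfix : b ∈ fixedPoints O D := hcfix D b hb.1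
  have hbD : brauerMap D b ≠ 0 := by
    intro h
    apply hbBr
    rw [brauerMap_mul hD he hbfix, h, mul_zero]
  have hdef : IsDefectGroup p b D := ⟨hD, hbD, fun Q hDQ hQ _ => hDmax Q hDQ hQ⟩
  -- the source idempotent
  have hebA : e * b ∈ {a | a ∈ fixedPoints O D ∧ a * b = a} :=
    ⟨hmulfix D e b he hbfix, by rw [mul_assoc, hbb]⟩
  have hebeb : (e * b) * (e * b) = e * b := by
    calc (e * b) * (e * b) = e * (b * e) * b := by noncomm_ring
      _ = (e * e) * (b * b) := by rw [← hbc e]; noncomm_ring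
      _ = e * b := by rw [hee, hbb]
  obtain ⟨i, hi, hieb, hebi, hiBr⟩ := exists_primitive_below (O := O)
    {a | a ∈ fixedPoints O D ∧ a * b = a}
    (fun x hx y hy => ⟨hsubfix D x y hx.1 hy.1, by rw [sub_mul, hx.2, hy.2]⟩)
    (brauerHom D) hebA hebeb hbBr
  change brauerMap D i ≠ 0 at hiBr
  have hiD : i ∈ fixedPoints O D := hi.1.1
  have hib : i * b = i := hi.1.2
  have hii : i * i = i := hi.2.1
  have hei : e * i = i := by
    calc e * i = e * ((e * b) * i) := by rw [hebi]
      _ = (e * e) * b * i := by noncomm_ring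
      _ = i := by rw [hee, hebi]
  have hβi : β * i = i := by
    calc β * i = β * (e * i) := by rw [hei]
      _ = (β * e) * i := by noncomm_ring
      _ = i := by rw [hβc e, heβ, hei]
  have hiβ : i * β = i := by rw [← hβc, hβi]
  have hisrc : IsSourceIdempotent b D i := ⟨hi, hiBr⟩
  have hiprim : IsPrimitiveIdempotent (fixedPoints O D) i := by
    refine ⟨hiD, hii, hi.2.2.1, fun f hf hff hfi hif => hi.2.2.2 f ⟨hf, ?_⟩ hff hfi hif⟩
    calc f * b = (f * i) * b := by rw [hfi]
      _ = f * (i * b) := by rw [mul_assoc]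
      _ = f := by rw [hib, hfi]
  refine ⟨b, i, hb, hdef, hisrc, exists_stableBasis hD hiD hii, ?_, ?_⟩
  · -- existence of eD
    have h1mem : (1 : MonoidAlgebra (ResidueField O) G)
        ∈ centreOfCentralizerAlgebra (ResidueField O) D := by
      refine ⟨?_, fun c _ => by rw [one_mul, mul_one]⟩
      intro g hg
      have : g = 1 := by
        by_contra hne
        apply hg
        rw [MonoidAlgebra.one_def]
        simp [Ne.symm hne]
      rw [this]
      exact one_mem _
    have hNoeth' : IsNoetherian (ResidueField O) (MonoidAlgebra (ResidueField O) G) := by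
      have hfin : Module.Finite (ResidueField O) (MonoidAlgebra (ResidueField O) G) := inferInstance
      exact isNoetherian_of_isNoetherianRing_of_finite _ _
    obtain ⟨eD, heD, -, -, heD'⟩ := exists_primitive_below (O := ResidueField O)
      (centreOfCentralizerAlgebra (ResidueField O) D)
      (fun x hx y hy => ⟨fun g hg => by
          by_contra hcon
          apply hg
          rw [MonoidAlgebra.coeff_sub, Finsupp.sub_apply, not_not.1 (fun h => hcon (hx.1 g h)),
            not_not.1 (fun h => hcon (hy.1 g h)), sub_zero],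
        fun c hc => by rw [sub_mul, mul_sub, hx.2 c hc, hy.2 c hc]⟩)
      (AddMonoidHom.mulLeft (brauerMap D i)) h1mem (one_mul 1)
      (by
        change brauerMap D i * 1 ≠ 0
        rwa [mul_one])
    exact ⟨eD, ⟨hD, heD⟩, heD'⟩
  -- failure of stability
  intro eD heD heDi X hX hstab
  set P := Subgroup.zpowers z with hPdef
  have hPD : P ≤ D := by rw [hPdef, Subgroup.zpowers_le]; exact hz
  have hgP : conjSubgroup g P = Subgroup.zpowers (g * z * g⁻¹) := by
    rw [hPdef, conjSubgroup, MonoidHom.map_zpowers]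
    rfl
  have hgPD : conjSubgroup g P ≤ D := by
    rw [hgP, Subgroup.zpowers_le]; exact hs
  have hPp : IsPGroup p P := hD.to_le hPD
  have hgPp : IsPGroup p (conjSubgroup g P) := hD.to_le hgPD
  have hDP : ∀ u ∈ D, u ∈ Subgroup.centralizer (P : Set G) := by
    intro u hu
    rw [Subgroup.mem_centralizer_iff]
    rintro _ ⟨n, rfl⟩
    exact (Commute.zpow_right (hDz u hu) n).symm
  have hiP : i ∈ fixedPoints O P := fixedPoints_mono hPD hiD
  have higP : i ∈ fixedPoints O (conjSubgroup g P) := fixedPoints_mono hgPD hiD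
  have hegP : e ∈ fixedPoints O (conjSubgroup g P) := fixedPoints_mono hgPD he
  have hβk0 : βk ≠ 0 := by
    intro h
    apply h1
    rw [← heβ, brauerMap_mul hD he (hβfix D), hBrβ, h, mul_zero]
  -- the Brauer quotient of i at z
  have hiz0 : brauerMap P i ≠ 0 := fun h => hiBr (brauerMap_eq_zero_of_le hPD h)
  have higz0 : brauerMap (conjSubgroup g P) i ≠ 0 := fun h =>
    hiBr (brauerMap_eq_zero_of_le hgPD h)
  have hizβ : brauerMap P i * βk = brauerMap P i := by
    rw [← hBrβ P, ← brauerMap_mul hPp hiP (hβfix P), hiβ]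
  have higzβ : brauerMap (conjSubgroup g P) i * βk = brauerMap (conjSubgroup g P) i := by
    rw [← hBrβ (conjSubgroup g P), ← brauerMap_mul hgPp higP (hβfix _), hiβ]
  have hiz : brauerMap P i = βk := by
    have h4 := h2 (brauerMap P i) (brauerMap_mem _ _)
      (by rw [← brauerMap_mul hPp hiP hiP, hii])
      (fun u hu => by
        rw [← brauerMap_elt_mul (hDP u hu), ← brauerMap_mul_elt (hDP u hu), hiD u hu]) hizβ
    exact h4.resolve_left hiz0
  have hηη : brauerMap (conjSubgroup g P) i * brauerMap (conjSubgroup g P) i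
      = brauerMap (conjSubgroup g P) i := by
    rw [← brauerMap_mul hgPp higP higP, hii]
  have hηne : brauerMap (conjSubgroup g P) i ≠ βk := by
    intro h
    apply h3
    rw [← hgP]
    have h4 : brauerMap (conjSubgroup g P) e * βk = brauerMap (conjSubgroup g P) e := by
      rw [← hBrβ (conjSubgroup g P), ← brauerMap_mul hgPp hegP (hβfix _), heβ]
    have h5 : brauerMap (conjSubgroup g P) e * brauerMap (conjSubgroup g P) i
        = brauerMap (conjSubgroup g P) i := by
      rw [← brauerMap_mul hgPp hegP higP, hei]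
    rw [h, h4] at h5
    exact h5
  -- fusion morphism
  have hconjβ : conjElt g βk = βk := by
    unfold conjElt
    rw [← hβkc, mul_assoc, elt_mul_elt, mul_inv_cancel, elt_one, mul_one]
  have hβkP : ∀ Q : Subgroup G, βk ∈ centreOfCentralizerAlgebra (ResidueField O) Q := fun Q =>
    ⟨fun g hg => Subgroup.center_le_centralizer _ (hβks g hg), fun c _ => hβkc c⟩
  have hblockP : IsBlockOfCentralizer P βk := by
    refine ⟨hβkP P, hβkβk, hβk0, ?_⟩
    intro f hf hff hfβ _
    refine h2 f hf.1 hff (fun u hu => ?_) hfβ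
    refine (hf.2 _ ?_).symm
    intro x hx
    have : x = u := by
      by_contra hne
      apply hx
      simp [Ne.symm hne]
    rw [this]
    exact hDP u hu
  have hblockgP : IsBlockOfCentralizer (conjSubgroup g P) βk := by
    refine ⟨hβkP _, hβkβk, hβk0, ?_⟩
    intro f hf hff hfβ hβf
    have hcancel : ∀ x : MonoidAlgebra (ResidueField O) G,
        elt (ResidueField O) g * (elt (ResidueField O) g⁻¹ * x * elt (ResidueField O) g)
          * elt (ResidueField O) g⁻¹ = x := by
      intro x
      rw [← mul_assoc, ← mul_assoc, elt_mul_elt, mul_inv_cancel, elt_one, one_mul,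
        mul_elt_inv_cancel_right]
    have hcancel' : ∀ x : MonoidAlgebra (ResidueField O) G,
        elt (ResidueField O) g⁻¹ * (elt (ResidueField O) g * x * elt (ResidueField O) g⁻¹)
          * elt (ResidueField O) g = x := by
      intro x
      rw [← mul_assoc, ← mul_assoc, elt_mul_elt, inv_mul_cancel, elt_one, one_mul,
        mul_inv_elt_cancel_right]
    have hmulc : ∀ x y : MonoidAlgebra (ResidueField O) G,
        (elt (ResidueField O) g⁻¹ * x * elt (ResidueField O) g)
          * (elt (ResidueField O) g⁻¹ * y * elt (ResidueField O) g)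
          = elt (ResidueField O) g⁻¹ * (x * y) * elt (ResidueField O) g := by
      intro x y
      calc (elt (ResidueField O) g⁻¹ * x * elt (ResidueField O) g)
          * (elt (ResidueField O) g⁻¹ * y * elt (ResidueField O) g)
          = elt (ResidueField O) g⁻¹ * x * (elt (ResidueField O) g * elt (ResidueField O) g⁻¹)
            * y * elt (ResidueField O) g := by noncomm_ring
        _ = _ := by
          rw [elt_mul_elt, mul_inv_cancel, elt_one]; noncomm_ring
    set f' := elt (ResidueField O) g⁻¹ * f * elt (ResidueField O) g with hf'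
    have hf'C : f' ∈ centralizerAlgebra (ResidueField O) P := by
      rw [← mem_centralizerAlgebra_conj (g := g), hf', hcancel]
      exact hf.1
    have hf'c : ∀ c ∈ centralizerAlgebra (ResidueField O) P, f' * c = c * f' := by
      intro c hc
      have h4 := hf.2 _ ((mem_centralizerAlgebra_conj (g := g)).2 hc)
      rw [← hcancel' c, hf', hmulc, hmulc, h4]
    have h5 := h2 f' hf'C (by rw [hf', hmulc, hff]) (fun u hu => by
        refine (hf'c _ ?_).symm
        intro x hx
        have : x = u := by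
          by_contra hne
          apply hx
          simp [Ne.symm hne]
        rw [this]
        exact hDP u hu)
      (by
        rw [← hβkc, hf', ← mul_assoc, ← mul_assoc, hβkc (elt _ g⁻¹), mul_assoc (elt _ g⁻¹), hβf])
    rcases h5 with h5 | h5
    · left
      rw [← hcancel f, ← hf', h5, mul_zero, zero_mul]
    · right
      rw [← hcancel f, ← hf', h5]
      exact hconjβ
  have hfus : IsFusionMorphism (O := O) p D eD P g := by
    refine ⟨βk, ⟨hPp, hblockP⟩, ⟨hPD, i, hiprim, heDi, ?_⟩, ?_, ?_⟩
    · rw [hizβ]; exact hiz0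
    · rw [hconjβ]; exact ⟨hgPp, hblockgP⟩
    · rw [hconjβ]
      exact ⟨hgPD, i, hiprim, heDi, by rw [higzβ]; exact higz0⟩
  have hcount := ncard_eq_of_isFusionStable hX hstab hPD hgPD hfus
  rw [ncard_fixed_eq_finrank hPp hPD hiD hii hX, ncard_fixed_eq_finrank hgPp hgPD hiD hii hX,
    hiz] at hcount
  -- conjugation
  have hmap : Submodule.map (conjLin (ResidueField O) g).toLinearMap (cutSpace P βk)
      = cutSpace (conjSubgroup g P) βk := by
    ext c
    constructor
    · rintro ⟨x, ⟨hx, hx'⟩, rfl⟩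
      refine ⟨mem_centralizerAlgebra_conj.2 hx, ?_⟩
      change βk * (elt _ g * x * elt _ g⁻¹) * βk = elt _ g * x * elt _ g⁻¹
      conv_rhs => rw [← hx']
      rw [mul_assoc βk, mul_assoc (elt _ g * x), ← hβkc (elt _ g⁻¹), ← mul_assoc (elt _ g * x),
        ← mul_assoc βk, ← mul_assoc βk, ← mul_assoc βk, hβkc (elt _ g)]
      noncomm_ring
    · rintro ⟨hx, hx'⟩
      refine ⟨elt _ g⁻¹ * c * elt _ g, ⟨?_, ?_⟩, ?_⟩
      · rw [← mem_centralizerAlgebra_conj (g := g)]
        rw [← mul_assoc, ← mul_assoc, elt_mul_elt, mul_inv_cancel, elt_one, one_mul,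
          mul_elt_inv_cancel_right]
        exact hx
      · conv_rhs => rw [← hx']
        rw [mul_assoc βk, mul_assoc (elt _ g⁻¹ * c), ← hβkc (elt _ g), ← mul_assoc (elt _ g⁻¹ * c),
          ← mul_assoc βk, ← mul_assoc βk, ← mul_assoc βk, hβkc (elt _ g⁻¹)]
        noncomm_ring
      · change elt _ g * (elt _ g⁻¹ * c * elt _ g) * elt _ g⁻¹ = c
        rw [← mul_assoc, ← mul_assoc, elt_mul_elt, mul_inv_cancel, elt_one, one_mul,
          mul_elt_inv_cancel_right]
  have hfinrank : Module.finrank (ResidueField O) (cutSpace P βk)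
      = Module.finrank (ResidueField O) (cutSpace (conjSubgroup g P) βk) := by
    rw [← hmap]
    exact (LinearEquiv.finrank_map_eq (conjLin (ResidueField O) g) _).symm
  have hlt : cutSpace (conjSubgroup g P) (brauerMap (conjSubgroup g P) i)
      < cutSpace (conjSubgroup g P) βk := by
    rw [SetLike.lt_iff_le_and_exists]
    constructor
    · rintro c ⟨hc, hc'⟩
      refine ⟨hc, ?_⟩
      calc βk * c * βk = βk * (brauerMap (conjSubgroup g P) i * c
            * brauerMap (conjSubgroup g P) i) * βk := by rw [hc']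
        _ = (βk * brauerMap (conjSubgroup g P) i) * c
            * (brauerMap (conjSubgroup g P) i * βk) := by noncomm_ring
        _ = c := by rw [hβkc, higzβ, hc']
    · refine ⟨βk, ⟨(hβkP _).1, by rw [hβkβk, hβkβk]⟩, ?_⟩
      rintro ⟨-, h4⟩
      apply hηne
      rw [higzβ, hηη] at h4
      exact h4
  have hfd : Module.Finite (ResidueField O) (MonoidAlgebra (ResidueField O) G) := inferInstance
  have hlt' := Submodule.finrank_lt_finrank_of_lt hlt
  rw [← hcount, hfinrank] at hlt'
  exact lt_irrefl _ hlt'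

end Criterion

end Pool.Agent.BlockFusion
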