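import Pool.Agent.Lib_helper36.BlockLemmas

/-!
# Fixed points of a `p`-subgroup on a stable basis

If `X` is a `(D, D)`-stable basis of `i OG i` and `P ≤ D`, then the number of elements of `X`
commuting with `P` is the dimension of `Br_P(i) k C_G(P) Br_P(i)`.
-/

namespace Pool.Agent.BlockFusion

open IsLocalRing

universe u v

section Cut

variable {k : Type u} [CommRing k] {G : Type v} [Group G]

/-- The elements `c` of `k C_G(P)` with `η c η = c`. -/
def cutSpace (P : Subgroup G) (η : MonoidAlgebra k G) : Submodule k (MonoidAlgebra k G) where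
  carrier := {c | c ∈ centralizerAlgebra k P ∧ η * c * η = c}
  zero_mem' := ⟨fun g hg => absurd rfl hg, by rw [mul_zero, zero_mul]⟩
  add_mem' := by
    rintro a b ⟨ha, ha'⟩ ⟨hb, hb'⟩
    refine ⟨fun g hg => ?_, by rw [mul_add, add_mul, ha', hb']⟩
    by_contra hcon
    apply hg
    rw [MonoidAlgebra.coeff_add, Finsupp.add_apply, not_not.1 (fun h => hcon (ha g h)),
      not_not.1 (fun h => hcon (hb g h)), add_zero]
  smul_mem' := by
    rintro c a ⟨ha, ha'⟩
    refine ⟨fun g hg => ?_, by rw [mul_smul_comm, smul_mul_assoc, ha']⟩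
    by_contra hcon
    apply hg
    rw [MonoidAlgebra.coeff_smul, Finsupp.smul_apply, not_not.1 (fun h => hcon (ha g h)),
      smul_zero]

lemma mem_cutSpace {P : Subgroup G} {η c : MonoidAlgebra k G} :
    c ∈ cutSpace P η ↔ c ∈ centralizerAlgebra k P ∧ η * c * η = c := Iff.rfl

end Cut

section Count

variable {O : Type u} [CommRing O] [IsLocalRing O] {G : Type v} [Group G]

lemma brauerMap_smul (P : Subgroup G) (c : O) (a : MonoidAlgebra O G) :
    brauerMap P (c • a) = residue O c • brauerMap P a := by
  classical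
  apply MonoidAlgebra.ext
  ext g
  simp only [MonoidAlgebra.coeff_smul, Finsupp.smul_apply, coeff_brauerMap, smul_eq_mul, map_mul]
  split_ifs <;> simp

lemma brauerMap_sum (P : Subgroup G) {ι : Type*} (s : Finset ι) (f : ι → MonoidAlgebra O G) :
    brauerMap P (∑ j ∈ s, f j) = ∑ j ∈ s, brauerMap P (f j) :=
  map_sum (brauerHom P) f s

lemma fixedPoints_mono {P D : Subgroup G} (h : P ≤ D) {a : MonoidAlgebra O G}
    (ha : a ∈ fixedPoints O D) : a ∈ fixedPoints O P := fun x hx => ha x (h hx)

lemma elt_mul_elt (A : Type*) [CommRing A] (g h : G) : elt A g * elt A h = elt A (g * h) := by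
  rw [MonoidAlgebra.single_mul_single, one_mul]

lemma elt_one (A : Type*) [CommRing A] : elt A (1 : G) = 1 := rfl

lemma expand {A : Type*} [CommRing A] [Fintype G] (y : MonoidAlgebra A G) :
    y = ∑ g, y.coeff g • elt A g := by
  classical
  apply MonoidAlgebra.ext
  ext h
  rw [MonoidAlgebra.coeff_sum, Finsupp.finsetSum_apply]
  simp [Finsupp.single_apply]

/-- Elements of `k C_G(P)` lift to `(OG)^P`. -/
lemma exists_lift_centralizer (P : Subgroup G) {c : MonoidAlgebra (ResidueField O) G}
    (hc : c ∈ centralizerAlgebra (ResidueField O) P) :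
    ∃ c' : MonoidAlgebra O G, c' ∈ fixedPoints O P ∧ brauerMap P c' = c := by
  classical
  obtain ⟨σ, hσ0, hσ⟩ : ∃ σ : ResidueField O → O, σ 0 = 0 ∧ ∀ x, residue O (σ x) = x := by
    refine ⟨fun x => if x = 0 then 0 else Function.surjInv residue_surjective x, by simp, ?_⟩
    intro x
    by_cases hx : x = 0
    · simp [hx]
    · simp only [hx, if_false]
      exact Function.surjInv_eq _ x
  let c' : MonoidAlgebra O G := MonoidAlgebra.ofCoeff (c.coeff.mapRange σ hσ0)
  have hc' : ∀ g, c'.coeff g = σ (c.coeff g) := by
    intro g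
    simp [c']
  refine ⟨c', ?_, ?_⟩
  · rw [mem_fixedPoints_iff]
    intro u hu g
    by_cases hg : g ∈ Subgroup.centralizer (P : Set G)
    · rw [centralizer_conj_mem hg hu, mul_inv_cancel_right]
    · have h1 : c.coeff g = 0 := not_not.1 (fun h => hg (hc g h))
      have h2 : c.coeff (u * g * u⁻¹) = 0 := by
        refine not_not.1 (fun h => hg ?_)
        have h3 := hc _ h
        rw [Subgroup.mem_centralizer_iff] at h3 ⊢
        intro w hw
        have h4 := h3 (u * w * u⁻¹) (P.mul_mem (P.mul_mem hu hw) (P.inv_mem hu))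
        have h5 : u * (w * g) * u⁻¹ = u * (g * w) * u⁻¹ := by
          calc u * (w * g) * u⁻¹ = u * w * u⁻¹ * (u * g * u⁻¹) := by group
            _ = u * g * u⁻¹ * (u * w * u⁻¹) := h4
            _ = _ := by group
        exact mul_left_cancel (mul_right_cancel h5)
      rw [hc', hc', h1, h2]
  · apply MonoidAlgebra.ext
    ext g
    by_cases hg : g ∈ Subgroup.centralizer (P : Set G)
    · rw [coeff_brauerMap_of_mem _ hg, hc', hσ]
    · rw [coeff_brauerMap_of_notMem _ hg]
      exact (not_not.1 (fun h => hg (hc g h))).symm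

theorem ncard_fixed_eq_finrank [Finite G] {p : ℕ} [Fact p.Prime] [CharP (ResidueField O) p]
    {D P : Subgroup G} (hP : IsPGroup p P) (hPD : P ≤ D) {i : MonoidAlgebra O G}
    (hi : i ∈ fixedPoints O D) (hii : i * i = i) {X : Set (MonoidAlgebra O G)}
    (hX : IsStableBasis D i X) :
    Set.ncard {x | x ∈ X ∧ ∀ u ∈ P, elt O u * x = x * elt O u}
      = Module.finrank (ResidueField O) (cutSpace P (brauerMap P i)) := by
  classical
  have := Fintype.ofFinite G
  obtain ⟨hXli, hXsp, hXst⟩ := hX
  have hN : ∀ x : MonoidAlgebra O G, x ∈ sourceAlgebra i ↔ i * x * i = x := fun x =>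
    mem_sourceAlgebra_iff' hii
  have hiP : i ∈ fixedPoints O P := fixedPoints_mono hPD hi
  have hXN : ∀ x ∈ X, x ∈ sourceAlgebra i := fun x hx => hXsp ▸ Submodule.subset_span hx
  let v : X → sourceAlgebra i := fun x => ⟨x.1, hXN x.1 x.2⟩
  have hli : LinearIndependent O v := LinearIndependent.of_comp (sourceAlgebra i).subtype hXli
  have hsp : ⊤ ≤ Submodule.span O (Set.range v) := by
    rintro ⟨y, hy⟩ -
    have h1 : (sourceAlgebra i).subtype '' (Set.range v) = X := by
      ext x
      constructor
      · rintro ⟨_, ⟨x, rfl⟩, rfl⟩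
        exact x.2
      · intro hx
        exact ⟨_, ⟨⟨x, hx⟩, rfl⟩, rfl⟩
    have h2 : Submodule.map (sourceAlgebra i).subtype (Submodule.span O (Set.range v))
        = sourceAlgebra i := by
      rw [Submodule.map_span, h1, hXsp]
    have h3 : y ∈ Submodule.map (sourceAlgebra i).subtype (Submodule.span O (Set.range v)) := by
      rw [h2]; exact hy
    obtain ⟨z, hz, hzy⟩ := h3
    have : z = ⟨y, hy⟩ := Subtype.ext hzy
    rwa [← this]
  let B := Module.Basis.mk hli hsp
  have hB : ∀ x : X, (B x : MonoidAlgebra O G) = x.1 := by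
    intro x
    rw [Module.Basis.mk_apply]
  have finN : Module.Finite O (sourceAlgebra i) := Module.Finite.range _
  have finX : Finite X := Module.Finite.finite_basis B
  have finX' : Fintype X := Fintype.ofFinite X
  -- the conjugation action of P on X
  have hmul : ∀ u ∈ D, ∀ w ∈ D, ∀ x ∈ X, elt O u * x * elt O w ∈ X := by
    intro u hu w hw x hx
    have := hXst u hu w hw
    rw [← this]
    exact ⟨x, hx, rfl⟩
  let act : MulAction P X :=
    { smul := fun u x => ⟨elt O u.1 * x.1 * elt O u.1⁻¹,
        hmul _ (hPD u.2) _ (inv_mem (hPD u.2)) x.1 x.2⟩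
      one_smul := fun x => Subtype.ext (by
        change elt O (1 : G) * x.1 * elt O (1 : G)⁻¹ = x.1
        rw [inv_one, elt_one, one_mul, mul_one])
      mul_smul := fun u w x => Subtype.ext (by
        change elt O (u.1 * w.1) * x.1 * elt O (u.1 * w.1)⁻¹
          = elt O u.1 * (elt O w.1 * x.1 * elt O w.1⁻¹) * elt O u.1⁻¹
        rw [mul_inv_rev, ← elt_mul_elt, ← elt_mul_elt]
        noncomm_ring) }
  have hact : ∀ (u : P) (x : X), (u • x : X).1 = elt O u.1 * x.1 * elt O u.1⁻¹ := fun u x => rfl
  -- conjugation on the source algebra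
  have hcN : ∀ (u : P) (y : MonoidAlgebra O G), y ∈ sourceAlgebra i →
      elt O u.1 * y * elt O u.1⁻¹ ∈ sourceAlgebra i := by
    intro u y hy
    rw [hN] at hy ⊢
    calc i * (elt O u.1 * y * elt O u.1⁻¹) * i = (i * elt O u.1) * y * (elt O u.1⁻¹ * i) := by
          noncomm_ring
      _ = (elt O u.1 * i) * y * (i * elt O u.1⁻¹) := by
          rw [hiP _ u.2, hiP _ (inv_mem u.2)]
      _ = elt O u.1 * (i * y * i) * elt O u.1⁻¹ := by noncomm_ring
      _ = _ := by rw [hy]
  let cj : P → sourceAlgebra i →ₗ[O] sourceAlgebra i := fun u =>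
    { toFun := fun y => ⟨elt O u.1 * y.1 * elt O u.1⁻¹, hcN u y.1 y.2⟩
      map_add' := fun x y => Subtype.ext (by
        change elt O u.1 * (x.1 + y.1) * elt O u.1⁻¹ = _ + _
        rw [mul_add, add_mul])
      map_smul' := fun c x => Subtype.ext (by
        change elt O u.1 * (c • x.1) * elt O u.1⁻¹ = c • _
        rw [mul_smul_comm, smul_mul_assoc]) }
  have hcjB : ∀ (u : P) (x : X), cj u (B x) = B (u • x) := by
    intro u x
    apply Subtype.ext
    change elt O u.1 * (B x).1 * elt O u.1⁻¹ = (B (u • x)).1
    rw [hB, hB, hact]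
  have hrepr : ∀ (u : P) (y : sourceAlgebra i) (x : X), B.repr (cj u y) (u • x) = B.repr y x := by
    intro u y x
    have h1 : (Finsupp.lapply (u • x) ∘ₗ B.repr.toLinearMap ∘ₗ cj u : sourceAlgebra i →ₗ[O] O)
        = Finsupp.lapply x ∘ₗ B.repr.toLinearMap := by
      apply B.ext
      intro x'
      simp only [LinearMap.comp_apply, LinearEquiv.coe_coe, hcjB, Module.Basis.repr_self,
        Finsupp.lapply_apply]
      rw [Finsupp.single_apply, Finsupp.single_apply]
      by_cases h : x' = x
      · rw [h]; simp
      · rw [if_neg h, if_neg (fun hh => h (MulAction.injective u hh))]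
    exact LinearMap.congr_fun h1 y
  -- the family
  let S : Set (MonoidAlgebra O G) := {x | x ∈ X ∧ ∀ u ∈ P, elt O u * x = x * elt O u}
  have hSfix : ∀ x : X, x.1 ∈ S ↔ x ∈ MulAction.fixedPoints P X := by
    intro x
    rw [MulAction.mem_fixedPoints]
    constructor
    · intro h u
      apply Subtype.ext
      rw [hact, h.2 u.1 u.2, mul_assoc, elt_mul_elt, mul_inv_cancel, elt_one, mul_one]
    · intro h
      refine ⟨x.2, fun u hu => ?_⟩
      have h1 := congrArg Subtype.val (h ⟨u, hu⟩)
      rw [hact] at h1
      calc elt O u * x.1 = (elt O u * x.1 * elt O u⁻¹) * elt O u := by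
            rw [mul_assoc _ (elt O u⁻¹), elt_mul_elt, inv_mul_cancel, elt_one, mul_one]
        _ = x.1 * elt O u := by rw [h1]
  have finS : Finite S := Set.Finite.subset (Set.toFinite X) (fun x hx => hx.1)
  have finS' : Fintype S := Fintype.ofFinite S
  let w : S → MonoidAlgebra (ResidueField O) G := fun x => brauerMap P x.1
  have hindep : LinearIndependent (ResidueField O) w := by
    rw [Fintype.linearIndependent_iff]
    intro a ha x0
    choose c hc using fun x : S => residue_surjective (R := O) (a x)
    let y : MonoidAlgebra O G := ∑ x : S, c x • x.1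
    have hyBr : brauerMap P y = 0 := by
      change brauerMap P (∑ x : S, c x • x.1) = 0
      rw [brauerMap_sum, ← ha]
      refine Finset.sum_congr rfl (fun x _ => ?_)
      rw [brauerMap_smul, hc]
    have hyP : y ∈ fixedPoints O P := by
      intro u hu
      change elt O u * (∑ x : S, c x • x.1) = (∑ x : S, c x • x.1) * elt O u
      rw [Finset.mul_sum, Finset.sum_mul]
      refine Finset.sum_congr rfl (fun x _ => ?_)
      rw [mul_smul_comm, smul_mul_assoc, x.2.2 u hu]
    let x0' : X := ⟨x0.1, x0.2.1⟩
    let coord : MonoidAlgebra O G →ₗ[O] O :=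
      { toFun := fun z => B.repr ⟨i * (z * i), mem_sourceAlgebra_iff.2 ⟨z, rfl⟩⟩ x0'
        map_add' := fun z z' => by
          have : (⟨i * ((z + z') * i), mem_sourceAlgebra_iff.2 ⟨z + z', rfl⟩⟩ : sourceAlgebra i)
            = ⟨i * (z * i), mem_sourceAlgebra_iff.2 ⟨z, rfl⟩⟩
              + ⟨i * (z' * i), mem_sourceAlgebra_iff.2 ⟨z', rfl⟩⟩ :=
            Subtype.ext (by
              change i * ((z + z') * i) = i * (z * i) + i * (z' * i)
              rw [add_mul, mul_add])
          rw [this, map_add]; rfl
        map_smul' := fun r z => by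
          have : (⟨i * ((r • z) * i), mem_sourceAlgebra_iff.2 ⟨r • z, rfl⟩⟩ : sourceAlgebra i)
            = r • ⟨i * (z * i), mem_sourceAlgebra_iff.2 ⟨z, rfl⟩⟩ :=
            Subtype.ext (by
              change i * ((r • z) * i) = r • (i * (z * i))
              rw [smul_mul_assoc, mul_smul_comm])
          rw [this, map_smul]; rfl }
    have hcoordX : ∀ x : X, coord x.1 = if x = x0' then 1 else 0 := by
      intro x
      have h1 : (⟨i * (x.1 * i), mem_sourceAlgebra_iff.2 ⟨x.1, rfl⟩⟩ : sourceAlgebra i) = B x := by
        apply Subtype.ext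
        change i * (x.1 * i) = (B x).1
        rw [hB, ← mul_assoc]
        exact (hN x.1).1 (hXN x.1 x.2)
      change B.repr ⟨i * (x.1 * i), _⟩ x0' = _
      rw [h1, Module.Basis.repr_self, Finsupp.single_apply]
    have hx0 : x0' ∈ MulAction.fixedPoints P X := (hSfix x0').1 x0.2
    have hcoordP : ∀ (u : P) (z : MonoidAlgebra O G),
        coord (elt O u.1 * z * elt O u.1⁻¹) = coord z := by
      intro u z
      have h1 := hrepr u ⟨i * (z * i), mem_sourceAlgebra_iff.2 ⟨z, rfl⟩⟩ x0'
      have h2 : u • x0' = x0' := hx0 u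
      rw [h2] at h1
      change B.repr ⟨i * ((elt O u.1 * z * elt O u.1⁻¹) * i), _⟩ x0' = _
      refine Eq.trans ?_ h1
      congr 2
      apply Subtype.ext
      change i * ((elt O u.1 * z * elt O u.1⁻¹) * i) = elt O u.1 * (i * (z * i)) * elt O u.1⁻¹
      calc i * ((elt O u.1 * z * elt O u.1⁻¹) * i)
          = (i * elt O u.1) * z * (elt O u.1⁻¹ * i) := by noncomm_ring
        _ = (elt O u.1 * i) * z * (i * elt O u.1⁻¹) := by
            rw [hiP _ u.2, hiP _ (inv_mem u.2)]
        _ = _ := by noncomm_ring
    have h1 : coord y = c x0 := by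
      change coord (∑ x : S, c x • x.1) = c x0
      rw [map_sum]
      rw [Finset.sum_eq_single x0]
      · rw [map_smul, show coord x0.1 = coord x0'.1 from rfl, hcoordX, if_pos rfl, smul_eq_mul,
          mul_one]
      · intro x _ hx
        rw [map_smul, show coord x.1 = coord (⟨x.1, x.2.1⟩ : X).1 from rfl, hcoordX, if_neg,
          smul_zero]
        intro h
        apply hx
        have h' : x.1 = x0.1 := congrArg (fun t : X => t.1) h
        exact Subtype.ext h'
      · intro h
        exact absurd (Finset.mem_univ _) h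
    have h2 : coord y = ∑ g, y.coeff g * coord (elt O g) := by
      conv_lhs => rw [expand y]
      rw [map_sum]
      refine Finset.sum_congr rfl (fun g _ => ?_)
      rw [map_smul, smul_eq_mul]
    have h3 : a x0 = ∑ g, residue O (y.coeff g) * residue O (coord (elt O g)) := by
      rw [← hc x0, ← h1, h2, map_sum]
      exact Finset.sum_congr rfl (fun g _ => map_mul _ _ _)
    rw [h3, sum_conj_invariant hP]
    · apply Finset.sum_eq_zero
      intro g _
      split_ifs with hg
      · rw [← coeff_brauerMap_of_mem y hg, hyBr]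
        simp
      · rfl
    · intro u hu g
      rw [mem_fixedPoints_iff.1 hyP u hu, ← hcoordP ⟨u, hu⟩ (elt O g)]
      congr 3
      rw [elt_mul_elt, elt_mul_elt]
  have hspan : Submodule.span (ResidueField O) (Set.range w) = cutSpace P (brauerMap P i) := by
    apply le_antisymm
    · rw [Submodule.span_le]
      rintro _ ⟨x, rfl⟩
      refine ⟨brauerMap_mem _ _, ?_⟩
      have hxP : x.1 ∈ fixedPoints O P := x.2.2
      have h1 : i * x.1 ∈ fixedPoints O P := by
        intro u hu
        rw [← mul_assoc, hiP u hu, mul_assoc, hxP u hu, mul_assoc]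
      change brauerMap P i * brauerMap P x.1 * brauerMap P i = brauerMap P x.1
      rw [← brauerMap_mul hP hiP hxP, ← brauerMap_mul hP h1 hiP, (hN x.1).1 (hXN x.1 x.2.1)]
    · rintro c ⟨hcC, hcη⟩
      obtain ⟨c', hc'P, hc'⟩ := exists_lift_centralizer P hcC
      let y : sourceAlgebra i := ⟨i * (c' * i), mem_sourceAlgebra_iff.2 ⟨c', rfl⟩⟩
      have hc'i : c' * i ∈ fixedPoints O P := by
        intro u hu
        rw [← mul_assoc, hc'P u hu, mul_assoc, hiP u hu, mul_assoc]
      have hyP : y.1 ∈ fixedPoints O P := by
        intro u hu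
        change elt O u * (i * (c' * i)) = (i * (c' * i)) * elt O u
        rw [← mul_assoc, hiP u hu, mul_assoc, hc'i u hu, ← mul_assoc i]
      have hyBr : brauerMap P y.1 = c := by
        change brauerMap P (i * (c' * i)) = c
        rw [brauerMap_mul hP hiP hc'i, brauerMap_mul hP hc'P hiP, hc', ← mul_assoc, hcη]
      have hcjy : ∀ u : P, cj u y = y := by
        intro u
        apply Subtype.ext
        change elt O u.1 * y.1 * elt O u.1⁻¹ = y.1
        rw [hyP u.1 u.2, mul_assoc, elt_mul_elt, mul_inv_cancel, elt_one, mul_one]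
      have hcoef : ∀ (u : P) (x : X), B.repr y (u • x) = B.repr y x := by
        intro u x
        have := hrepr u y x
        rwa [hcjy] at this
      have hsum : y.1 = ∑ x : X, B.repr y x • x.1 := by
        have h1 := B.sum_repr y
        have h2 := congrArg Subtype.val h1
        rw [← h2]
        rw [AddSubmonoidClass.coe_finsetSum]
        refine Finset.sum_congr rfl (fun x _ => ?_)
        change B.repr y x • (B x).1 = _
        rw [hB]
      have hfinal : c = ∑ x : X, if x ∈ MulAction.fixedPoints P X then
          residue O (B.repr y x) • brauerMap P x.1 else 0 := by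
        apply MonoidAlgebra.ext
        ext g
        rw [MonoidAlgebra.coeff_sum, Finsupp.finsetSum_apply]
        by_cases hg : g ∈ Subgroup.centralizer (P : Set G)
        · rw [← hyBr, coeff_brauerMap_of_mem _ hg, hsum, MonoidAlgebra.coeff_sum,
            Finsupp.finsetSum_apply, map_sum]
          have hinv : ∀ (u : P) (x : X),
              residue O ((B.repr y (u • x) • (u • x : X).1).coeff g)
                = residue O ((B.repr y x • x.1).coeff g) := by
            intro u x
            rw [hcoef, hact]
            simp only [MonoidAlgebra.coeff_smul, Finsupp.smul_apply,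
              MonoidAlgebra.coeff_single_mul_apply, MonoidAlgebra.coeff_mul_single_apply, one_mul,
              mul_one, inv_inv]
            congr 3
            have := centralizer_conj_mem hg u.2
            rw [← this, inv_mul_cancel_left]
          rw [sum_eq_sum_fixed hP _ hinv, Finset.sum_filter]
          refine Finset.sum_congr rfl (fun x _ => ?_)
          split_ifs with hx
          · simp only [MonoidAlgebra.coeff_smul, Finsupp.smul_apply, smul_eq_mul, map_mul,
              coeff_brauerMap_of_mem _ hg]
          · simp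
        · rw [not_not.1 (fun h => hg (hcC g h))]
          symm
          apply Finset.sum_eq_zero
          intro x _
          split_ifs with hx
          · simp only [MonoidAlgebra.coeff_smul, Finsupp.smul_apply, smul_eq_mul,
              coeff_brauerMap_of_notMem _ hg, mul_zero]
          · simp
      rw [hfinal]
      refine Submodule.sum_mem _ (fun x _ => ?_)
      split_ifs with hx
      · exact Submodule.smul_mem _ _ (Submodule.subset_span ⟨⟨x.1, (hSfix x).2 hx⟩, rfl⟩)
      · exact Submodule.zero_mem _
  rw [← hspan, finrank_span_eq_card hindep]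
  change Set.ncard S = _
  rw [← Nat.card_coe_set_eq, Nat.card_eq_fintype_card]

end Count

end Pool.Agent.BlockFusion
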