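import Mathlib

/-!
# A group of order `104976 = 2^4 * 3^8`

`V = (F_9)^3` with `F_9 = F_3[i]`, `Heis` is the Heisenberg group of `V`, `Mon` is the monomial
group `C_4 wr S_3` acting on `V`, and `MonL` its subgroup of order 48 formed by the elements
`(c, π)` with all `c j` of the parity of `π`.
-/

namespace Pool.Agent.BlockFusion

/-- The `F_3`-space `(F_9)^3`. -/
abbrev V9 : Type := Fin 3 → ZMod 3 × ZMod 3

/-- cosine of a right angle multiple -/
def cs : ZMod 4 → ZMod 3 := ![1, 0, -1, 0]

/-- sine of a right angle multiple -/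
def sn : ZMod 4 → ZMod 3 := ![0, 1, 0, -1]

lemma cs_add (c d : ZMod 4) : cs (c + d) = cs c * cs d - sn c * sn d := by
  revert c d; decide

lemma sn_add (c d : ZMod 4) : sn (c + d) = sn c * cs d + cs c * sn d := by
  revert c d; decide

lemma cs_sn (c : ZMod 4) : cs c * cs c + sn c * sn c = 1 := by
  revert c; decide

/-- Multiplication by `i ^ c` on `F_9`. -/
def rot (c : ZMod 4) (v : ZMod 3 × ZMod 3) : ZMod 3 × ZMod 3 :=
  (cs c * v.1 - sn c * v.2, sn c * v.1 + cs c * v.2)

lemma rot_zero (v : ZMod 3 × ZMod 3) : rot 0 v = v := by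
  have h1 : cs 0 = 1 := rfl
  have h2 : sn 0 = 0 := rfl
  unfold rot
  rw [h1, h2]
  ext <;> simp

lemma rot_add (c d : ZMod 4) (v : ZMod 3 × ZMod 3) : rot (c + d) v = rot c (rot d v) := by
  unfold rot
  rw [cs_add, sn_add]
  ext <;> simp only <;> ring

lemma rot_add_right (c : ZMod 4) (v w : ZMod 3 × ZMod 3) : rot c (v + w) = rot c v + rot c w := by
  unfold rot
  ext <;> simp only [Prod.fst_add, Prod.snd_add] <;> ring

/-- The symplectic form on `F_9` over `F_3`. -/
def fm (v w : ZMod 3 × ZMod 3) : ZMod 3 := v.1 * w.2 - v.2 * w.1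

lemma fm_rot (c : ZMod 4) (v w : ZMod 3 × ZMod 3) : fm (rot c v) (rot c w) = fm v w := by
  unfold fm rot
  have := cs_sn c
  simp only
  linear_combination (v.1 * w.2 - v.2 * w.1) * this

/-- The symplectic form on `V`. -/
def form (v w : V9) : ZMod 3 := ∑ j, fm (v j) (w j)

lemma form_add_left (u v w : V9) : form (u + v) w = form u w + form v w := by
  unfold form fm
  rw [← Finset.sum_add_distrib]
  refine Finset.sum_congr rfl (fun j _ => ?_)
  simp only [Pi.add_apply, Prod.fst_add, Prod.snd_add]
  ring

lemma form_add_right (u v w : V9) : form u (v + w) = form u v + form u w := by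
  unfold form fm
  rw [← Finset.sum_add_distrib]
  refine Finset.sum_congr rfl (fun j _ => ?_)
  simp only [Pi.add_apply, Prod.fst_add, Prod.snd_add]
  ring

lemma form_self_neg (v : V9) : form v (-v) = 0 := by
  unfold form fm
  refine Finset.sum_eq_zero (fun j _ => ?_)
  simp only [Pi.neg_apply, Prod.fst_neg, Prod.snd_neg]
  ring

lemma form_neg_self (v : V9) : form (-v) v = 0 := by
  unfold form fm
  refine Finset.sum_eq_zero (fun j _ => ?_)
  simp only [Pi.neg_apply, Prod.fst_neg, Prod.snd_neg]
  ring

lemma form_zero_left (v : V9) : form 0 v = 0 := by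
  unfold form fm
  exact Finset.sum_eq_zero (fun j _ => by simp)

lemma form_zero_right (v : V9) : form v 0 = 0 := by
  unfold form fm
  exact Finset.sum_eq_zero (fun j _ => by simp)

/-- The Heisenberg group of `V`, of order `3^7`. -/
@[ext]
structure Heis where
  /-- the vector part -/
  v : V9
  /-- the central part -/
  t : ZMod 3
deriving DecidableEq

namespace Heis

instance : Mul Heis := ⟨fun x y => ⟨x.v + y.v, x.t + y.t + form x.v y.v⟩⟩
instance : One Heis := ⟨⟨0, 0⟩⟩
instance : Inv Heis := ⟨fun x => ⟨-x.v, -x.t⟩⟩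

@[simp] lemma mul_v (x y : Heis) : (x * y).v = x.v + y.v := rfl
@[simp] lemma mul_t (x y : Heis) : (x * y).t = x.t + y.t + form x.v y.v := rfl
@[simp] lemma one_v : (1 : Heis).v = 0 := rfl
@[simp] lemma one_t : (1 : Heis).t = 0 := rfl
@[simp] lemma inv_v (x : Heis) : (x⁻¹).v = -x.v := rfl
@[simp] lemma inv_t (x : Heis) : (x⁻¹).t = -x.t := rfl

instance : Group Heis :=
  Group.ofLeftAxioms
    (fun x y z => by
      apply Heis.ext
      · simp only [mul_v, add_assoc]
      · simp only [mul_t, mul_v, form_add_left, form_add_right]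
        ring)
    (fun x => by
      apply Heis.ext
      · simp only [mul_v, one_v, zero_add]
      · simp only [mul_t, one_v, one_t, zero_add, form_zero_left, add_zero])
    (fun x => by
      apply Heis.ext
      · simp only [mul_v, inv_v, one_v, neg_add_cancel]
      · simp only [mul_t, inv_v, inv_t, one_t, form_neg_self, add_zero, neg_add_cancel])

/-- The underlying set of `Heis`. -/
def equiv : Heis ≃ V9 × ZMod 3 where
  toFun x := (x.v, x.t)
  invFun x := ⟨x.1, x.2⟩
  left_inv _ := rfl
  right_inv _ := rfl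

instance : Finite Heis := Finite.of_equiv _ equiv.symm

lemma card : Nat.card Heis = 3 ^ 7 := by
  rw [Nat.card_congr equiv, Nat.card_prod, Nat.card_fun, Nat.card_prod, Nat.card_zmod,
    Nat.card_eq_fintype_card, Fintype.card_fin]
  norm_num

end Heis

/-- The monomial group `C_4 wr S_3`. -/
@[ext]
structure Mon where
  /-- the exponents of `i` -/
  c : Fin 3 → ZMod 4
  /-- the permutation -/
  q : Equiv.Perm (Fin 3)

instance : DecidableEq Mon := fun _ _ => decidable_of_iff _ Mon.ext_iff.symm

namespace Mon

instance : Mul Mon := ⟨fun x y => ⟨fun j => x.c j + y.c (x.q⁻¹ j), x.q * y.q⟩⟩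
instance : One Mon := ⟨⟨0, 1⟩⟩
instance : Inv Mon := ⟨fun x => ⟨fun j => -x.c (x.q j), x.q⁻¹⟩⟩

@[simp] lemma mul_c (x y : Mon) (j : Fin 3) : (x * y).c j = x.c j + y.c (x.q⁻¹ j) := rfl
@[simp] lemma mul_q (x y : Mon) : (x * y).q = x.q * y.q := rfl
@[simp] lemma one_c (j : Fin 3) : (1 : Mon).c j = 0 := rfl
@[simp] lemma one_q : (1 : Mon).q = 1 := rfl
@[simp] lemma inv_c (x : Mon) (j : Fin 3) : (x⁻¹).c j = -x.c (x.q j) := rfl
@[simp] lemma inv_q (x : Mon) : (x⁻¹).q = x.q⁻¹ := rfl

instance : Group Mon :=
  Group.ofLeftAxioms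
    (fun x y z => by
      apply Mon.ext
      · funext j
        simp only [mul_c, mul_q, mul_inv_rev, Equiv.Perm.mul_apply, add_assoc]
      · simp only [mul_q, mul_assoc])
    (fun x => by
      apply Mon.ext
      · funext j
        simp only [mul_c, one_c, one_q, inv_one, Equiv.Perm.one_apply, zero_add]
      · simp only [mul_q, one_q, one_mul])
    (fun x => by
      apply Mon.ext
      · funext j
        simp only [mul_c, inv_c, inv_q, inv_inv, one_c, neg_add_cancel]
      · simp only [mul_q, inv_q, one_q, inv_mul_cancel])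

/-- The underlying set of `Mon`. -/
def equiv : Mon ≃ (Fin 3 → ZMod 4) × Equiv.Perm (Fin 3) where
  toFun x := (x.c, x.q)
  invFun x := ⟨x.1, x.2⟩
  left_inv _ := rfl
  right_inv _ := rfl

instance : Fintype Mon := Fintype.ofEquiv _ equiv.symm

/-- The action of `Mon` on `V`. -/
def actV (m : Mon) (v : V9) : V9 := fun j => rot (m.c j) (v (m.q⁻¹ j))

lemma actV_one (v : V9) : actV 1 v = v := by
  funext j
  simp only [actV, one_c, one_q, inv_one, Equiv.Perm.one_apply, rot_zero]

lemma actV_mul (m n : Mon) (v : V9) : actV (m * n) v = actV m (actV n v) := by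
  funext j
  simp only [actV, mul_c, mul_q, mul_inv_rev, Equiv.Perm.mul_apply, rot_add]

lemma actV_add (m : Mon) (v w : V9) : actV m (v + w) = actV m v + actV m w := by
  funext j
  simp only [actV, Pi.add_apply, rot_add_right]

lemma form_actV (m : Mon) (v w : V9) : form (actV m v) (actV m w) = form v w := by
  unfold form actV
  simp only [fm_rot]
  exact Equiv.sum_comp (m.q⁻¹ : Equiv.Perm (Fin 3)) (fun j => fm (v j) (w j))

/-- The action of `Mon` on the Heisenberg group. -/
def actH : Mon →* MulAut Heis where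
  toFun m :=
    { toFun := fun x => ⟨actV m x.v, x.t⟩
      invFun := fun x => ⟨actV m⁻¹ x.v, x.t⟩
      left_inv := fun x => by
        apply Heis.ext
        · simp only
          rw [← actV_mul, inv_mul_cancel, actV_one]
        · rfl
      right_inv := fun x => by
        apply Heis.ext
        · simp only
          rw [← actV_mul, mul_inv_cancel, actV_one]
        · rfl
      map_mul' := fun x y => by
        apply Heis.ext
        · simp only [Heis.mul_v, actV_add]
        · simp only [Heis.mul_t, form_actV] }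
  map_one' := by
    ext x : 1
    apply Heis.ext
    · exact actV_one x.v
    · rfl
  map_mul' m n := by
    ext x : 1
    apply Heis.ext
    · exact actV_mul m n x.v
    · rfl

@[simp] lemma actH_v (m : Mon) (x : Heis) : (actH m x).v = actV m x.v := rfl
@[simp] lemma actH_t (m : Mon) (x : Heis) : (actH m x).t = x.t := rfl

end Mon

/-- The parity of a permutation of three points. -/
def par (q : Equiv.Perm (Fin 3)) : ZMod 2 := if Equiv.Perm.sign q = 1 then 0 else 1

/-- The parity of an element of `ZMod 4`. -/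
def par4 (c : ZMod 4) : ZMod 2 := (c.val : ZMod 2)

lemma par_mul (q r : Equiv.Perm (Fin 3)) : par (q * r) = par q + par r := by
  unfold par
  rw [map_mul]
  rcases Int.units_eq_one_or (Equiv.Perm.sign q) with h | h <;>
  rcases Int.units_eq_one_or (Equiv.Perm.sign r) with h' | h' <;>
  rw [h, h'] <;> decide

lemma par4_add (c d : ZMod 4) : par4 (c + d) = par4 c + par4 d := by
  revert c d; decide

/-- The subgroup of order 48 of `Mon`. -/
def MonL : Subgroup Mon where
  carrier := {m | ∀ j, par4 (m.c j) = par m.q}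
  mul_mem' := by
    intro x y hx hy j
    rw [Mon.mul_c, Mon.mul_q, par4_add, par_mul, hx, hy]
  one_mem' := by
    intro j
    change par4 0 = par 1
    decide
  inv_mem' := by
    intro x hx j
    have h1 : ∀ c : ZMod 4, par4 (-c) = par4 c := by decide
    have h2 : par x.q⁻¹ = par x.q := by
      unfold par
      rw [Equiv.Perm.sign_inv]
    rw [Mon.inv_c, Mon.inv_q, h1, h2, hx]

lemma mem_MonL {m : Mon} : m ∈ MonL ↔ ∀ j, par4 (m.c j) = par m.q := Iff.rfl

instance (m : Mon) : Decidable (m ∈ MonL) :=
  inferInstanceAs (Decidable (∀ j, par4 (m.c j) = par m.q))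

lemma card_MonL : Nat.card MonL = 48 := by
  rw [Nat.card_eq_fintype_card, Fintype.card_subtype]
  decide +kernel

/-- The stabilizer of the first axis in `MonL`, of order 16. -/
def DL : Subgroup MonL where
  carrier := {m | m.1.q 0 = 0}
  mul_mem' := by
    intro x y hx hy
    change x.1.q (y.1.q 0) = 0
    rw [hy, hx]
  one_mem' := rfl
  inv_mem' := by
    intro x hx
    change x.1.q⁻¹ 0 = 0
    rw [Equiv.Perm.inv_eq_iff_eq]
    exact hx.symm

instance (m : MonL) : Decidable (m ∈ DL) :=
  inferInstanceAs (Decidable (m.1.q 0 = 0))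

lemma card_DL : Nat.card DL = 16 := by
  rw [Nat.card_eq_fintype_card, Fintype.card_subtype]
  decide +kernel

end Pool.Agent.BlockFusion
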