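import Pool.Agent.Lib_helper36.BlockLemmas
import Pool.Agent.Lib_helper36.FixedCount

/-!
# Idempotents of linear characters of subgroups
-/

namespace Pool.Agent.BlockFusion

universe u v

variable {A : Type u} [CommRing A] {G : Type v} [Group G] [Finite G]

open scoped Classical in
/-- The element `n' * ∑_{x ∈ K} lam(x⁻¹) x`. -/
noncomputable def linIdem (K : Subgroup G) (lam : G → A) (n' : A) : MonoidAlgebra A G :=
  MonoidAlgebra.ofCoeff (Finsupp.equivFunOnFinite.symm
    (fun g => if g ∈ K then n' * lam g⁻¹ else 0))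

open scoped Classical in
lemma coeff_linIdem (K : Subgroup G) (lam : G → A) (n' : A) (g : G) :
    (linIdem K lam n').coeff g = if g ∈ K then n' * lam g⁻¹ else 0 := by
  unfold linIdem
  simp

lemma coeff_linIdem_of_mem {K : Subgroup G} (lam : G → A) (n' : A) {g : G} (hg : g ∈ K) :
    (linIdem K lam n').coeff g = n' * lam g⁻¹ := by
  classical
  rw [coeff_linIdem, if_pos hg]

lemma coeff_linIdem_of_notMem {K : Subgroup G} (lam : G → A) (n' : A) {g : G} (hg : g ∉ K) :
    (linIdem K lam n').coeff g = 0 := by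
  classical
  rw [coeff_linIdem, if_neg hg]

lemma elt_mul_linIdem {K : Subgroup G} {lam : G → A} (n' : A)
    (hlam : ∀ x ∈ K, ∀ y ∈ K, lam (x * y) = lam x * lam y) {y : G} (hy : y ∈ K) :
    elt A y * linIdem K lam n' = lam y • linIdem K lam n' := by
  apply MonoidAlgebra.ext
  ext g
  rw [MonoidAlgebra.coeff_single_mul_apply, one_mul, MonoidAlgebra.coeff_smul, Finsupp.smul_apply,
    smul_eq_mul]
  by_cases hg : g ∈ K
  · rw [coeff_linIdem_of_mem _ _ hg, coeff_linIdem_of_mem _ _ (mul_mem (inv_mem hy) hg),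
      mul_inv_rev, inv_inv, hlam _ (inv_mem hg) _ hy]
    ring
  · rw [coeff_linIdem_of_notMem _ _ hg, coeff_linIdem_of_notMem, mul_zero]
    intro h
    exact hg ((K.mul_mem_cancel_left (inv_mem hy)).1 h)

lemma linIdem_mul {K Z : Subgroup G} (hZK : Z ≤ K) {lam : G → A} (n' m' : A)
    (hlam : ∀ x ∈ K, ∀ y ∈ K, lam (x * y) = lam x * lam y) (h1 : lam 1 = 1)
    (hm : m' * (Nat.card Z : A) = 1) :
    linIdem Z lam m' * linIdem K lam n' = linIdem K lam n' := by
  classical
  have := Fintype.ofFinite G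
  conv_lhs => rw [expand (linIdem Z lam m')]
  rw [Finset.sum_mul]
  have h2 : ∀ g : G, (linIdem Z lam m').coeff g • elt A g * linIdem K lam n'
      = (if g ∈ Z then m' else 0) • linIdem K lam n' := by
    intro g
    by_cases hg : g ∈ Z
    · rw [smul_mul_assoc, coeff_linIdem_of_mem _ _ hg, elt_mul_linIdem n' hlam (hZK hg), smul_smul,
        if_pos hg, mul_assoc, ← hlam _ (inv_mem (hZK hg)) _ (hZK hg), inv_mul_cancel, h1, mul_one]
    · rw [coeff_linIdem_of_notMem _ _ hg, zero_smul, zero_mul, if_neg hg, zero_smul]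
  rw [Finset.sum_congr rfl (fun g _ => h2 g), ← Finset.sum_smul, ← Finset.sum_filter,
    Finset.sum_const, nsmul_eq_mul]
  have h3 : (Finset.univ.filter (fun g => g ∈ Z)).card = Nat.card Z := by
    rw [Nat.card_eq_fintype_card, Fintype.card_subtype]
  rw [h3, mul_comm, hm, one_smul]

lemma linIdem_mem_fixedPoints {K D : Subgroup G} {lam : G → A} (n' : A)
    (hK : ∀ u ∈ D, ∀ x ∈ K, u * x * u⁻¹ ∈ K)
    (hlam : ∀ u ∈ D, ∀ x ∈ K, lam (u * x * u⁻¹) = lam x) :
    linIdem K lam n' ∈ fixedPoints A D := by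
  rw [mem_fixedPoints_iff]
  intro u hu g
  by_cases hg : g ∈ K
  · rw [coeff_linIdem_of_mem _ _ hg, coeff_linIdem_of_mem _ _ (hK u hu g hg)]
    have : (u * g * u⁻¹)⁻¹ = u * g⁻¹ * u⁻¹ := by group
    rw [this, hlam u hu _ (inv_mem hg)]
  · rw [coeff_linIdem_of_notMem _ _ hg, coeff_linIdem_of_notMem]
    intro h
    apply hg
    have := hK u⁻¹ (inv_mem hu) _ h
    rwa [show u⁻¹ * (u * g * u⁻¹) * u⁻¹⁻¹ = g by group] at this

end Pool.Agent.BlockFusion
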