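import Pool.Agent.Lib_helper36.Weil
import Pool.Agent.Lib_helper36.LinIdem
import Pool.Agent.Lib_helper36.Criterion

/-!
# The idempotents of `k C_G(z) β` fixed by `D` are `0` and `β`
-/

set_option linter.unusedSectionVars false

namespace Pool.Agent.BlockFusion

universe u

variable {k : Type u} [Field k] [CharP k 2] (ψ : AddChar (ZMod 3) k)

/-- The target algebra. -/
abbrev TA (k : Type u) [Field k] : Type u := MonoidAlgebra (M3 k) MonL

/-- The image of a group element. -/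
noncomputable def Rg (g : GG) : TA k :=
  MonoidAlgebra.single g.right (Wm ψ (g.left.v 0) g.left.t * Jp ψ (g.right.1.c 0))

/-- The centralizer of `z`. -/
abbrev CG : Subgroup GG := Subgroup.centralizer (Subgroup.zpowers zG : Set GG)

lemma inC_of_mem {g : GG} (hg : g ∈ CG) : InC g :=
  inC_of_comm (centralizer_conj_mem hg (Subgroup.mem_zpowers zG))

lemma q_inv_zero {l : MonL} (hl : l ∈ DL) : l.1.q⁻¹ 0 = 0 := by
  rw [Equiv.Perm.inv_eq_iff_eq]
  exact (show l.1.q 0 = 0 from hl).symm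

lemma Rg_mul (hψ : ψ 1 ≠ 1) {g h : GG} (hg : InC g) (hh : InC h) :
    Rg ψ (g * h) = Rg ψ g * Rg ψ h := by
  obtain ⟨hg1, hg2, hg⟩ := hg
  obtain ⟨hh1, hh2, hh⟩ := hh
  unfold Rg
  rw [MonoidAlgebra.single_mul_single]
  have h1 : (g * h).left.v 0 = g.left.v 0 + rot (g.right.1.c 0) (h.left.v 0) := by
    rw [mul_left_v]
    change g.left.v 0 + rot (g.right.1.c 0) (h.left.v (g.right.1.q⁻¹ 0)) = _
    rw [q_inv_zero hg]
  have h2 : (g * h).left.t = g.left.t + h.left.t
      + fm (g.left.v 0) (rot (g.right.1.c 0) (h.left.v 0)) := by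
    rw [mul_left_t]
    congr 1
    unfold form
    rw [Fin.sum_univ_three, hg1, hg2]
    change fm (g.left.v 0) (rot (g.right.1.c 0) (h.left.v (g.right.1.q⁻¹ 0))) + _ + _ = _
    rw [q_inv_zero hg]
    unfold fm
    simp
  have h3 : (g * h).right.1.c 0 = g.right.1.c 0 + h.right.1.c 0 := by
    change g.right.1.c 0 + h.right.1.c (g.right.1.q⁻¹ 0) = _
    rw [q_inv_zero hg]
  rw [h1, h2, h3, Jp_add ψ hψ, ← Wm_mul, SemidirectProduct.mul_right]
  congr 1
  calc Wm ψ (g.left.v 0) g.left.t * Wm ψ (rot (g.right.1.c 0) (h.left.v 0)) h.left.t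
      * (Jp ψ (g.right.1.c 0) * Jp ψ (h.right.1.c 0))
      = Wm ψ (g.left.v 0) g.left.t * (Wm ψ (rot (g.right.1.c 0) (h.left.v 0)) h.left.t
        * Jp ψ (g.right.1.c 0)) * Jp ψ (h.right.1.c 0) := by noncomm_ring
    _ = _ := by
      rw [← Jp_mul_Wm]
      noncomm_ring

noncomputable instance : Fintype GG := Fintype.ofFinite _

/-- The linear map to the target algebra. -/
noncomputable def Phi : MonoidAlgebra k GG →ₗ[k] TA k where
  toFun f := ∑ g, f.coeff g • Rg ψ g
  map_add' x y := by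
    rw [← Finset.sum_add_distrib]
    exact Finset.sum_congr rfl (fun g _ => by
      rw [MonoidAlgebra.coeff_add, Finsupp.add_apply, add_smul])
  map_smul' c x := by
    rw [RingHom.id_apply, Finset.smul_sum]
    exact Finset.sum_congr rfl (fun g _ => by
      rw [MonoidAlgebra.coeff_smul, Finsupp.smul_apply, smul_assoc])

lemma Phi_apply (f : MonoidAlgebra k GG) : Phi ψ f = ∑ g, f.coeff g • Rg ψ g := rfl

lemma Phi_elt (g : GG) : Phi ψ (elt k g) = Rg ψ g := by
  classical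
  rw [Phi_apply, Finset.sum_eq_single g]
  · simp
  · intro h _ hne
    simp [Ne.symm hne]
  · intro h
    exact absurd (Finset.mem_univ _) h

lemma Phi_mul (hψ : ψ 1 ≠ 1) {f f' : MonoidAlgebra k GG}
    (hf : ∀ g, f.coeff g ≠ 0 → InC g) (hf' : ∀ g, f'.coeff g ≠ 0 → InC g) :
    Phi ψ (f * f') = Phi ψ f * Phi ψ f' := by
  conv_lhs => rw [expand f, expand f']
  rw [Finset.sum_mul_sum, map_sum, Phi_apply ψ f, Phi_apply ψ f', Finset.sum_mul_sum]
  refine Finset.sum_congr rfl (fun g _ => ?_)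
  rw [map_sum]
  refine Finset.sum_congr rfl (fun h _ => ?_)
  rw [smul_mul_smul_comm, smul_mul_smul_comm, map_smul, elt_mul_elt, Phi_elt]
  by_cases hg : f.coeff g = 0
  · rw [hg, zero_mul, zero_smul, zero_smul]
  by_cases hh : f'.coeff h = 0
  · rw [hh, mul_zero, zero_smul, zero_smul]
  rw [Rg_mul ψ hψ (hf g hg) (hf' h hh)]

/-- The trace of the coefficient at `1`. -/
noncomputable def tau (x : TA k) : k := Matrix.trace (x.coeff 1)

lemma tau_sum {ι : Type*} (s : Finset ι) (F : ι → TA k) : tau (∑ j ∈ s, F j) = ∑ j ∈ s, tau (F j) := by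
  unfold tau
  rw [MonoidAlgebra.coeff_sum, Finsupp.finsetSum_apply, Matrix.trace_sum]

lemma tau_smul (c : k) (x : TA k) : tau (c • x) = c * tau x := by
  unfold tau
  rw [MonoidAlgebra.coeff_smul, Finsupp.smul_apply, Matrix.trace_smul, smul_eq_mul]

lemma tau_Rg (hψ : ψ 1 ≠ 1) (g : GG) :
    tau (Rg ψ g) = if g.right = 1 ∧ g.left.v 0 = 0 then ψ g.left.t else 0 := by
  classical
  unfold tau Rg
  by_cases h : g.right = 1
  · rw [h]
    have h1 : ((MonoidAlgebra.single (1 : MonL) (Wm ψ (g.left.v 0) g.left.t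
        * Jp ψ ((1 : MonL).1.c 0)) : TA k).coeff 1) = Wm ψ (g.left.v 0) g.left.t := by
      have h2 : Jp ψ ((1 : MonL).1.c 0) = 1 := Jp_zero ψ
      rw [h2, mul_one]
      simp
    rw [h1, trace_Wm ψ hψ]
    simp
  · rw [if_neg (fun hh => h hh.1)]
    have h1 : ∀ M : M3 k, ((MonoidAlgebra.single g.right M : TA k).coeff 1) = 0 := by
      intro M
      rw [MonoidAlgebra.coeff_single, Finsupp.single_apply, if_neg h]
    rw [h1, Matrix.trace_zero]

/-- The character of `KG` (a function on `GG`). -/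
def lamG {A : Type*} [CommRing A] (χ : AddChar (ZMod 3) A) (g : GG) : A := χ g.left.t

/-- The central idempotent. -/
noncomputable def betaK : MonoidAlgebra k GG := linIdem ZG (lamG ψ) 1

lemma lamG_mul {A : Type*} [CommRing A] (χ : AddChar (ZMod 3) A) {x y : GG} (hx : x ∈ KG)
    (hy : y ∈ KG) : lamG χ (x * y) = lamG χ x * lamG χ y := by
  unfold lamG
  rw [t_mul_KG hx hy, AddChar.map_add_eq_mul]

lemma lamG_one {A : Type*} [CommRing A] (χ : AddChar (ZMod 3) A) : lamG χ 1 = 1 :=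
  AddChar.map_zero_eq_one χ

lemma betaK_support (g : GG) (hg : (betaK ψ).coeff g ≠ 0) : g ∈ Subgroup.center GG := by
  apply ZG_le_center
  by_contra h
  exact hg (coeff_linIdem_of_notMem _ _ h)

lemma betaK_mul_self : betaK ψ * betaK ψ = betaK ψ :=
  linIdem_mul le_rfl 1 1
    (fun _ hx _ hy => lamG_mul ψ (ZG_le_KG hx) (ZG_le_KG hy)) (lamG_one ψ)
    (by rw [card_ZG, one_mul]; exact_mod_cast three_eq_one)

lemma elt_mul_betaK {c : GG} (hc : c ∈ ZG) : elt k c * betaK ψ = lamG ψ c • betaK ψ :=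
  elt_mul_linIdem _ (fun _ hx _ hy => lamG_mul ψ (ZG_le_KG hx) (ZG_le_KG hy)) hc

lemma coeff_central {f : MonoidAlgebra k GG} (hf : f * betaK ψ = f) {c : GG} (hc : c ∈ ZG)
    (g : GG) : f.coeff (c * g) = lamG ψ c⁻¹ * f.coeff g := by
  have h1 : elt k c⁻¹ * f = lamG ψ c⁻¹ • f := by
    calc elt k c⁻¹ * f = elt k c⁻¹ * (betaK ψ * f) := by
          rw [commute_of_support (betaK_support ψ), hf]
      _ = lamG ψ c⁻¹ • (betaK ψ * f) := by
          rw [← mul_assoc, elt_mul_betaK ψ (inv_mem hc), smul_mul_assoc]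
      _ = _ := by rw [commute_of_support (betaK_support ψ), hf]
  have h2 := congrArg (fun x => x.coeff g) h1
  simp only [MonoidAlgebra.coeff_single_mul_apply, one_mul, inv_inv, MonoidAlgebra.coeff_smul,
    Finsupp.smul_apply, smul_eq_mul] at h2
  exact h2

lemma inC_mul_iff {f : MonoidAlgebra k GG}
    (hf : f ∈ centralizerAlgebra k (Subgroup.zpowers zG)) (g : GG) (h : f.coeff g ≠ 0) :
    InC g := inC_of_mem (hf g h)

/-- Recovering the coefficients of `f` from its image. -/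
lemma tau_Phi (hψ : ψ 1 ≠ 1) {f : MonoidAlgebra k GG}
    (hf : f ∈ centralizerAlgebra k (Subgroup.zpowers zG)) (hfβ : f * betaK ψ = f) {g0 : GG}
    (hg0 : g0 ∈ CG) : tau (Phi ψ f * Rg ψ g0⁻¹) = f.coeff g0 := by
  classical
  have hsupp : ∀ g, (elt k g0⁻¹).coeff g ≠ 0 → InC g := by
    intro g hg
    have : g = g0⁻¹ := by
      by_contra hne
      exact hg (by simp [Ne.symm hne])
    rw [this]
    exact inC_of_mem (inv_mem hg0)
  rw [← Phi_elt, ← Phi_mul ψ hψ (inC_mul_iff hf) hsupp, Phi_apply, tau_sum]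
  have h1 : ∀ g : GG, tau ((f * elt k g0⁻¹).coeff g • Rg ψ g)
      = if g ∈ ZG then f.coeff g0 else 0 := by
    intro g
    rw [tau_smul, tau_Rg ψ hψ, MonoidAlgebra.coeff_mul_single_apply, mul_one, inv_inv]
    by_cases hg : g ∈ ZG
    · rw [if_pos hg, if_pos ⟨hg.2, by rw [hg.1]; rfl⟩, coeff_central ψ hfβ hg]
      have h2 : lamG ψ g⁻¹ * lamG ψ g = 1 := by
        rw [← lamG_mul ψ (inv_mem (ZG_le_KG hg)) (ZG_le_KG hg), inv_mul_cancel, lamG_one]
      calc lamG ψ g⁻¹ * f.coeff g0 * ψ g.left.t = (lamG ψ g⁻¹ * lamG ψ g) * f.coeff g0 := by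
            unfold lamG; ring
        _ = f.coeff g0 := by rw [h2, one_mul]
    · rw [if_neg hg]
      by_cases h3 : g.right = 1 ∧ g.left.v 0 = 0
      · have h4 : f.coeff (g * g0) = 0 := by
          by_contra hne
          have h5 := hf _ hne
          have h6 : g ∈ CG := (Subgroup.mul_mem_cancel_right _ hg0).1 h5
          obtain ⟨h7, h8, -⟩ := inC_of_mem h6
          apply hg
          refine ⟨?_, h3.1⟩
          funext j
          fin_cases j
          · exact h3.2
          · exact h7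
          · exact h8
        rw [h4, zero_mul]
      · rw [if_neg h3, mul_zero]
  rw [Finset.sum_congr rfl (fun g _ => h1 g), ← Finset.sum_filter, Finset.sum_const]
  have h3 : (Finset.univ.filter (fun g => g ∈ ZG)).card = Nat.card ZG := by
    rw [Nat.card_eq_fintype_card, Fintype.card_subtype]
  rw [h3, card_ZG, nsmul_eq_mul]
  have h4 : ((3 : ℕ) : k) = 1 := by exact_mod_cast three_eq_one
  rw [h4, one_mul]

lemma Phi_injective (hψ : ψ 1 ≠ 1) {f : MonoidAlgebra k GG}
    (hf : f ∈ centralizerAlgebra k (Subgroup.zpowers zG)) (hfβ : f * betaK ψ = f)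
    (h0 : Phi ψ f = 0) : f = 0 := by
  apply MonoidAlgebra.ext
  ext g
  by_contra hne
  apply hne
  have hg : g ∈ CG := hf g hne
  rw [← tau_Phi ψ hψ hf hfβ hg, h0, zero_mul]
  unfold tau
  simp

lemma Phi_betaK : Phi ψ (betaK ψ) = 1 := by
  classical
  rw [Phi_apply]
  have h1 : ∀ g : GG, (betaK ψ).coeff g • Rg ψ g = if g ∈ ZG then (1 : TA k) else 0 := by
    intro g
    by_cases hg : g ∈ ZG
    · rw [if_pos hg]
      unfold betaK
      rw [coeff_linIdem_of_mem _ _ hg, one_mul]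
      unfold Rg
      rw [hg.1, hg.2]
      have h2 : Jp ψ ((1 : MonL).1.c 0) = 1 := Jp_zero ψ
      have h3 : Wm ψ ((0 : V9) 0) g.left.t = ψ g.left.t • (1 : M3 k) := by
        ext x y
        rw [Wm_apply, Matrix.smul_apply, Matrix.one_apply, Pi.zero_apply, Prod.fst_zero,
          Prod.snd_zero, add_zero, zero_mul, zero_mul, sub_zero, add_zero, smul_eq_mul, mul_ite,
          mul_one, mul_zero]
        simp only [eq_comm]
      rw [h2, h3, mul_one, MonoidAlgebra.smul_single, smul_smul]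
      have h4 : lamG ψ g⁻¹ * ψ g.left.t = 1 := by
        have : lamG ψ g⁻¹ * lamG ψ g = 1 := by
          rw [← lamG_mul ψ (inv_mem (ZG_le_KG hg)) (ZG_le_KG hg), inv_mul_cancel, lamG_one]
        exact this
      rw [h4, one_smul]
      rfl
    · rw [if_neg hg]
      unfold betaK
      rw [coeff_linIdem_of_notMem _ _ hg, zero_smul]
  rw [Finset.sum_congr rfl (fun g _ => h1 g), ← Finset.sum_filter, Finset.sum_const]
  have h3 : (Finset.univ.filter (fun g => g ∈ ZG)).card = Nat.card ZG := by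
    rw [Nat.card_eq_fintype_card, Fintype.card_subtype]
  rw [h3, card_ZG]
  have h4 : (3 : ℕ) • (1 : TA k) = ((3 : k)) • (1 : TA k) := by
    rw [← Nat.cast_smul_eq_nsmul k]
    norm_cast
  rw [h4, three_eq_one, one_smul]

/-- The elements of the target algebra supported on `DL` whose coefficients have only the first
column nonzero. -/
def FC (k : Type u) [Field k] : AddSubgroup (TA k) where
  carrier := {x | (∀ l, l ∉ DL → x.coeff l = 0) ∧ ∀ l r c, c ≠ 0 → x.coeff l r c = 0}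
  zero_mem' := ⟨fun l _ => by simp, fun l r c _ => by simp⟩
  add_mem' := by
    rintro x y ⟨hx, hx'⟩ ⟨hy, hy'⟩
    refine ⟨fun l hl => ?_, fun l r c hc => ?_⟩
    · rw [MonoidAlgebra.coeff_add, Finsupp.add_apply, hx l hl, hy l hl, add_zero]
    · rw [MonoidAlgebra.coeff_add, Finsupp.add_apply, Matrix.add_apply, hx' l r c hc,
        hy' l r c hc, add_zero]
  neg_mem' := by
    rintro x ⟨hx, hx'⟩
    refine ⟨fun l hl => ?_, fun l r c hc => ?_⟩
    · rw [MonoidAlgebra.coeff_neg, Finsupp.neg_apply, hx l hl, neg_zero]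
    · rw [MonoidAlgebra.coeff_neg, Finsupp.neg_apply, Matrix.neg_apply, hx' l r c hc, neg_zero]

/-- The left operators. -/
noncomputable def hatL (u : MonL) : TA k := MonoidAlgebra.single u (Jp ψ (u.1.c 0))

lemma hatL_eq (u : MonL) : hatL ψ u = Rg ψ (SemidirectProduct.inr u) := by
  unfold hatL Rg
  have h1 : Wm ψ ((SemidirectProduct.inr u : GG).left.v 0) (SemidirectProduct.inr u : GG).left.t
      = 1 := by
    ext x y
    change (if y = x + 0 then ψ (0 - 0 * x + 0 * 0) else 0) = _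
    rw [Matrix.one_apply, add_zero]
    simp [eq_comm]
  rw [h1, one_mul]
  rfl

lemma inC_inr {u : MonL} (hu : u ∈ DL) : InC (SemidirectProduct.inr u : GG) :=
  ⟨rfl, rfl, hu⟩

lemma hatL_mul (hψ : ψ 1 ≠ 1) {u v : MonL} (hu : u ∈ DL) (hv : v ∈ DL) :
    hatL ψ (u * v) = hatL ψ u * hatL ψ v := by
  rw [hatL_eq, hatL_eq, hatL_eq, map_mul, Rg_mul ψ hψ (inC_inr hu) (inC_inr hv)]

lemma hatL_one : hatL ψ 1 = 1 := by
  unfold hatL
  have : Jp ψ ((1 : MonL).1.c 0) = 1 := Jp_zero ψ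
  rw [this]
  rfl

/-- Right translations. -/
noncomputable def rt (k : Type u) [Field k] (u : MonL) : TA k := MonoidAlgebra.single u 1

lemma rt_mul (u v : MonL) : rt k (u * v) = rt k u * rt k v := by
  unfold rt
  rw [MonoidAlgebra.single_mul_single, one_mul]

lemma rt_one : rt k 1 = 1 := rfl

/-- The action of `DL × DL`. -/
noncomputable def rhoD (hψ : ψ 1 ≠ 1) : (DL × DL) →* AddMonoid.End (TA k) where
  toFun u :=
    { toFun := fun x => hatL ψ u.1.1 * x * rt k u.2.1⁻¹
      map_zero' := by rw [mul_zero, zero_mul]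
      map_add' := fun x y => by rw [mul_add, add_mul] }
  map_one' := AddMonoidHom.ext fun x => by
    change hatL ψ (1 : MonL) * x * rt k (1 : MonL)⁻¹ = x
    rw [hatL_one, inv_one, rt_one, one_mul, mul_one]
  map_mul' u v := AddMonoidHom.ext fun x => by
    change hatL ψ (u.1.1 * v.1.1) * x * rt k (u.2.1 * v.2.1)⁻¹
      = hatL ψ u.1.1 * (hatL ψ v.1.1 * x * rt k v.2.1⁻¹) * rt k u.2.1⁻¹
    rw [hatL_mul ψ hψ u.1.2 v.1.2, mul_inv_rev, rt_mul]
    noncomm_ring

lemma rhoD_apply (hψ : ψ 1 ≠ 1) (u : DL × DL) (x : TA k) :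
    rhoD ψ hψ u x = hatL ψ u.1.1 * x * rt k u.2.1⁻¹ := rfl

lemma coeff_rhoD (hψ : ψ 1 ≠ 1) (u : DL × DL) (x : TA k) (l : MonL) :
    (rhoD ψ hψ u x).coeff l = Jp ψ (u.1.1.1.c 0) * x.coeff (u.1.1⁻¹ * l * u.2.1) := by
  rw [rhoD_apply]
  unfold hatL rt
  rw [MonoidAlgebra.coeff_mul_single_apply, mul_one, MonoidAlgebra.coeff_single_mul_apply, inv_inv,
    mul_assoc]

lemma rhoD_FC (hψ : ψ 1 ≠ 1) (u : DL × DL) (x : TA k) (hx : x ∈ FC k) :
    rhoD ψ hψ u x ∈ FC k := by
  obtain ⟨hx, hx'⟩ := hx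
  refine ⟨fun l hl => ?_, fun l r c hc => ?_⟩
  · rw [coeff_rhoD, hx, mul_zero]
    intro h
    apply hl
    rw [Subgroup.mul_mem_cancel_right _ u.2.2] at h
    exact (Subgroup.mul_mem_cancel_left _ (inv_mem u.1.2)).1 h
  · rw [coeff_rhoD, Matrix.mul_apply]
    exact Finset.sum_eq_zero (fun j _ => by rw [hx' _ _ _ hc, mul_zero])

/-- The element of `DL` acting by the square root of `-1` on the first axis. -/
def uL : MonL := ⟨⟨fun _ => 1, Equiv.swap 1 2⟩, by
  rw [mem_MonL]; decide⟩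

lemma uL_mem : uL ∈ DL := by
  change Equiv.swap (1 : Fin 3) 2 0 = 0
  decide

/-- The fixed vectors in `FC`. -/
lemma fixed_FC (hψ : ψ 1 ≠ 1) {x : TA k} (hx : x ∈ FC k) (hfix : ∀ u, rhoD ψ hψ u x = x) :
    (∀ l ∈ DL, x.coeff l = x.coeff 1) ∧ x.coeff 1 0 0 = 0 ∧ x.coeff 1 1 0 = x.coeff 1 2 0 := by
  have h1 : ∀ u : DL × DL, ∀ l, Jp ψ (u.1.1.1.c 0) * x.coeff (u.1.1⁻¹ * l * u.2.1) = x.coeff l := by
    intro u l
    rw [← coeff_rhoD ψ hψ, hfix u]
  have h2 : ∀ l ∈ DL, x.coeff l = x.coeff 1 := by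
    intro l hl
    have := h1 (1, ⟨l, hl⟩) 1
    change Jp ψ 0 * x.coeff ((1 : MonL)⁻¹ * 1 * l) = x.coeff 1 at this
    rwa [Jp_zero, one_mul, inv_one, one_mul, one_mul] at this
  have h3 : Jm ψ * x.coeff 1 = x.coeff 1 := by
    have := h1 (⟨uL, uL_mem⟩, 1) 1
    change Jp ψ 1 * x.coeff (uL⁻¹ * 1 * 1) = x.coeff 1 at this
    rw [Jp_one, mul_one, mul_one, h2 _ (inv_mem uL_mem)] at this
    exact this
  refine ⟨h2, ?_⟩
  refine fixed_Jm ψ hψ (fun r => x.coeff 1 r 0) ?_
  funext r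
  have h4 := congrFun (congrFun h3 r) 0
  rw [Matrix.mul_apply] at h4
  exact h4

lemma fixed_prop (hψ : ψ 1 ≠ 1) {x y : TA k} (hx : x ∈ FC k) (hy : y ∈ FC k)
    (hfx : ∀ u, rhoD ψ hψ u x = x) (hfy : ∀ u, rhoD ψ hψ u y = y) (hx0 : x ≠ 0) :
    ∃ c : k, y = c • x := by
  obtain ⟨hx1, hx2, hx3⟩ := fixed_FC ψ hψ hx hfx
  obtain ⟨hy1, hy2, hy3⟩ := fixed_FC ψ hψ hy hfy
  have hne : x.coeff 1 1 0 ≠ 0 := by
    intro h
    apply hx0
    have hX : x.coeff 1 = 0 := by
      ext r c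
      by_cases hc : c = 0
      · subst hc
        have hr : ∀ r : ZMod 3, r = 0 ∨ r = 1 ∨ r = 2 := by decide
        rcases hr r with rfl | rfl | rfl
        · exact hx2
        · exact h
        · rw [← hx3]; exact h
      · exact hx.2 _ _ _ hc
    apply MonoidAlgebra.ext
    ext l : 1
    by_cases hl : l ∈ DL
    · rw [hx1 l hl, hX]; rfl
    · rw [hx.1 l hl]; rfl
  refine ⟨y.coeff 1 1 0 / x.coeff 1 1 0, ?_⟩
  have hY : y.coeff 1 = (y.coeff 1 1 0 / x.coeff 1 1 0) • x.coeff 1 := by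
    ext r c
    rw [Matrix.smul_apply, smul_eq_mul]
    by_cases hc : c = 0
    · subst hc
      have hr : ∀ r : ZMod 3, r = 0 ∨ r = 1 ∨ r = 2 := by decide
      rcases hr r with rfl | rfl | rfl
      · rw [hx2, hy2, mul_zero]
      · rw [div_mul_cancel₀ _ hne]
      · rw [← hx3, ← hy3, div_mul_cancel₀ _ hne]
    · rw [hx.2 _ _ _ hc, hy.2 _ _ _ hc, mul_zero]
  apply MonoidAlgebra.ext
  ext l : 1
  rw [MonoidAlgebra.coeff_smul, Finsupp.smul_apply]
  by_cases hl : l ∈ DL
  · rw [hx1 l hl, hy1 l hl]; exact hY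
  · rw [hx.1 l hl, hy.1 l hl, smul_zero]

/-- An idempotent of the target algebra, supported on `DL` and commuting with all `hatL ψ u`, is
`0` or `1`. -/
lemma idem_TA (hψ : ψ 1 ≠ 1) {E : TA k} (hEE : E * E = E) (hED : ∀ l, l ∉ DL → E.coeff l = 0)
    (hcomm : ∀ u ∈ DL, hatL ψ u * E = E * hatL ψ u) : E = 0 ∨ E = 1 := by
  classical
  -- existence of nonzero fixed vectors in the image of an idempotent
  have key : ∀ F : TA k, F * F = F → (∀ l, l ∉ DL → F.coeff l = 0) →
      (∀ u ∈ DL, hatL ψ u * F = F * hatL ψ u) → F ≠ 0 →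
      ∃ x ∈ FC k, x ≠ 0 ∧ F * x = x ∧ ∀ u, rhoD ψ hψ u x = x := by
    intro F hFF hFD hFc hF0
    let WF : AddSubgroup (TA k) :=
      { carrier := {x | x ∈ FC k ∧ F * x = x}
        zero_mem' := ⟨(FC k).zero_mem, mul_zero F⟩
        add_mem' := by
          rintro x y ⟨hx, hx'⟩ ⟨hy, hy'⟩
          exact ⟨(FC k).add_mem hx hy, by rw [mul_add, hx', hy']⟩
        neg_mem' := by
          rintro x ⟨hx, hx'⟩
          refine ⟨(FC k).neg_mem hx, ?_⟩
          have h := mul_neg F x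
          rw [hx'] at h
          exact h }
    -- a nonzero element
    obtain ⟨l0, hl0⟩ : ∃ l0, F.coeff l0 ≠ 0 := by
      by_contra hcon
      push Not at hcon
      apply hF0
      apply MonoidAlgebra.ext
      ext l : 1
      rw [hcon l]; rfl
    obtain ⟨r0, c0, hrc⟩ : ∃ r0 c0, F.coeff l0 r0 c0 ≠ 0 := by
      by_contra hcon
      push Not at hcon
      exact hl0 (by ext r c; exact hcon r c)
    let y : TA k := F * MonoidAlgebra.single 1 (Matrix.single c0 0 1)
    have hyc : ∀ l, y.coeff l = F.coeff l * Matrix.single c0 0 1 := by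
      intro l
      change (F * MonoidAlgebra.single 1 (Matrix.single c0 0 1)).coeff l = _
      rw [MonoidAlgebra.coeff_mul_single_apply, inv_one, mul_one]
    have hyW : y ∈ WF := by
      refine ⟨⟨fun l hl => ?_, fun l r c hc => ?_⟩, ?_⟩
      · rw [hyc, hFD l hl, zero_mul]
      · rw [hyc, Matrix.mul_apply]
        refine Finset.sum_eq_zero (fun j _ => ?_)
        rw [Matrix.single_apply, if_neg, mul_zero]
        rintro ⟨-, h⟩
        exact hc h.symm
      · change F * (F * _) = F * _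
        rw [← mul_assoc, hFF]
    have hy0 : y ≠ 0 := by
      intro h
      apply hrc
      have h1 : y.coeff l0 r0 0 = F.coeff l0 r0 c0 := by
        rw [hyc, Matrix.mul_apply, Finset.sum_eq_single c0]
        · rw [Matrix.single_apply, if_pos ⟨rfl, rfl⟩, mul_one]
        · intro j _ hj
          rw [Matrix.single_apply, if_neg (fun hh => hj hh.1.symm), mul_zero]
        · intro hh
          exact absurd (Finset.mem_univ _) hh
      rw [← h1, h]
      simp
    have hDLp : IsPGroup 2 DL := IsPGroup.of_card (n := 4) (by rw [card_DL]; norm_num)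
    obtain ⟨x, hxW, hx0, hxfix⟩ := exists_fixed_vector (isPGroup_prod hDLp)
      (U := TA k) (fun x => by
        rw [two_nsmul]
        apply MonoidAlgebra.ext
        ext l r c
        rw [MonoidAlgebra.coeff_add, Finsupp.add_apply, Matrix.add_apply]
        have h2 : (2 : k) = 0 := CharP.cast_eq_zero k 2
        change _ = (0 : k)
        linear_combination (x.coeff l r c) * h2)
      (rhoD ψ hψ) WF (fun u x hx => ⟨rhoD_FC ψ hψ u x hx.1, by
        rw [rhoD_apply, ← mul_assoc, ← mul_assoc, ← hFc _ u.1.2, mul_assoc (hatL ψ _) F, hx.2]⟩)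
      hyW hy0
    exact ⟨x, hxW.1, hx0, hxW.2, hxfix⟩
  by_cases hE0 : E = 0
  · exact Or.inl hE0
  right
  by_contra hE1
  obtain ⟨x, hx, hx0, hEx, hxfix⟩ := key E hEE hED hcomm hE0
  have h1E : (1 - E) * (1 - E) = 1 - E := by
    rw [sub_mul, one_mul, mul_sub, mul_one, hEE, sub_self, sub_zero]
  obtain ⟨y, hy, hy0, hEy, hyfix⟩ := key (1 - E) h1E
    (fun l hl => by
      have h1 : (1 : TA k).coeff l = 0 := by
        have hne : (1 : MonL) ≠ l := fun h => hl (by rw [← h]; exact one_mem _)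
        rw [MonoidAlgebra.one_def, MonoidAlgebra.coeff_single, Finsupp.single_apply, if_neg hne]
      rw [MonoidAlgebra.coeff_sub, Finsupp.sub_apply, hED l hl, h1, sub_zero])
    (fun u hu => by rw [mul_sub, sub_mul, hcomm u hu, mul_one, one_mul])
    (fun h => hE1 (sub_eq_zero.1 h).symm)
  obtain ⟨c, hc⟩ := fixed_prop ψ hψ hx hy hxfix hyfix hx0
  have h2 : E * y = y := by rw [hc, mul_smul_comm, hEx]
  have h3 : (1 - E) * y = 0 := by rw [sub_mul, one_mul, h2, sub_self]
  rw [h3] at hEy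
  exact hy0 hEy.symm

/-- Lemma A. -/
theorem lemmaA (hψ : ψ 1 ≠ 1) {f : MonoidAlgebra k GG}
    (hf : f ∈ centralizerAlgebra k (Subgroup.zpowers zG)) (hff : f * f = f)
    (hcomm : ∀ u ∈ DG, elt k u * f = f * elt k u) (hfβ : f * betaK ψ = f) :
    f = 0 ∨ f = betaK ψ := by
  classical
  have hfC := inC_mul_iff hf
  have hE : ∀ l, l ∉ DL → (Phi ψ f).coeff l = 0 := by
    intro l hl
    rw [Phi_apply, MonoidAlgebra.coeff_sum, Finsupp.finsetSum_apply]
    refine Finset.sum_eq_zero (fun g _ => ?_)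
    rw [MonoidAlgebra.coeff_smul, Finsupp.smul_apply]
    by_cases hg : f.coeff g = 0
    · rw [hg, zero_smul]
    · have h1 : g.right ∈ DL := (hfC g hg).2.2
      have h2 : (Rg ψ g).coeff l = 0 := by
        unfold Rg
        rw [MonoidAlgebra.coeff_single, Finsupp.single_apply, if_neg (fun h => hl (by rw [← h]; exact h1))]
      rw [h2, smul_zero]
  have hsupp : ∀ u ∈ DL, ∀ g, (elt k (SemidirectProduct.inr u : GG)).coeff g ≠ 0 → InC g := by
    intro u hu g hg
    have : g = SemidirectProduct.inr u := by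
      by_contra hne
      exact hg (by simp [Ne.symm hne])
    rw [this]
    exact inC_inr hu
  have hc : ∀ u ∈ DL, hatL ψ u * Phi ψ f = Phi ψ f * hatL ψ u := by
    intro u hu
    rw [hatL_eq, ← Phi_elt, ← Phi_mul ψ hψ (hsupp u hu) hfC, ← Phi_mul ψ hψ hfC (hsupp u hu),
      hcomm _ ⟨u, hu, rfl⟩]
  have hEE : Phi ψ f * Phi ψ f = Phi ψ f := by
    rw [← Phi_mul ψ hψ hfC hfC, hff]
  rcases idem_TA ψ hψ hEE hE hc with h | h
  · left
    exact Phi_injective ψ hψ hf hfβ h
  · right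
    have h1 : Phi ψ (f - betaK ψ) = 0 := by
      rw [map_sub, h, Phi_betaK, sub_self]
    have hβmem : betaK ψ ∈ centralizerAlgebra k (Subgroup.zpowers zG) := fun g hg =>
      Subgroup.center_le_centralizer _ (betaK_support ψ g hg)
    have h2 : f - betaK ψ ∈ centralizerAlgebra k (Subgroup.zpowers zG) := by
      intro g hg
      by_contra hcon
      apply hg
      rw [MonoidAlgebra.coeff_sub, Finsupp.sub_apply, not_not.1 (fun h => hcon (hf g h)),
        not_not.1 (fun h => hcon (hβmem g h)), sub_zero]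
    have h3 : (f - betaK ψ) * betaK ψ = f - betaK ψ := by
      rw [sub_mul, hfβ, betaK_mul_self]
    exact sub_eq_zero.1 (Phi_injective ψ hψ h2 h3 h1)

end Pool.Agent.BlockFusion
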