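import Mathlib

set_option autoImplicit false

/-!
Arithmetic identities which express binomial coefficients, factorials and the products
`∏ (1 + (k+1) t)` through powers, sums, products, quotients and remainders.
-/

namespace Pool.Agent.LibH36.MRDP

open Finset

theorem choose_eq_digit (n k u : ℕ) (hu : 2 ^ n < u) :
    n.choose k = ((u + 1) ^ n / u ^ k) % u := by
  have hu1 : 1 < u := lt_of_le_of_lt Nat.one_le_two_pow hu
  have hsum : (u + 1) ^ n = Nat.ofDigits u ((List.range (n + 1)).map (fun m => n.choose m)) := by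
    rw [Nat.ofDigits_eq_sum_mapIdx, add_pow]
    rw [List.mapIdx_eq_zipIdx_map] 
    simp only [one_pow, mul_one]
    rw [Finset.sum_range, ← List.sum_ofFn]
    congr 1
    apply List.ext_getElem
    · simp
    · intro i h1 h2
      simp [mul_comm, -List.ofFn_succ]
  have hdig : Nat.digits u ((u + 1) ^ n) = (List.range (n + 1)).map (fun m => n.choose m) := by
    rw [hsum]
    apply Nat.digits_ofDigits u hu1
    · intro l hl
      simp only [List.mem_map, List.mem_range] at hl
      obtain ⟨m, _, rfl⟩ := hl
      exact lt_of_le_of_lt (Nat.choose_le_two_pow n m) hu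
    · intro h
      simp
  rw [← Nat.getD_digits _ _ hu1, hdig]
  by_cases hk : k < n + 1
  · rw [List.getD_eq_getElem _ _ (by simpa using hk)]
    simp
  · rw [List.getD_eq_default _ _ (by simpa using hk)]
    exact Nat.choose_eq_zero_of_lt (by omega)

theorem pow_add_le (N c : ℕ) : ∀ j : ℕ, (N + c) ^ (j + 1) ≤ N ^ (j + 1) + (j + 1) * c * (N + c) ^ j
  | 0 => by simp
  | j + 1 => by
    have ih := pow_add_le N c j
    calc (N + c) ^ (j + 1 + 1) = (N + c) ^ (j + 1) * N + c * (N + c) ^ (j + 1) := by ring
      _ ≤ (N ^ (j + 1) + (j + 1) * c * (N + c) ^ j) * N + c * (N + c) ^ (j + 1) := by gcongr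
      _ = N ^ (j + 1 + 1) + (j + 1) * c * (N + c) ^ j * N + c * (N + c) ^ (j + 1) := by ring
      _ ≤ N ^ (j + 1 + 1) + (j + 1) * c * (N + c) ^ j * (N + c) + c * (N + c) ^ (j + 1) := by
          gcongr; omega
      _ = N ^ (j + 1 + 1) + (j + 1 + 1) * c * (N + c) ^ (j + 1) := by ring

theorem factorial_eq_div (r n : ℕ) (hn : (r ^ r + 1) * r ^ 2 < n) :
    r.factorial = n ^ r / n.choose r := by
  rcases Nat.eq_zero_or_pos r with rfl | hr
  · simp
  have hfac : r.factorial ≤ r ^ r := Nat.factorial_le_pow r
  have hrn : r < n := by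
    have : r ≤ (r ^ r + 1) * r ^ 2 := by nlinarith [Nat.one_le_pow r r hr]
    omega
  have hD1 : n.descFactorial r = r.factorial * n.choose r := Nat.descFactorial_eq_factorial_mul_choose n r
  have hD2 : n.descFactorial r ≤ n ^ r := Nat.descFactorial_le_pow n r
  have hD3 : (n + 1 - r) ^ r ≤ n.descFactorial r := Nat.pow_sub_le_descFactorial n r
  have hD4 : (n - r) ^ r ≤ n.descFactorial r :=
    le_trans (Nat.pow_le_pow_left (by omega) r) hD3
  obtain ⟨j, rfl⟩ : ∃ j, r = j + 1 := ⟨r - 1, by omega⟩
  set r := j + 1 with hrdef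
  have hB := pow_add_le (n - r) r j
  rw [Nat.sub_add_cancel hrn.le] at hB
  have hcpos : 0 < n.choose r := Nat.choose_pos hrn.le
  have hnpos : 0 < n ^ j := Nat.pow_pos (by omega)
  -- n ^ r ≤ D + r * r * n ^ j
  have h1 : n ^ r ≤ n.descFactorial r + r * r * n ^ j := by
    calc n ^ r = n ^ (j + 1) := rfl
      _ ≤ (n - r) ^ (j + 1) + (j + 1) * r * n ^ j := hB
      _ ≤ _ := by gcongr
  have h2 : r.factorial * n ^ r < (r.factorial + 1) * n.descFactorial r := by
    have h3 : r.factorial * n ^ r ≤ r.factorial * n.descFactorial r + r.factorial * (r * r * n ^ j) := by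
      calc r.factorial * n ^ r ≤ r.factorial * (n.descFactorial r + r * r * n ^ j) := by gcongr
        _ = _ := by ring
    have h4 : r.factorial * (r * r * n ^ j) < n.descFactorial r := by
      have h5 : n ^ j * n ≤ n.descFactorial r + r * r * n ^ j := by
        rw [← pow_succ]; exact h1
      have h6 : (r.factorial + 1) * (r * r) * n ^ j < n * n ^ j := by
        apply Nat.mul_lt_mul_of_pos_right _ hnpos
        calc (r.factorial + 1) * (r * r) ≤ (r ^ r + 1) * (r * r) := by gcongr
          _ = (r ^ r + 1) * r ^ 2 := by ring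
          _ < n := hn
      nlinarith
    calc r.factorial * n ^ r ≤ _ := h3
      _ < r.factorial * n.descFactorial r + n.descFactorial r := by omega
      _ = _ := by ring
  symm
  apply Nat.div_eq_of_lt_le
  · calc r.factorial * n.choose r = n.descFactorial r := hD1.symm
      _ ≤ n ^ r := hD2
  · have hfpos : 0 < r.factorial := Nat.factorial_pos r
    have : r.factorial * n ^ r < r.factorial * ((r.factorial + 1) * n.choose r) := by
      calc r.factorial * n ^ r < (r.factorial + 1) * n.descFactorial r := h2
        _ = r.factorial * ((r.factorial + 1) * n.choose r) := by rw [hD1]; ring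
    exact Nat.lt_of_mul_lt_mul_left this

/-- `∏_{k < y} (1 + (k+1) t)` -/
def linprod (y t : ℕ) : ℕ := ∏ k ∈ range y, (1 + (k + 1) * t)

theorem linprod_eq (y t : ℕ) (ht : 0 < t) :
    linprod y t =
      (t ^ y * (y.factorial * ((t * (1 + y * t) ^ y + 1 - (1 + y * t) ^ y) + y).choose y)) %
        (t * (1 + y * t) ^ y + 1) := by
  set L := (1 + y * t) ^ y with hL
  have hLpos : 0 < L := Nat.pow_pos (by omega)
  set q := t * L + 1 - L with hq
  have hqL : q + L = t * L + 1 := by
    have : L ≤ t * L := Nat.le_mul_of_pos_left L ht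
    omega
  have hlt : linprod y t < t * L + 1 := by
    have h1 : linprod y t ≤ L := by
      calc linprod y t ≤ ∏ k ∈ range y, (1 + y * t) := by
            apply Finset.prod_le_prod'
            intro k hk
            have : k + 1 ≤ y := Finset.mem_range.mp hk
            gcongr
        _ = L := by simp [hL]
    have : L ≤ t * L := Nat.le_mul_of_pos_left L ht
    omega
  have hasc : y.factorial * (q + y).choose y = ∏ k ∈ range y, (q + 1 + k) := by
    rw [← Nat.ascFactorial_eq_factorial_mul_choose, Nat.ascFactorial_eq_prod_range]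
  rw [hasc]
  have hmod : linprod y t ≡ t ^ y * ∏ k ∈ range y, (q + 1 + k) [MOD (t * L + 1)] := by
    have htq : t * q ≡ 1 [MOD (t * L + 1)] := by
      have : t * q + (t * L + 1) * 1 = 1 + (t * L + 1) * t := by
        have h5 : t * (q + L) = t * (t * L + 1) := congrArg (fun z => t * z) hqL
        nlinarith
      have h2 : t * q + (t * L + 1) * 1 ≡ 1 + (t * L + 1) * t [MOD (t * L + 1)] := by rw [this]
      have h3 : t * q + (t * L + 1) * 1 ≡ t * q [MOD (t * L + 1)] := by
        simp [Nat.ModEq]
      have h4 : 1 + (t * L + 1) * t ≡ 1 [MOD (t * L + 1)] := by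
        simp [Nat.ModEq]
      exact h3.symm.trans (h2.trans h4)
    have hpow : t ^ y * ∏ k ∈ range y, (q + 1 + k) = ∏ k ∈ range y, (t * (q + 1 + k)) := by
      rw [Finset.prod_mul_distrib]; simp
    rw [hpow, linprod]
    apply Nat.ModEq.symm
    have key : ∀ s : Finset ℕ, ∏ k ∈ s, (t * (q + 1 + k)) ≡ ∏ k ∈ s, (1 + (k + 1) * t)
        [MOD (t * L + 1)] := by
      intro s
      induction s using Finset.induction_on with
      | empty => simp [Nat.ModEq]
      | insert a s ha ih =>
        rw [Finset.prod_insert ha, Finset.prod_insert ha]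
        apply Nat.ModEq.mul _ ih
        have : t * (q + 1 + a) = t * q + (a + 1) * t := by ring
        rw [this]
        exact htq.add_right _
    exact key _
  rw [← hmod, Nat.mod_eq_of_lt hlt]

end Pool.Agent.LibH36.MRDP
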