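import Mathlib
import Pool.Agent.Lib_helper36.MRDPArith

set_option autoImplicit false

/-!
Diophantine sets are closed under bounded universal quantification.
-/

namespace Pool.Agent.LibH36.MRDP

open Finset Dioph

open scoped Dioph

section fns
variable {α : Type} {f g : (α → ℕ) → ℕ}

theorem choose_dioph (df : DiophFn f) (dg : DiophFn g) : DiophFn fun v => (f v).choose (g v) := by
  have h2 : DiophFn fun v : α → ℕ => 2 := const_dioph 2
  have h1 : DiophFn fun v : α → ℕ => 1 := const_dioph 1
  have hu : DiophFn fun v => 2 ^ f v + 1 := add_dioph (pow_dioph h2 df) h1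
  have := mod_dioph (div_dioph (pow_dioph (add_dioph hu h1) df) (pow_dioph hu dg)) hu
  refine cast (congrArg DiophFn (funext fun v => ?_)) this
  exact (choose_eq_digit (f v) (g v) (2 ^ f v + 1) (by omega)).symm

theorem factorial_dioph (df : DiophFn f) : DiophFn fun v => (f v).factorial := by
  have h2 : DiophFn fun v : α → ℕ => 2 := const_dioph 2
  have h1 : DiophFn fun v : α → ℕ => 1 := const_dioph 1
  have hn : DiophFn fun v => (f v ^ f v + 1) * f v ^ 2 + 1 :=
    add_dioph (mul_dioph (add_dioph (pow_dioph df df) h1) (pow_dioph df h2)) h1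
  have := div_dioph (pow_dioph hn df) (choose_dioph hn df)
  refine cast (congrArg DiophFn (funext fun v => ?_)) this
  exact (factorial_eq_div (f v) _ (by omega)).symm

theorem descFactorial_dioph (df : DiophFn f) (dg : DiophFn g) :
    DiophFn fun v => (f v).descFactorial (g v) := by
  have := mul_dioph (factorial_dioph dg) (choose_dioph df dg)
  refine cast (congrArg DiophFn (funext fun v => ?_)) this
  exact (Nat.descFactorial_eq_factorial_mul_choose _ _).symm

theorem linprod_dioph (df : DiophFn f) (dg : DiophFn g) (hg : ∀ v, 0 < g v) :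
    DiophFn fun v => linprod (f v) (g v) := by
  have h1 : DiophFn fun v : α → ℕ => 1 := const_dioph 1
  have hL : DiophFn fun v => (1 + f v * g v) ^ f v :=
    pow_dioph (add_dioph h1 (mul_dioph df dg)) df
  have hM : DiophFn fun v => g v * (1 + f v * g v) ^ f v + 1 := add_dioph (mul_dioph dg hL) h1
  have hc : DiophFn fun v =>
      (((g v * (1 + f v * g v) ^ f v + 1 - (1 + f v * g v) ^ f v) + f v).choose (f v)) :=
    choose_dioph (add_dioph (sub_dioph hM hL) df) df
  have := mod_dioph (mul_dioph (pow_dioph dg df) (mul_dioph (factorial_dioph df) hc)) hM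
  refine cast (congrArg DiophFn (funext fun v => ?_)) this
  exact (linprod_eq (f v) (g v) (hg v)).symm

end fns

/-! ### Polynomials: finite support, congruences and bounds -/

theorem poly_congr {γ : Type} (p : Poly γ) :
    ∃ s : Finset γ, ∀ (m : ℕ) (v v' : γ → ℕ), (∀ i ∈ s, v i ≡ v' i [MOD m]) →
      p v ≡ p v' [ZMOD m] := by
  classical
  induction p using Poly.induction with
  | H1 i =>
    refine ⟨{i}, fun m v v' h => ?_⟩
    have := h i (by simp)
    simpa using (Int.natCast_modEq_iff.mpr this)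
  | H2 n => exact ⟨∅, fun m v v' _ => by simp⟩
  | H3 f g hf hg =>
    obtain ⟨s, hs⟩ := hf
    obtain ⟨t, ht⟩ := hg
    refine ⟨s ∪ t, fun m v v' h => ?_⟩
    exact (hs m v v' fun i hi => h i (Finset.mem_union_left _ hi)).sub
      (ht m v v' fun i hi => h i (Finset.mem_union_right _ hi))
  | H4 f g hf hg =>
    obtain ⟨s, hs⟩ := hf
    obtain ⟨t, ht⟩ := hg
    refine ⟨s ∪ t, fun m v v' h => ?_⟩
    exact (hs m v v' fun i hi => h i (Finset.mem_union_left _ hi)).mul
      (ht m v v' fun i hi => h i (Finset.mem_union_right _ hi))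

theorem poly_bound {γ : Type} (p : Poly γ) :
    ∃ B : (γ → ℕ) → ℕ,
      (∀ (δ : Type) (h : γ → (δ → ℕ) → ℕ), (∀ i, DiophFn (h i)) →
        DiophFn fun w => B fun i => h i w) ∧
      (∀ v v' : γ → ℕ, (∀ i, v i ≤ v' i) → B v ≤ B v') ∧
      ∀ v, (p v).natAbs ≤ B v := by
  induction p using Poly.induction with
  | H1 i => exact ⟨fun v => v i, fun δ h hh => hh i, fun v v' h => h i, fun v => by simp⟩
  | H2 n => exact ⟨fun _ => n.natAbs, fun δ h hh => const_dioph _, fun _ _ _ => le_rfl,
      fun v => by simp⟩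
  | H3 f g hf hg =>
    obtain ⟨B, hB1, hB2, hB3⟩ := hf
    obtain ⟨C, hC1, hC2, hC3⟩ := hg
    refine ⟨fun v => B v + C v, fun δ h hh => add_dioph (hB1 δ h hh) (hC1 δ h hh),
      fun v v' h => add_le_add (hB2 v v' h) (hC2 v v' h), fun v => ?_⟩
    have h1 := hB3 v
    have h2 := hC3 v
    have h3 : (f - g) v = f v - g v := rfl
    rw [h3]
    show (f v - g v).natAbs ≤ B v + C v
    omega
  | H4 f g hf hg =>
    obtain ⟨B, hB1, hB2, hB3⟩ := hf
    obtain ⟨C, hC1, hC2, hC3⟩ := hg
    refine ⟨fun v => B v * C v, fun δ h hh => mul_dioph (hB1 δ h hh) (hC1 δ h hh),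
      fun v v' h => Nat.mul_le_mul (hB2 v v' h) (hC2 v v' h), fun v => ?_⟩
    have h3 : (f * g) v = f v * g v := rfl
    rw [h3, Int.natAbs_mul]
    exact Nat.mul_le_mul (hB3 v) (hC3 v)

/-! ### The number-theoretic core -/

theorem coprime_aux {T i j : ℕ} (hij : i < j) (hd : j - i ∣ T) :
    Nat.Coprime (1 + i * T) (1 + j * T) := by
  have h1 : Nat.Coprime (1 + i * T) ((j - i) * T) := by
    have hT : Nat.Coprime (1 + i * T) T := by
      rw [Nat.coprime_comm]
      exact (Nat.coprime_add_mul_right_right T 1 i).mpr (Nat.coprime_one_right T)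
    exact Nat.Coprime.mul_right (hT.coprime_dvd_right hd) hT
  have h2 : 1 + j * T = (j - i) * T + (1 + i * T) := by
    obtain ⟨d, rfl⟩ := Nat.exists_eq_add_of_lt hij
    have : i + d + 1 - i = d + 1 := by omega
    rw [this]; ring
  rw [h2]
  simpa using h1

theorem coprime_self {T k : ℕ} : Nat.Coprime (1 + k * T) T := by
  rw [Nat.coprime_comm]
  exact (Nat.coprime_add_mul_right_right T 1 k).mpr (Nat.coprime_one_right T)

theorem linprod_modEq (y T : ℕ) : ∃ C : ℕ, linprod y T = 1 + C * T := by
  induction y with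
  | zero => exact ⟨0, by simp [linprod]⟩
  | succ y ih =>
    obtain ⟨C, hC⟩ := ih
    refine ⟨C + (y + 1) + C * (y + 1) * T, ?_⟩
    have : linprod (y + 1) T = linprod y T * (1 + (y + 1) * T) := by
      simp [linprod, Finset.prod_range_succ]
    rw [this, hC]; ring

theorem cmod {T C k : ℕ} (h : 1 + k * T ∣ 1 + C * T) : C ≡ k [MOD 1 + k * T] := by
  have h1 : 1 + C * T ≡ 1 + k * T [MOD 1 + k * T] :=
    ((Nat.modEq_zero_iff_dvd.mpr h).trans (Nat.modEq_zero_iff_dvd.mpr dvd_rfl).symm)
  have h2 : C * T ≡ k * T [MOD 1 + k * T] := Nat.ModEq.add_left_cancel' 1 h1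
  exact Nat.ModEq.cancel_right_of_coprime (coprime_self) h2

theorem core {β : Type} (s : Finset β) (P : ℕ → (β → ℕ) → ℤ) (B : ℕ → ℕ) (y : ℕ)
    (hcongr : ∀ (m k k' : ℕ) (t t' : β → ℕ), k ≡ k' [MOD m] → (∀ b ∈ s, t b ≡ t' b [MOD m]) →
      P k t ≡ P k' t' [ZMOD m])
    (hbound : ∀ (u k : ℕ) (t : β → ℕ), k ≤ y → (∀ b, t b ≤ u) → (P k t).natAbs ≤ B u) :
    (∀ k, 1 ≤ k → k ≤ y → ∃ t, P k t = 0) ↔
      ∃ u C : ℕ, ∃ a : β → ℕ,
        linprod y ((B u + u + y + 1).factorial) = 1 + C * (B u + u + y + 1).factorial ∧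
        (∀ b ∈ s, 1 + C * (B u + u + y + 1).factorial ∣ (a b).descFactorial (u + 1)) ∧
        1 + C * (B u + u + y + 1).factorial ∣ (P C a).natAbs := by
  classical
  constructor
  · intro h
    -- choose witnesses, supported in `s`
    have h' : ∀ k : ℕ, ∃ t : β → ℕ, (1 ≤ k → k ≤ y → P k t = 0) ∧ ∀ b, b ∉ s → t b = 0 := by
      intro k
      by_cases hk : 1 ≤ k ∧ k ≤ y
      · obtain ⟨t, ht⟩ := h k hk.1 hk.2
        refine ⟨fun b => if b ∈ s then t b else 0, fun _ _ => ?_, fun b hb => by simp [hb]⟩
        have := hcongr 0 k k (fun b => if b ∈ s then t b else 0) t rfl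
          (fun b hb => by simp [hb, Nat.ModEq])
        rw [ht] at this
        simpa [Int.ModEq] using this
      · exact ⟨fun _ => 0, fun h1 h2 => absurd ⟨h1, h2⟩ hk, fun _ _ => rfl⟩
    choose t ht hts using h'
    obtain ⟨u, hu⟩ : ∃ u, ∀ k ≤ y, ∀ b, t k b ≤ u := by
      refine ⟨(Finset.range (y + 1)).sup fun k => s.sup fun b => t k b, fun k hk b => ?_⟩
      by_cases hb : b ∈ s
      · calc t k b ≤ s.sup fun b => t k b := Finset.le_sup (f := fun b => t k b) hb
          _ ≤ _ := Finset.le_sup (f := fun k => s.sup fun b => t k b)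
              (Finset.mem_range.mpr (Nat.lt_succ_of_le hk))
      · simp [hts k b hb]
    set Q := B u + u + y + 1 with hQ
    set T := Q.factorial with hT
    obtain ⟨C, hC⟩ := linprod_modEq y T
    have hTpos : 0 < T := Nat.factorial_pos _
    -- pairwise coprimality
    have hcop : ∀ i ∈ Finset.range y, ∀ j ∈ Finset.range y, i ≠ j →
        Nat.Coprime (1 + (i + 1) * T) (1 + (j + 1) * T) := by
      intro i hi j hj hij
      rw [Finset.mem_range] at hi hj
      rcases Nat.lt_or_gt_of_ne hij with h1 | h1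
      · apply coprime_aux (by omega)
        apply Nat.dvd_factorial (by omega) (by omega)
      · apply Nat.Coprime.symm
        apply coprime_aux (by omega)
        apply Nat.dvd_factorial (by omega) (by omega)
    have hpp : Set.Pairwise (↑(Finset.range y) : Set ℕ)
        (Function.onFun Nat.Coprime fun i => 1 + (i + 1) * T) := by
      intro i hi j hj hij
      exact hcop i (by simpa using hi) j (by simpa using hj) hij
    have hcrt : ∀ b : β, ∃ a : ℕ, ∀ i ∈ Finset.range y, a ≡ t (i + 1) b [MOD 1 + (i + 1) * T] := by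
      intro b
      obtain ⟨a, ha⟩ := Nat.chineseRemainderOfFinset (fun i => t (i + 1) b)
        (fun i => 1 + (i + 1) * T) (Finset.range y) (fun i _ => by positivity) hpp
      exact ⟨a, ha⟩
    choose a ha using hcrt
    have hCdvd : ∀ i ∈ Finset.range y, 1 + (i + 1) * T ∣ 1 + C * T := by
      intro i hi
      rw [← hC, linprod]
      exact Finset.dvd_prod_of_mem (fun k => 1 + (k + 1) * T) hi
    have hprod : ∀ z : ℕ, (∀ i ∈ Finset.range y, 1 + (i + 1) * T ∣ z) → 1 + C * T ∣ z := by
      intro z hz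
      rw [← hC, linprod]
      have : ∀ r : Finset ℕ, r ⊆ Finset.range y → (∏ k ∈ r, (1 + (k + 1) * T)) ∣ z := by
        intro r
        induction r using Finset.induction_on with
        | empty => intro _; simp
        | insert c r hc ih =>
          intro hsub
          rw [Finset.prod_insert hc]
          apply Nat.Coprime.mul_dvd_of_dvd_of_dvd _ (hz c (hsub (Finset.mem_insert_self c r)))
            (ih (fun x hx => hsub (Finset.mem_insert_of_mem hx)))
          apply Nat.Coprime.prod_right
          intro j hj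
          exact hcop c (hsub (Finset.mem_insert_self c r)) j (hsub (Finset.mem_insert_of_mem hj))
            (fun h => hc (h ▸ hj))
      exact this _ (Finset.Subset.refl _)
    refine ⟨u, C, a, hC, fun b _ => ?_, ?_⟩
    · apply hprod
      intro i hi
      rw [Nat.descFactorial_eq_prod_range]
      have hle : t (i + 1) b ≤ u := hu _ (by rw [Finset.mem_range] at hi; omega) b
      by_cases hab : t (i + 1) b ≤ a b
      · have h1 : 1 + (i + 1) * T ∣ a b - t (i + 1) b :=
          (Nat.modEq_iff_dvd' hab).mp (ha b i hi).symm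
        exact h1.trans (Finset.dvd_prod_of_mem (fun j => a b - j)
          (Finset.mem_range.mpr (Nat.lt_succ_of_le hle)))
      · have h0 : ∏ j ∈ Finset.range (u + 1), (a b - j) = 0 := by
          apply Finset.prod_eq_zero (i := a b) (Finset.mem_range.mpr (by omega))
          simp
        rw [h0]; exact dvd_zero _
    · apply hprod
      intro i hi
      have h1 : P C a ≡ P (i + 1) (t (i + 1)) [ZMOD ((1 + (i + 1) * T : ℕ) : ℤ)] :=
        hcongr _ _ _ _ _ (cmod (hCdvd i hi)) (fun b _ => ha b i hi)
      rw [ht (i + 1) (by omega) (by rw [Finset.mem_range] at hi; omega)] at h1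
      exact Int.natCast_dvd.mp (Int.modEq_zero_iff_dvd.mp h1)
  · rintro ⟨u, C, a, hC, ha, hP⟩ k hk1 hky
    set Q := B u + u + y + 1 with hQ
    set T := Q.factorial with hT
    have hTpos : 0 < T := Nat.factorial_pos _
    have hne : 1 + k * T ≠ 1 := by
      have : 0 < k * T := Nat.mul_pos hk1 hTpos
      omega
    set q := (1 + k * T).minFac with hq
    have hqp : q.Prime := Nat.minFac_prime hne
    have hqd : q ∣ 1 + k * T := Nat.minFac_dvd _
    have hqQ : Q < q := by
      by_contra hcon
      have h1 : q ∣ T := Nat.dvd_factorial hqp.pos (by omega)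
      have h2 : q ∣ 1 := (Nat.dvd_add_left (Dvd.dvd.mul_left h1 k)).mp hqd
      exact hqp.one_lt.ne' (Nat.dvd_one.mp h2)
    have hdC : 1 + k * T ∣ 1 + C * T := by
      rw [← hC, linprod]
      have := Finset.dvd_prod_of_mem (fun k => 1 + (k + 1) * T)
        (Finset.mem_range.mpr (show k - 1 < y by omega))
      rwa [Nat.sub_add_cancel hk1] at this
    have hqC : q ∣ 1 + C * T := hqd.trans hdC
    have hCk : k ≡ C [MOD q] := ((cmod hdC).of_dvd hqd).symm
    have hab : ∀ b ∈ s, a b % q ≤ u := by
      intro b hb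
      have h1 : q ∣ (a b).descFactorial (u + 1) := hqC.trans (ha b hb)
      rw [Nat.descFactorial_eq_prod_range, Prime.dvd_finsetProd_iff hqp.prime] at h1
      obtain ⟨j, hj, hjd⟩ := h1
      rw [Finset.mem_range] at hj
      by_cases hja : j ≤ a b
      · have h2 : j ≡ a b [MOD q] := (Nat.modEq_iff_dvd' hja).mpr hjd
        have h3 : a b % q = j := by
          rw [← h2]
          exact Nat.mod_eq_of_lt (by omega)
        omega
      · exact (Nat.mod_le _ _).trans (by omega)
    refine ⟨fun b => if b ∈ s then a b % q else 0, ?_⟩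
    have h1 : P k (fun b => if b ∈ s then a b % q else 0) ≡ P C a [ZMOD (q : ℤ)] := by
      apply hcongr _ _ _ _ _ hCk
      intro b hb
      simp only [hb, if_true]
      exact Nat.mod_modEq _ _
    have h2 : (q : ℤ) ∣ P C a := Int.natCast_dvd.mpr (hqC.trans hP)
    have h3 : (q : ℤ) ∣ P k (fun b => if b ∈ s then a b % q else 0) :=
      (Int.ModEq.dvd_iff h1).mpr h2
    have h4 := hbound u k (fun b => if b ∈ s then a b % q else 0) hky (by
      intro b
      by_cases hb : b ∈ s
      · simp only [hb, if_true]; exact hab b hb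
      · simp [hb])
    have h5 : (P k (fun b => if b ∈ s then a b % q else 0)).natAbs = 0 := by
      apply Nat.eq_zero_of_dvd_of_lt (Int.natCast_dvd.mp h3)
      omega
    exact Int.natAbs_eq_zero.mp h5

end Pool.Agent.LibH36.MRDP
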