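import Mathlib
import Pool.Agent.Lib_helper36.MRDPBall

set_option autoImplicit false

/-!
The Matiyasevich-Robinson-Davis-Putnam theorem: every recursively enumerable predicate on `ℕ`
is Diophantine (in the sense of Mathlib's `Dioph`).
-/

namespace Pool.Agent.LibH36.MRDP

open Finset Dioph

open scoped Dioph

theorem univ_dioph {α : Type} : Dioph (Set.univ : Set (α → ℕ)) :=
  Dioph.of_no_dummies _ 0 fun v => by simp

theorem finset_ball_dioph {α ι : Type} (s : Finset ι) (S : ι → Set (α → ℕ))
    (h : ∀ b, Dioph (S b)) : Dioph {v | ∀ b ∈ s, v ∈ S b} := by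
  classical
  induction s using Finset.induction_on with
  | empty => exact Dioph.ext univ_dioph fun v => by simp
  | insert a s ha ih =>
    refine Dioph.ext (Dioph.inter (h a) ih) fun v => ?_
    simp [Finset.mem_insert]

/-- Bounded universal quantification, the bound being an extra variable. -/
theorem ball_dioph' {α : Type} {S : Set (Option α → ℕ)} (hS : Dioph S) :
    Dioph {w : Option α → ℕ | ∀ k, 1 ≤ k → k ≤ w none → (Option.elim' k (w ∘ some)) ∈ S} := by
  classical
  obtain ⟨β, p, pe⟩ := hS
  obtain ⟨s', hs'⟩ := poly_congr p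
  obtain ⟨Bp, hB1, hB2, hB3⟩ := poly_bound p
  set s : Finset β := s'.preimage Sum.inr Sum.inr_injective.injOn with hs
  -- the type of all variables
  let δ : Type := Option (Option (Option α)) ⊕ β
  let C : (δ → ℕ) → ℕ := fun z => z (Sum.inl none)
  let u : (δ → ℕ) → ℕ := fun z => z (Sum.inl (some none))
  let y : (δ → ℕ) → ℕ := fun z => z (Sum.inl (some (some none)))
  have dC : DiophFn C := proj_dioph _
  have du : DiophFn u := proj_dioph _
  have dy : DiophFn y := proj_dioph _
  let h : (Option α ⊕ β) → (δ → ℕ) → ℕ := fun i z =>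
    match i with
    | Sum.inl none => y z
    | Sum.inl (some x) => z (Sum.inl (some (some (some x))))
    | Sum.inr _ => u z
  have dh : ∀ i, DiophFn (h i) := by
    rintro ((_ | x) | b)
    · exact dy
    · exact proj_dioph _
    · exact du
  have dB : DiophFn fun z : δ → ℕ => Bp fun i => h i z := hB1 δ h dh
  have d1 : DiophFn fun _ : δ → ℕ => 1 := const_dioph 1
  let T : (δ → ℕ) → ℕ := fun z => ((Bp fun i => h i z) + u z + y z + 1).factorial
  have dT : DiophFn T := factorial_dioph (add_dioph (add_dioph (add_dioph dB du) dy) d1)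
  have hTpos : ∀ z, 0 < T z := fun z => Nat.factorial_pos _
  have dlin : DiophFn fun z => linprod (y z) (T z) := linprod_dioph dy dT hTpos
  have dM : DiophFn fun z => 1 + C z * T z := add_dioph d1 (mul_dioph dC dT)
  let g : (Option α ⊕ β) → δ := fun i =>
    match i with
    | Sum.inl none => Sum.inl none
    | Sum.inl (some x) => Sum.inl (some (some (some x)))
    | Sum.inr b => Sum.inr b
  have dp : DiophFn fun z : δ → ℕ => (p (z ∘ g)).natAbs := reindex_diophFn g (abs_poly_dioph p)
  have dS2 : Dioph {z : δ → ℕ | linprod (y z) (T z) = 1 + C z * T z ∧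
      (∀ b ∈ s, 1 + C z * T z ∣ (z (Sum.inr b)).descFactorial (u z + 1)) ∧
      1 + C z * T z ∣ (p (z ∘ g)).natAbs} := by
    refine Dioph.inter (eq_dioph dlin dM) (Dioph.inter ?_ (dvd_dioph dM dp))
    exact finset_ball_dioph s (fun b => {z : δ → ℕ | 1 + C z * T z ∣
      (z (Sum.inr b)).descFactorial (u z + 1)}) fun b =>
        dvd_dioph dM (descFactorial_dioph (proj_dioph _) (add_dioph du d1))
  have dS3 := ex1_dioph (ex1_dioph (ex_dioph dS2))
  refine Dioph.ext dS3 fun w => ?_
  -- apply the core
  have hcore := core s (fun k t => p (Sum.elim (Option.elim' k (w ∘ some)) t))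
    (fun u => Bp (Sum.elim (Option.elim' (w none) (w ∘ some)) fun _ => u)) (w none)
    (by
      intro m k k' t t' hk ht
      apply hs' m
      rintro ((_ | x) | b) hb
      · exact hk
      · exact Nat.ModEq.refl _
      · exact ht b (by rw [hs, Finset.mem_preimage]; exact hb))
    (by
      intro u k t hk ht
      refine (hB3 _).trans (hB2 _ _ ?_)
      rintro ((_ | x) | b)
      · exact hk
      · exact le_rfl
      · exact ht b)
  have hL : (∀ k, 1 ≤ k → k ≤ w none → (Option.elim' k (w ∘ some)) ∈ S) ↔
      ∀ k, 1 ≤ k → k ≤ w none → ∃ t, p (Sum.elim (Option.elim' k (w ∘ some)) t) = 0 := by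
    constructor
    · intro h k h1 h2; exact (pe _).mp (h k h1 h2)
    · intro h k h1 h2; exact (pe _).mpr (h k h1 h2)
  show _ ↔ (∀ k, 1 ≤ k → k ≤ w none → (Option.elim' k (w ∘ some)) ∈ S)
  rw [hL, hcore]
  have hBeq : ∀ (c0 u0 : ℕ) (a : β → ℕ),
      (Bp fun i => h i (Sum.elim (Option.elim' c0 (Option.elim' u0 w)) a)) =
        Bp (Sum.elim (Option.elim' (w none) (w ∘ some)) fun _ => u0) := by
    intro c0 u0 a
    congr 1
    funext i
    rcases i with (_ | x) | b <;> rfl
  have hpeq : ∀ (c0 u0 : ℕ) (a : β → ℕ),
      p ((Sum.elim (Option.elim' c0 (Option.elim' u0 w)) a) ∘ g) = p (Sum.elim (Option.elim' c0 (w ∘ some)) a) := by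
    intro c0 u0 a
    congr 1
    funext i
    rcases i with (_ | x) | b <;> rfl
  constructor
  · rintro ⟨u0, c0, a, h1, h2, h3⟩
    refine ⟨u0, c0, a, ?_, ?_, ?_⟩
    · have := h1
      simp only [T, hBeq] at this
      exact this
    · intro b hb
      have := h2 b hb
      simp only [T, hBeq] at this
      exact this
    · have := h3
      simp only [T, hBeq, hpeq] at this
      exact this
  · rintro ⟨u0, c0, a, h1, h2, h3⟩
    refine ⟨u0, c0, a, ?_, ?_, ?_⟩
    · simp only [T, hBeq]
      exact h1
    · intro b hb
      simp only [T, hBeq]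
      exact h2 b hb
    · simp only [T, hBeq, hpeq]
      exact h3

/-- Bounded universal quantification `∀ k < f v`. -/
theorem ball_dioph {α : Type} {S : Set (Option α → ℕ)} (hS : Dioph S) {f : (α → ℕ) → ℕ}
    (hf : DiophFn f) : Dioph {v : α → ℕ | ∀ k, k < f v → (Option.elim' k v) ∈ S} := by
  -- shift `k` by one
  have h1 : Dioph {w : Option α → ℕ | (Option.elim' (w none - 1) (w ∘ some)) ∈ S} := by
    have hr : Dioph {w : Option (Option α) → ℕ | (Option.elim' (w none) (w ∘ some ∘ some)) ∈ S} := by
      refine Dioph.ext (reindex_dioph (Option (Option α)) (Option.elim' none (some ∘ some)) hS) fun w => ?_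
      show _ ∈ S ↔ _ ∈ S
      apply iff_of_eq
      congr 1
      funext i
      rcases i with _ | x <;> rfl
    have hsub : DiophFn fun w : Option α → ℕ => w none - 1 :=
      sub_dioph (proj_dioph none) (const_dioph 1)
    refine Dioph.ext (diophFn_comp1 hr hsub) fun w => ?_
    rfl
  have h2 := diophFn_comp1 (ball_dioph' h1) hf
  refine Dioph.ext h2 fun v => ?_
  show (∀ k, 1 ≤ k → k ≤ f v → (Option.elim' (k - 1) v) ∈ S) ↔ ∀ k, k < f v → (Option.elim' k v) ∈ S
  constructor
  · intro h k hk
    have := h (k + 1) (by omega) (by omega)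
    simpa using this
  · intro h k hk1 hk2
    exact h (k - 1) (by omega)

/-! ### Primitive recursive functions are Diophantine -/

/-- `a` and `b` code a finite sequence: the `i`-th entry is `a % ((i+1) * b + 1)`. -/
theorem exists_code (n : ℕ) (F : ℕ → ℕ) : ∃ a b : ℕ, ∀ i ≤ n, a % ((i + 1) * b + 1) = F i := by
  have h := Nat.beta_unbeta_coe ((List.range (n + 1)).map F)
  refine ⟨(Nat.unbeta ((List.range (n + 1)).map F)).unpair.1,
    (Nat.unbeta ((List.range (n + 1)).map F)).unpair.2, fun i hi => ?_⟩
  have h2 := h ⟨i, by simp; omega⟩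
  simpa [Nat.beta] using h2

theorem rec_iff {n r : ℕ} {f0 : ℕ} {g : ℕ → ℕ → ℕ} :
    (n.rec f0 (fun y IH => g y IH) : ℕ) = r ↔
      ∃ a b : ℕ, a % (1 * b + 1) = f0 ∧
        (∀ i < n, a % ((i + 2) * b + 1) = g i (a % ((i + 1) * b + 1))) ∧
        a % ((n + 1) * b + 1) = r := by
  constructor
  · intro h
    obtain ⟨a, b, hab⟩ := exists_code n (fun m => (m.rec f0 (fun y IH => g y IH) : ℕ))
    refine ⟨a, b, ?_, ?_, ?_⟩
    · have := hab 0 (Nat.zero_le _)
      simpa using this
    · intro i hi
      have h1 := hab (i + 1) (by omega)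
      have h2 := hab i (by omega)
      rw [h2]
      exact h1
    · rw [hab n le_rfl]; exact h
  · rintro ⟨a, b, h0, h1, h2⟩
    rw [← h2]
    have : ∀ m ≤ n, (m.rec f0 (fun y IH => g y IH) : ℕ) = a % ((m + 1) * b + 1) := by
      intro m
      induction m with
      | zero => intro _; rw [← h0]; simp
      | succ m ih =>
        intro hm
        have h3 := ih (by omega)
        have h4 := h1 m (by omega)
        show g m _ = _
        rw [h3, ← h4]
    exact this n le_rfl

theorem primrec_dioph {n : ℕ} {f : List.Vector ℕ n → ℕ} (hf : Nat.Primrec' f) :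
    ∀ {α : Type} (g : Fin n → (α → ℕ) → ℕ), (∀ i, DiophFn (g i)) →
      DiophFn fun v => f (List.Vector.ofFn fun i => g i v) := by
  induction hf with
  | zero => intro α g hg; exact const_dioph 0
  | succ =>
    intro α g hg
    refine cast (congrArg DiophFn (funext fun v => ?_)) (add_dioph (hg 0) (const_dioph 1))
    simp
  | get i =>
    intro α g hg
    refine cast (congrArg DiophFn (funext fun v => ?_)) (hg i)
    simp
  | comp g' hf' hg' ihf ihg =>
    intro α g hg
    exact ihf (fun i v => g' i (List.Vector.ofFn fun i => g i v)) fun i => ihg i g hg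
  | @prec n f g' hf' hg' ihf ihg =>
    intro α h hh
    -- variables: `α`, the value, `b`, `a`
    have key : Dioph {w : Option α → ℕ |
        ∃ b a : ℕ, a % (1 * b + 1) = f (List.Vector.ofFn fun i : Fin n => h i.succ (w ∘ some)) ∧
          (∀ i < h 0 (w ∘ some), a % ((i + 2) * b + 1) =
            g' (i ::ᵥ (a % ((i + 1) * b + 1)) ::ᵥ
              (List.Vector.ofFn fun i : Fin n => h i.succ (w ∘ some)))) ∧
          a % ((h 0 (w ∘ some) + 1) * b + 1) = w none} := by
      have d1 : ∀ {γ : Type}, DiophFn fun _ : γ → ℕ => 1 := fun {γ} => const_dioph 1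
      have d2 : ∀ {γ : Type}, DiophFn fun _ : γ → ℕ => 2 := fun {γ} => const_dioph 2
      -- z none = a, z (some none) = b, z (some (some none)) = value
      have e1 : Dioph {z : Option (Option (Option α)) → ℕ |
          z none % (1 * z (some none) + 1) =
            f (List.Vector.ofFn fun i : Fin n => h i.succ (z ∘ some ∘ some ∘ some))} := by
        apply eq_dioph
        · exact mod_dioph (proj_dioph _) (add_dioph (mul_dioph d1 (proj_dioph _)) d1)
        · exact ihf (fun i z => h i.succ (z ∘ some ∘ some ∘ some))
            fun i => reindex_diophFn (some ∘ some ∘ some) (hh i.succ)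
      have e3 : Dioph {z : Option (Option (Option α)) → ℕ |
          z none % ((h 0 (z ∘ some ∘ some ∘ some) + 1) * z (some none) + 1) =
            z (some (some none))} := by
        apply eq_dioph
        · exact mod_dioph (proj_dioph _) (add_dioph (mul_dioph (add_dioph
            (reindex_diophFn (some ∘ some ∘ some) (hh 0)) d1) (proj_dioph _)) d1)
        · exact proj_dioph _
      have e2' : Dioph {z : Option (Option (Option (Option α))) → ℕ |
          z (some none) % ((z none + 2) * z (some (some none)) + 1) =
            g' (z none ::ᵥ (z (some none) % ((z none + 1) * z (some (some none)) + 1)) ::ᵥ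
              (List.Vector.ofFn fun i : Fin n =>
                h i.succ (z ∘ some ∘ some ∘ some ∘ some)))} := by
        apply eq_dioph
        · exact mod_dioph (proj_dioph _)
            (add_dioph (mul_dioph (add_dioph (proj_dioph _) d2) (proj_dioph _)) d1)
        · let G : Fin (n + 2) → (Option (Option (Option (Option α))) → ℕ) → ℕ :=
            Fin.cons (fun z => z none)
              (Fin.cons (fun z => z (some none) % ((z none + 1) * z (some (some none)) + 1))
                fun i z => h i.succ (z ∘ some ∘ some ∘ some ∘ some))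
          have hG : ∀ i, DiophFn (G i) := by
            intro i
            refine Fin.cases ?_ (fun i => Fin.cases ?_ (fun i => ?_) i) i
            · exact proj_dioph _
            · exact mod_dioph (proj_dioph _)
                (add_dioph (mul_dioph (add_dioph (proj_dioph _) d1) (proj_dioph _)) d1)
            · exact reindex_diophFn (some ∘ some ∘ some ∘ some) (hh i.succ)
          refine cast (congrArg DiophFn (funext fun z => ?_)) (ihg G hG)
          congr 1
      have e2 : Dioph {z : Option (Option (Option α)) → ℕ |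
          ∀ i < h 0 (z ∘ some ∘ some ∘ some), (Option.elim' i z) ∈
            {z : Option (Option (Option (Option α))) → ℕ |
          z (some none) % ((z none + 2) * z (some (some none)) + 1) =
            g' (z none ::ᵥ (z (some none) % ((z none + 1) * z (some (some none)) + 1)) ::ᵥ
              (List.Vector.ofFn fun i : Fin n =>
                h i.succ (z ∘ some ∘ some ∘ some ∘ some)))}} :=
        ball_dioph e2' (reindex_diophFn (some ∘ some ∘ some) (hh 0))
      exact ex1_dioph (ex1_dioph (Dioph.inter e1 (Dioph.inter e2 e3)))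
    refine Dioph.ext key fun w => ?_
    have hvec : (List.Vector.ofFn fun i => h i (w ∘ some)) =
        h 0 (w ∘ some) ::ᵥ List.Vector.ofFn fun i : Fin n => h i.succ (w ∘ some) := rfl
    show _ ↔ (Nat.rec (f (List.Vector.ofFn fun i => h i (w ∘ some)).tail)
      (fun y IH => g' (y ::ᵥ IH ::ᵥ (List.Vector.ofFn fun i => h i (w ∘ some)).tail))
      (List.Vector.ofFn fun i => h i (w ∘ some)).head : ℕ) = w none
    rw [hvec]
    simp only [List.Vector.head_cons, List.Vector.tail_cons]
    rw [rec_iff]
    constructor
    · rintro ⟨b, a, h⟩; exact ⟨a, b, h⟩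
    · rintro ⟨a, b, h⟩; exact ⟨b, a, h⟩

/-- **MRDP**: every recursively enumerable predicate on `ℕ` is Diophantine. -/
theorem re_dioph {p : ℕ → Prop} (hp : REPred p) : Dioph {v : Unit → ℕ | p (v ())} := by
  -- a primitive recursive predicate with an extra variable
  obtain ⟨c, hc⟩ := Nat.Partrec.Code.exists_code.1 (Partrec.nat_iff.1
    ((Partrec.map hp ((Computable.const 0).comp Computable.snd).to₂) :
      Partrec fun a : ℕ => (Part.assert (p a) fun _ => Part.some ()).map fun _ => 0))
  have hdom : ∀ n, p n ↔ ∃ k, (Nat.Partrec.Code.evaln k c n).isSome := by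
    intro n
    have h1 : p n ↔ (Nat.Partrec.Code.eval c n).Dom := by
      rw [hc]
      simp [Part.assert]
    rw [h1, Part.dom_iff_mem]
    constructor
    · rintro ⟨y, hy⟩
      obtain ⟨k, hk⟩ := Nat.Partrec.Code.evaln_complete.1 hy
      exact ⟨k, Option.isSome_iff_exists.2 ⟨y, hk⟩⟩
    · rintro ⟨k, hk⟩
      obtain ⟨y, hy⟩ := Option.isSome_iff_exists.1 hk
      exact ⟨y, Nat.Partrec.Code.evaln_sound hy⟩
  let F : List.Vector ℕ 2 → ℕ := fun v =>
    bif (Nat.Partrec.Code.evaln v.head c v.tail.head).isSome then 1 else 0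
  have hF : Nat.Primrec' F := by
    apply Nat.Primrec'.of_prim
    apply Primrec.cond
    · have : Primrec fun v : List.Vector ℕ 2 => Nat.Partrec.Code.evaln v.head c v.tail.head :=
        Nat.Partrec.Code.primrec_evaln.comp
          ((Primrec.vector_head.pair (Primrec.const c)).pair
            (Primrec.vector_head.comp Primrec.vector_tail))
      exact Primrec.option_isSome.comp this
    · exact Primrec.const 1
    · exact Primrec.const 0
  have dF : DiophFn fun v : Option Unit → ℕ => F (v none ::ᵥ v (some ()) ::ᵥ List.Vector.nil) := by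
    have := primrec_dioph hF (α := Option Unit)
      (Fin.cons (fun v => v none) (Fin.cons (fun v => v (some ())) Fin.elim0)) (by
        intro i
        refine Fin.cases ?_ (fun i => Fin.cases ?_ (fun i => i.elim0) i) i
        · exact proj_dioph _
        · exact proj_dioph _)
    refine cast (congrArg DiophFn (funext fun z => ?_)) this
    rfl
  have d1 : DiophFn fun _ : Option Unit → ℕ => 1 := const_dioph 1
  refine Dioph.ext (ex1_dioph (eq_dioph dF d1)) fun v => ?_
  show (∃ k, F (k ::ᵥ v () ::ᵥ List.Vector.nil) = 1) ↔ p (v ())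
  rw [hdom]
  apply exists_congr
  intro k
  show (bif (Nat.Partrec.Code.evaln k c (v ())).isSome then 1 else 0) = 1 ↔ _
  cases (Nat.Partrec.Code.evaln k c (v ())).isSome <;> simp

end Pool.Agent.LibH36.MRDP
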