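import Mathlib

/-!
# Fixed vectors of finite p-groups in characteristic p
-/

namespace Pool.Agent.BlockFusion

/-- A finite `p`-group acting additively on an abelian group `U` of exponent `p`, leaving the
subset `W` (closed under `ZMod p`-combinations) stable: if `W` contains a nonzero vector, it
contains a nonzero fixed vector. -/
theorem exists_fixed_vector {p : ℕ} [hp : Fact p.Prime] {P : Type*} [Group P] [Finite P]
    (hP : IsPGroup p P) {U : Type*} [AddCommGroup U] (hU : ∀ x : U, p • x = 0)
    (ρ : P →* AddMonoid.End U) (W : AddSubgroup U) (hW : ∀ u, ∀ x ∈ W, ρ u x ∈ W)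
    {v : U} (hv : v ∈ W) (hv0 : v ≠ 0) :
    ∃ w ∈ W, w ≠ 0 ∧ ∀ u, ρ u w = w := by
  have instMod : Module (ZMod p) U := AddCommGroup.zmodModule hU
  let A : Submodule (ZMod p) U := Submodule.span (ZMod p) (Set.range (fun u : P => ρ u v))
  have hAW : ∀ x : U, x ∈ A → x ∈ W := by
    intro x hx
    induction hx using Submodule.span_induction with
    | mem x hx =>
      obtain ⟨u, rfl⟩ := hx
      exact hW u v hv
    | zero => exact W.zero_mem
    | add x y _ _ hx hy => exact W.add_mem hx hy
    | smul c x _ hx => exact ZMod.smul_mem (n := p) hx c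
  have hAρ : ∀ u : P, ∀ x : U, x ∈ A → ρ u x ∈ A := by
    intro u x hx
    induction hx using Submodule.span_induction with
    | mem x hx =>
      obtain ⟨u', rfl⟩ := hx
      refine Submodule.subset_span ⟨u * u', ?_⟩
      change ρ (u * u') v = _
      rw [map_mul]
      rfl
    | zero => rw [map_zero]; exact A.zero_mem
    | add x y _ _ hx hy => rw [map_add]; exact A.add_mem hx hy
    | smul c x _ hx =>
      have : ρ u (c • x) = c • ρ u x := ZMod.map_smul (ρ u) c x
      rw [this]
      exact A.smul_mem c hx
  have hfin : Module.Finite (ZMod p) A := FiniteDimensional.span_of_finite (ZMod p) (Set.finite_range _)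
  have hfinA : Finite A := Module.finite_of_finite (ZMod p)
  let act : MulAction P A :=
    { smul := fun u x => ⟨ρ u x.1, hAρ u x.1 x.2⟩
      one_smul := fun x => Subtype.ext (by change ρ 1 x.1 = x.1; rw [map_one]; rfl)
      mul_smul := fun u u' x => Subtype.ext (by
        change ρ (u * u') x.1 = ρ u (ρ u' x.1); rw [map_mul]; rfl) }
  have hvA : v ∈ A := Submodule.subset_span ⟨1, by change ρ 1 v = v; rw [map_one]; rfl⟩
  have hdvd : p ∣ Nat.card A := by
    have h1 : addOrderOf (⟨v, hvA⟩ : A) = p := by
      apply addOrderOf_eq_prime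
      · exact Subtype.ext (hU v)
      · intro h
        exact hv0 (congrArg Subtype.val h)
    have h2 := addOrderOf_dvd_natCard (⟨v, hvA⟩ : A)
    rwa [h1] at h2
  obtain ⟨w, hw, hne⟩ := hP.exists_fixed_point_of_prime_dvd_card_of_fixed_point A hdvd
    (a := (0 : A)) (fun u => Subtype.ext (map_zero (ρ u)))
  refine ⟨w.1, hAW _ w.2, ?_, ?_⟩
  · intro h
    exact hne (Subtype.ext h.symm)
  · intro u
    exact congrArg Subtype.val (hw u)

/-- A sum over a finite set with an action of a finite `p`-group, of an invariant function with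
values in a ring of characteristic `p`, only sees the fixed points. -/
theorem sum_eq_sum_fixed {p : ℕ} [hp : Fact p.Prime] {P : Type*} [Group P] [Finite P]
    (hP : IsPGroup p P) {X : Type*} [Fintype X] [MulAction P X] {k : Type*} [CommRing k]
    [CharP k p] (F : X → k) (hF : ∀ (u : P) x, F (u • x) = F x)
    [DecidablePred (fun x : X => x ∈ MulAction.fixedPoints P X)] :
    ∑ x, F x = ∑ x with x ∈ MulAction.fixedPoints P X, F x := by
  classical
  -- decompose along the values of F
  have hfib : ∀ (s : Finset X), ∑ x ∈ s, F x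
      = ∑ c ∈ Finset.univ.image F, ((s.filter (fun x => F x = c)).card : k) * c := by
    intro s
    have h1 : ∑ x ∈ s, F x = ∑ c ∈ Finset.univ.image F, ∑ x ∈ s with F x = c, F x :=
      (Finset.sum_fiberwise_of_maps_to (fun x _ => Finset.mem_image_of_mem F (Finset.mem_univ x))
        F).symm
    rw [h1]
    refine Finset.sum_congr rfl (fun c _ => ?_)
    rw [Finset.sum_congr rfl (fun x hx => (Finset.mem_filter.1 hx).2)]
    rw [Finset.sum_const, nsmul_eq_mul]
  rw [hfib, hfib]
  refine Finset.sum_congr rfl (fun c _ => ?_)
  congr 1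
  -- the fibre is a P-set
  let Y : Type _ := {x : X // F x = c}
  let act : MulAction P Y :=
    { smul := fun u x => ⟨u • x.1, (hF u x.1).trans x.2⟩
      one_smul := fun x => Subtype.ext (one_smul P x.1)
      mul_smul := fun u u' x => Subtype.ext (mul_smul u u' x.1) }
  have hmod := hP.card_modEq_card_fixedPoints Y
  have h1 : Nat.card Y = (Finset.univ.filter (fun x => F x = c)).card := by
    rw [Nat.card_eq_fintype_card, Fintype.card_subtype]
  have h2 : Nat.card (MulAction.fixedPoints P Y)
      = ((Finset.univ.filter (fun x => x ∈ MulAction.fixedPoints P X)).filter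
        (fun x => F x = c)).card := by
    rw [Nat.card_eq_fintype_card, ← Set.toFinset_card]
    refine Finset.card_bij (fun y _ => y.1) ?_ ?_ ?_
    · intro y hy
      rw [Set.mem_toFinset] at hy
      simp only [Finset.mem_filter, Finset.mem_univ, true_and]
      exact ⟨fun u => congrArg Subtype.val (hy u), y.2⟩
    · intro y _ z _ h
      exact Subtype.ext h
    · intro x hx
      simp only [Finset.mem_filter, Finset.mem_univ, true_and] at hx
      refine ⟨⟨x, hx.2⟩, ?_, rfl⟩
      rw [Set.mem_toFinset]
      intro u
      exact Subtype.ext (hx.1 u)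
  rw [h1, h2] at hmod
  exact (CharP.natCast_eq_natCast k p).2 hmod

end Pool.Agent.BlockFusion
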