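import Pool.Agent.Lib_helper36.HeisGroup

/-!
# The group of order `104976 = 2^4 * 3^8` and its subgroups
-/

namespace Pool.Agent.BlockFusion

/-- The action of `MonL` on the Heisenberg group. -/
abbrev actL : MonL →* MulAut Heis := Mon.actH.comp MonL.subtype

/-- The group. -/
abbrev GG : Type := Heis ⋊[actL] MonL

instance : Finite GG := Finite.of_equiv _ SemidirectProduct.equivProd.symm

lemma card_GG : Nat.card GG = 3 ^ 7 * 48 := by
  rw [SemidirectProduct.card, Heis.card, card_MonL]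

/-- The Sylow `2`-subgroup. -/
def DG : Subgroup GG := DL.map SemidirectProduct.inr

lemma mem_DG {g : GG} : g ∈ DG ↔ g.left = 1 ∧ g.right ∈ DL := by
  constructor
  · rintro ⟨l, hl, rfl⟩
    exact ⟨rfl, hl⟩
  · rintro ⟨h1, h2⟩
    exact ⟨g.right, h2, SemidirectProduct.ext h1.symm rfl⟩

lemma card_DG : Nat.card DG = 16 := by
  rw [DG, Subgroup.card_map_of_injective SemidirectProduct.inr_injective, card_DL]

instance : Fact (Nat.Prime 2) := ⟨Nat.prime_two⟩

lemma isPGroup_DG : IsPGroup 2 DG :=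
  IsPGroup.of_card (n := 4) (by rw [card_DG]; norm_num)

lemma maximal_DG (Q : Subgroup GG) (h : DG ≤ Q) (hQ : IsPGroup 2 Q) : Q = DG := by
  obtain ⟨n, hn⟩ := IsPGroup.iff_card.1 hQ
  have h1 : Nat.card Q ∣ Nat.card GG := Subgroup.card_subgroup_dvd_card Q
  rw [hn, card_GG] at h1
  have h2 : n ≤ 4 := by
    by_contra hcon
    have h3 : 2 ^ 5 ∣ 3 ^ 7 * 48 := (pow_dvd_pow 2 (by omega : 5 ≤ n)).trans h1
    norm_num at h3
  have h4 : Nat.card Q ≤ Nat.card DG := by
    rw [hn, card_DG]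
    calc 2 ^ n ≤ 2 ^ 4 := Nat.pow_le_pow_right (by norm_num) h2
      _ = 16 := by norm_num
  exact (Subgroup.eq_of_le_of_card_ge h h4).symm

/-- `diag(1, -1, -1)` -/
def zL : MonL := ⟨⟨![0, 2, 2], 1⟩, by
  rw [mem_MonL]; decide⟩

/-- the cyclic permutation of the axes -/
def gL : MonL := ⟨⟨0, finRotate 3⟩, by
  rw [mem_MonL]; decide⟩

lemma zL_mem : zL ∈ DL := rfl

/-- `diag(1, -1, -1)` in `Mon`. -/
def zM : Mon := ⟨![0, 2, 2], 1⟩

lemma zM_comm : ∀ u : Mon, u.q 0 = 0 → u * zM = zM * u := by decide +kernel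

lemma zM_centralizer : ∀ u : Mon, zM * u = u * zM → u.q 0 = 0 := by decide +kernel

lemma zL_comm (u : MonL) (hu : u ∈ DL) : u * zL = zL * u :=
  Subtype.ext (zM_comm u.1 hu)

lemma zL_centralizer (u : MonL) (h : zL * u = u * zL) : u ∈ DL :=
  zM_centralizer u.1 (congrArg Subtype.val h)

lemma sL_mem : gL * zL * gL⁻¹ ∈ DL := by decide +kernel

lemma sL_c : (gL * zL * gL⁻¹).1.c = ![2, 0, 2] := by decide +kernel

lemma sL_q : (gL * zL * gL⁻¹).1.q = 1 := by decide +kernel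

/-- the element `z` of the group -/
def zG : GG := SemidirectProduct.inr zL

/-- the element `g` of the group -/
def gG : GG := SemidirectProduct.inr gL

lemma zG_mem : zG ∈ DG := ⟨zL, zL_mem, rfl⟩

lemma zG_comm (u : GG) (hu : u ∈ DG) : u * zG = zG * u := by
  obtain ⟨l, hl, rfl⟩ := hu
  unfold zG
  rw [← map_mul, ← map_mul, zL_comm l hl]

lemma sG_eq : gG * zG * gG⁻¹ = SemidirectProduct.inr (gL * zL * gL⁻¹) := by
  unfold gG zG
  rw [map_mul, map_mul, map_inv]

lemma sG_mem : gG * zG * gG⁻¹ ∈ DG := ⟨_, sL_mem, sG_eq.symm⟩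

@[simp] lemma mul_left_v (g h : GG) : (g * h).left.v = g.left.v + g.right.1.actV h.left.v := rfl
@[simp] lemma mul_left_t (g h : GG) :
    (g * h).left.t = g.left.t + h.left.t + form g.left.v (g.right.1.actV h.left.v) := rfl

/-- The elements centralizing `z`. -/
def InC (g : GG) : Prop := g.left.v 1 = 0 ∧ g.left.v 2 = 0 ∧ g.right ∈ DL

lemma inC_of_comm {g : GG} (h : zG * g = g * zG) : InC g := by
  have h1 : zL * g.right = g.right * zL := congrArg SemidirectProduct.right h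
  have h2 : (zG * g).left.v = (g * zG).left.v := by rw [h]
  rw [mul_left_v, mul_left_v] at h2
  have h3 : (zG.left.v : V9) = 0 := rfl
  have h4 : g.right.1.actV 0 = 0 := by
    funext j
    unfold Mon.actV rot
    ext <;> simp
  rw [h3, h4, zero_add, add_zero] at h2
  have hrot : ∀ v : ZMod 3 × ZMod 3, rot 2 v = v → v = 0 := by decide
  refine ⟨hrot _ ?_, hrot _ ?_, zL_centralizer _ h1⟩
  · exact congrFun h2 1
  · exact congrFun h2 2

/-- The central subgroup of order 3. -/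
def ZG : Subgroup GG where
  carrier := {g | g.left.v = 0 ∧ g.right = 1}
  mul_mem' := by
    rintro x y ⟨hx, hx'⟩ ⟨hy, hy'⟩
    refine ⟨?_, ?_⟩
    · rw [mul_left_v, hx, hy, zero_add]
      funext j
      unfold Mon.actV rot
      ext <;> simp
    · rw [SemidirectProduct.mul_right, hx', hy', one_mul]
  one_mem' := ⟨rfl, rfl⟩
  inv_mem' := by
    rintro x ⟨hx, hx'⟩
    refine ⟨?_, ?_⟩
    · change (x.right⁻¹ : MonL).1.actV (-x.left.v) = 0
      rw [hx, neg_zero]
      funext j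
      unfold Mon.actV rot
      ext <;> simp
    · rw [SemidirectProduct.inv_right, hx', inv_one]

lemma actV_zero (m : Mon) : m.actV 0 = 0 := by
  funext j
  unfold Mon.actV rot
  ext <;> simp

lemma ZG_le_center : ZG ≤ Subgroup.center GG := by
  rintro g ⟨hv, hr⟩
  rw [Subgroup.mem_center_iff]
  intro h
  apply SemidirectProduct.ext
  · apply Heis.ext
    · rw [mul_left_v, mul_left_v, hv, hr, actV_zero]
      change h.left.v + 0 = 0 + Mon.actV 1 h.left.v
      rw [Mon.actV_one, add_zero, zero_add]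
    · rw [mul_left_t, mul_left_t, hv, hr, actV_zero, form_zero_right, form_zero_left]
      ring
  · rw [SemidirectProduct.mul_right, SemidirectProduct.mul_right, hr, one_mul, mul_one]

/-- The abelian subgroup of order 27. -/
def KG : Subgroup GG where
  carrier := {g | g.left.v 0 = 0 ∧ (g.left.v 1).2 = 0 ∧ (g.left.v 2).1 = 0 ∧ g.right = 1}
  mul_mem' := by
    rintro x y ⟨hx0, hx1, hx2, hx⟩ ⟨hy0, hy1, hy2, hy⟩
    have h1 : (x * y).left.v = x.left.v + y.left.v := by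
      rw [mul_left_v, hx]
      change x.left.v + Mon.actV 1 y.left.v = _
      rw [Mon.actV_one]
    refine ⟨?_, ?_, ?_, ?_⟩
    · rw [h1, Pi.add_apply, hx0, hy0, add_zero]
    · rw [h1, Pi.add_apply, Prod.snd_add, hx1, hy1, add_zero]
    · rw [h1, Pi.add_apply, Prod.fst_add, hx2, hy2, add_zero]
    · rw [SemidirectProduct.mul_right, hx, hy, one_mul]
  one_mem' := ⟨rfl, rfl, rfl, rfl⟩
  inv_mem' := by
    rintro x ⟨hx0, hx1, hx2, hx⟩
    have h1 : (x⁻¹).left.v = -x.left.v := by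
      change (x.right⁻¹ : MonL).1.actV (-x.left.v) = _
      rw [hx, inv_one]
      exact Mon.actV_one _
    refine ⟨?_, ?_, ?_, ?_⟩
    · rw [h1, Pi.neg_apply, hx0, neg_zero]
    · rw [h1, Pi.neg_apply, Prod.snd_neg, hx1, neg_zero]
    · rw [h1, Pi.neg_apply, Prod.fst_neg, hx2, neg_zero]
    · rw [SemidirectProduct.inv_right, hx, inv_one]

lemma mem_KG {g : GG} : g ∈ KG ↔
    g.left.v 0 = 0 ∧ (g.left.v 1).2 = 0 ∧ (g.left.v 2).1 = 0 ∧ g.right = 1 := Iff.rfl

lemma mem_ZG {g : GG} : g ∈ ZG ↔ g.left.v = 0 ∧ g.right = 1 := Iff.rfl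

lemma ZG_le_KG : ZG ≤ KG := by
  rintro g ⟨hv, hr⟩
  refine ⟨?_, ?_, ?_, hr⟩ <;> rw [hv] <;> rfl

/-- The underlying set of `KG`. -/
def KGequiv : KG ≃ ZMod 3 × ZMod 3 × ZMod 3 where
  toFun g := ((g.1.left.v 1).1, (g.1.left.v 2).2, g.1.left.t)
  invFun x := ⟨⟨⟨![0, (x.1, 0), (0, x.2.1)], x.2.2⟩, 1⟩, rfl, rfl, rfl, rfl⟩
  left_inv := by
    rintro ⟨g, h0, h1, h2, h3⟩
    apply Subtype.ext
    apply SemidirectProduct.ext
    · apply Heis.ext
      · funext j
        fin_cases j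
        · exact h0.symm
        · exact Prod.ext rfl h1.symm
        · exact Prod.ext h2.symm rfl
      · rfl
    · exact h3.symm
  right_inv := by
    rintro ⟨a, b, c⟩
    rfl

lemma card_KG : Nat.card KG = 27 := by
  rw [Nat.card_congr KGequiv, Nat.card_prod, Nat.card_prod, Nat.card_zmod]

/-- The underlying set of `ZG`. -/
def ZGequiv : ZG ≃ ZMod 3 where
  toFun g := g.1.left.t
  invFun x := ⟨⟨⟨0, x⟩, 1⟩, rfl, rfl⟩
  left_inv := by
    rintro ⟨g, h0, h1⟩
    apply Subtype.ext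
    apply SemidirectProduct.ext
    · apply Heis.ext
      · exact h0.symm
      · rfl
    · exact h1.symm
  right_inv _ := rfl

lemma card_ZG : Nat.card ZG = 3 := by
  rw [Nat.card_congr ZGequiv, Nat.card_zmod]

/-- `t` is additive on `KG`. -/
lemma t_mul_KG {x y : GG} (hx : x ∈ KG) (hy : y ∈ KG) :
    (x * y).left.t = x.left.t + y.left.t := by
  obtain ⟨hx0, hx1, hx2, hx⟩ := hx
  obtain ⟨hy0, hy1, hy2, hy⟩ := hy
  rw [mul_left_t, hx]
  change x.left.t + y.left.t + form x.left.v (Mon.actV 1 y.left.v) = _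
  rw [Mon.actV_one]
  have : form x.left.v y.left.v = 0 := by
    unfold form fm
    rw [Fin.sum_univ_three, hx0, hx1, hx2, hy0, hy1, hy2]
    simp
  rw [this, add_zero]

lemma parity_cases (c : ZMod 4) (h : par4 c = 0) : sn c = 0 := by
  revert c; decide

lemma parity_cases' (c : ZMod 4) (h : par4 c = 1) : cs c = 0 := by
  revert c; decide

/-- The permutations in `DL`. -/
lemma perm_cases : ∀ q : Equiv.Perm (Fin 3), q 0 = 0 →
    (q = 1 ∧ par q = 0) ∨ (q⁻¹ 1 = 2 ∧ q⁻¹ 2 = 1 ∧ par q = 1) := by decide +kernel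

/-- The conditions defining `KG`, for vectors. -/
def InK (v : V9) : Prop := v 0 = 0 ∧ (v 1).2 = 0 ∧ (v 2).1 = 0

lemma inK_act {l : MonL} (hl : l ∈ DL) {v : V9} (hv : InK v) : InK (l.1.actV v) := by
  obtain ⟨h0, h1, h2⟩ := hv
  have hq : l.1.q⁻¹ 0 = 0 := by
    rw [Equiv.Perm.inv_eq_iff_eq]
    exact (show l.1.q 0 = 0 from hl).symm
  have hpar := l.2
  rw [mem_MonL] at hpar
  refine ⟨?_, ?_, ?_⟩
  · change rot (l.1.c 0) (v (l.1.q⁻¹ 0)) = 0
    rw [hq, h0]
    unfold rot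
    ext <;> simp
  · change sn (l.1.c 1) * (v (l.1.q⁻¹ 1)).1 + cs (l.1.c 1) * (v (l.1.q⁻¹ 1)).2 = 0
    rcases perm_cases l.1.q hl with ⟨hq', hp⟩ | ⟨hq1, hq2, hp⟩
    · rw [hq', inv_one, Equiv.Perm.one_apply, h1, parity_cases _ ((hpar 1).trans hp)]
      ring
    · rw [hq1, h2, parity_cases' _ ((hpar 1).trans hp)]
      ring
  · change cs (l.1.c 2) * (v (l.1.q⁻¹ 2)).1 - sn (l.1.c 2) * (v (l.1.q⁻¹ 2)).2 = 0
    rcases perm_cases l.1.q hl with ⟨hq', hp⟩ | ⟨hq1, hq2, hp⟩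
    · rw [hq', inv_one, Equiv.Perm.one_apply, h2, parity_cases _ ((hpar 2).trans hp)]
      ring
    · rw [hq2, h1, parity_cases' _ ((hpar 2).trans hp)]
      ring

lemma conj_left_v (l : MonL) (x : GG) (hx : x.right = 1) :
    (SemidirectProduct.inr l * x * (SemidirectProduct.inr l)⁻¹ : GG)
      = ⟨⟨l.1.actV x.left.v, x.left.t⟩, 1⟩ := by
  apply SemidirectProduct.ext
  · apply Heis.ext
    · rw [mul_left_v, mul_left_v]
      have h1 : ((SemidirectProduct.inr l : GG)⁻¹).left.v = 0 := by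
        rw [← map_inv]; rfl
      have h2 : (SemidirectProduct.inr l : GG).left.v = 0 := rfl
      rw [h1, h2, actV_zero, add_zero, zero_add]
      rfl
    · rw [mul_left_t, mul_left_t]
      have h1 : ((SemidirectProduct.inr l : GG)⁻¹).left = 1 := by
        rw [← map_inv]; rfl
      have h2 : (SemidirectProduct.inr l : GG).left = 1 := rfl
      rw [h1, h2, Heis.one_v, Heis.one_t, actV_zero, form_zero_right, form_zero_left]
      ring
  · rw [SemidirectProduct.mul_right, SemidirectProduct.mul_right, SemidirectProduct.inv_right, hx,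
      SemidirectProduct.right_inr, mul_one, mul_inv_cancel]

/-- `KG` is normalized by `DG`. -/
lemma conj_KG {u x : GG} (hu : u ∈ DG) (hx : x ∈ KG) : u * x * u⁻¹ ∈ KG := by
  obtain ⟨l, hl, rfl⟩ := hu
  rw [conj_left_v l x hx.2.2.2]
  obtain ⟨h0, h1, h2⟩ := inK_act hl (v := x.left.v) ⟨hx.1, hx.2.1, hx.2.2.1⟩
  exact ⟨h0, h1, h2, rfl⟩

lemma conj_t {u x : GG} (hu : u ∈ DG) (hx : x ∈ KG) : (u * x * u⁻¹).left.t = x.left.t := by
  obtain ⟨l, hl, rfl⟩ := hu
  rw [conj_left_v l x hx.2.2.2]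

/-- The element of `KG` showing that the Brauer quotient of `e` at `s` is not `β`. -/
def kG : GG := ⟨⟨![0, (1, 0), 0], 0⟩, 1⟩

lemma kG_mem : kG ∈ KG := ⟨rfl, rfl, rfl, rfl⟩

lemma kG_notMem : kG ∉ ZG := by
  rintro ⟨h, -⟩
  have h1 := congrArg Prod.fst (congrFun h 1)
  exact absurd h1 (by decide)

lemma kG_comm : gG * zG * gG⁻¹ * kG = kG * (gG * zG * gG⁻¹) := by
  rw [sG_eq]
  apply SemidirectProduct.ext
  · apply Heis.ext
    · rw [mul_left_v, mul_left_v]
      change 0 + Mon.actV (gL * zL * gL⁻¹).1 kG.left.v = kG.left.v + Mon.actV 1 0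
      rw [actV_zero, add_zero, zero_add]
      funext j
      change rot ((gL * zL * gL⁻¹).1.c j) (kG.left.v ((gL * zL * gL⁻¹).1.q⁻¹ j)) = _
      rw [sL_c, sL_q, inv_one, Equiv.Perm.one_apply]
      fin_cases j <;> rfl
    · rw [mul_left_t, mul_left_t]
      change 0 + 0 + form 0 _ = 0 + 0 + form kG.left.v (Mon.actV 1 0)
      rw [actV_zero, form_zero_left, form_zero_right]
  · change (gL * zL * gL⁻¹) * 1 = 1 * (gL * zL * gL⁻¹)
    rw [mul_one, one_mul]

end Pool.Agent.BlockFusion
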