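import Pool.Agent.Lib_helper36.TheGroup

/-!
# The Weil representation of degree 3 in characteristic 2
-/

namespace Pool.Agent.BlockFusion

universe u

variable {k : Type u} [Field k] [CharP k 2] (ψ : AddChar (ZMod 3) k)

/-- `3 × 3` matrices. -/
abbrev M3 (k : Type u) : Type u := Matrix (ZMod 3) (ZMod 3) k

/-- The Heisenberg matrices. -/
def Wm (v : ZMod 3 × ZMod 3) (t : ZMod 3) : M3 k :=
  Matrix.of fun x y => if y = x + v.1 then ψ (t - v.2 * x + v.1 * v.2) else 0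

/-- The Fourier matrix. -/
def Jm : M3 k := Matrix.of fun x y => ψ (x * y)

omit [CharP k 2] in
lemma Wm_apply (v : ZMod 3 × ZMod 3) (t x y : ZMod 3) :
    Wm ψ v t x y = if y = x + v.1 then ψ (t - v.2 * x + v.1 * v.2) else 0 := rfl

omit [CharP k 2] in
lemma Jm_apply (x y : ZMod 3) : Jm ψ x y = ψ (x * y) := rfl

omit [CharP k 2] in
lemma Wm_mul (v w : ZMod 3 × ZMod 3) (t s : ZMod 3) :
    Wm ψ v t * Wm ψ w s = Wm ψ (v + w) (t + s + fm v w) := by
  ext x y
  rw [Matrix.mul_apply, Finset.sum_eq_single (x + v.1)]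
  · rw [Wm_apply, if_pos rfl, Wm_apply, Wm_apply, Prod.fst_add, Prod.snd_add, add_assoc x]
    split_ifs with h
    · rw [← AddChar.map_add_eq_mul]
      congr 1
      unfold fm
      have h3 : (3 : ZMod 3) = 0 := rfl
      linear_combination (-v.1 * w.2) * h3
    · rw [mul_zero]
  · intro j _ hj
    rw [Wm_apply, if_neg hj, zero_mul]
  · intro h
    exact absurd (Finset.mem_univ _) h

omit [CharP k 2] in
lemma Jm_mul_Wm (v : ZMod 3 × ZMod 3) (t : ZMod 3) :
    Jm ψ * Wm ψ v t = Wm ψ (rot 1 v) t * Jm ψ := by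
  ext x y
  have h1 : (rot 1 v).1 = -v.2 := by
    change 0 * v.1 - 1 * v.2 = -v.2
    ring
  have h2 : (rot 1 v).2 = v.1 := by
    change 1 * v.1 + 0 * v.2 = v.1
    ring
  rw [Matrix.mul_apply, Matrix.mul_apply, Finset.sum_eq_single (y - v.1),
    Finset.sum_eq_single (x + (rot 1 v).1)]
  · rw [Wm_apply, if_pos (by ring), Wm_apply, if_pos rfl, Jm_apply, Jm_apply, h1, h2,
      ← AddChar.map_add_eq_mul, ← AddChar.map_add_eq_mul]
    congr 1
    have h3 : (3 : ZMod 3) = 0 := rfl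
    linear_combination (v.1 * v.2) * h3
  · intro j _ hj
    rw [Wm_apply, if_neg hj, zero_mul]
  · intro h
    exact absurd (Finset.mem_univ _) h
  · intro j _ hj
    rw [Wm_apply, if_neg, mul_zero]
    intro h
    apply hj
    rw [h]
    ring
  · intro h
    exact absurd (Finset.mem_univ _) h

lemma three_eq_one : (3 : k) = 1 := by
  have h : (2 : k) = 0 := CharP.cast_eq_zero k 2
  linear_combination h

lemma nine_eq_one : (9 : k) = 1 := by
  have h : (2 : k) = 0 := CharP.cast_eq_zero k 2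
  linear_combination 4 * h

omit [CharP k 2] in
lemma psi_sum (hψ : ψ 1 ≠ 1) : ψ 0 + ψ 1 + ψ 2 = 0 := by
  have h3 : ψ 1 ^ 3 = 1 := by
    rw [← AddChar.map_nsmul_eq_pow]
    have : (3 • (1 : ZMod 3)) = 0 := rfl
    rw [this, AddChar.map_zero_eq_one]
  have h2 : ψ 2 = ψ 1 ^ 2 := by
    rw [← AddChar.map_nsmul_eq_pow]
    rfl
  rw [AddChar.map_zero_eq_one, h2]
  have h4 : (ψ 1 - 1) * (1 + ψ 1 + ψ 1 ^ 2) = 0 := by
    linear_combination h3
  exact (mul_eq_zero.1 h4).resolve_left (sub_ne_zero.2 hψ)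

omit [CharP k 2] in
lemma sum_psi_mul (hψ : ψ 1 ≠ 1) (c : ZMod 3) : ∑ x : ZMod 3, ψ (c * x) = if c = 0 then 3 else 0 := by
  have h0 := psi_sum ψ hψ
  have hsum : ∀ F : ZMod 3 → k, ∑ x, F x = F 0 + F 1 + F 2 := fun F => Fin.sum_univ_three F
  rw [hsum]
  have hc : ∀ c : ZMod 3, c = 0 ∨ c = 1 ∨ c = 2 := by decide
  rcases hc c with rfl | rfl | rfl
  · simp only [zero_mul, AddChar.map_zero_eq_one, if_true]
    norm_num
  · simp only [mul_zero, one_mul]
    rw [h0, if_neg (by decide)]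
  · have : (2 * 2 : ZMod 3) = 1 := rfl
    simp only [mul_zero, mul_one, this]
    rw [if_neg (by decide)]
    linear_combination h0

lemma Jm_sq (hψ : ψ 1 ≠ 1) : Jm ψ * Jm ψ = Matrix.of fun x y => if x + y = 0 then (1 : k) else 0 := by
  ext x y
  rw [Matrix.mul_apply]
  simp only [Jm_apply, Matrix.of_apply]
  have h : ∀ j : ZMod 3, ψ (x * j) * ψ (j * y) = ψ ((x + y) * j) := by
    intro j
    rw [← AddChar.map_add_eq_mul]
    congr 1
    ring
  rw [Finset.sum_congr rfl (fun j _ => h j), sum_psi_mul ψ hψ, three_eq_one]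

lemma Jm_pow_four (hψ : ψ 1 ≠ 1) : Jm ψ ^ 4 = 1 := by
  have h : Jm ψ ^ 4 = (Jm ψ * Jm ψ) * (Jm ψ * Jm ψ) := by
    noncomm_ring
  rw [h, Jm_sq ψ hψ]
  ext x y
  rw [Matrix.mul_apply, Finset.sum_eq_single (-x)]
  · simp only [Matrix.of_apply, add_neg_cancel, if_true, one_mul, Matrix.one_apply,
      neg_add_eq_zero]
  · intro j _ hj
    rw [Matrix.of_apply, if_neg, zero_mul]
    intro h
    apply hj
    exact (neg_eq_of_add_eq_zero_right h).symm
  · intro h
    exact absurd (Finset.mem_univ _) h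

omit [CharP k 2] in
lemma Jm_pow_mul_Wm (n : ℕ) (v : ZMod 3 × ZMod 3) (t : ZMod 3) :
    Jm ψ ^ n * Wm ψ v t = Wm ψ (rot (n : ZMod 4) v) t * Jm ψ ^ n := by
  induction n with
  | zero => rw [pow_zero, one_mul, mul_one, Nat.cast_zero, rot_zero]
  | succ n ih =>
    rw [pow_succ', mul_assoc, ih, ← mul_assoc, Jm_mul_Wm, mul_assoc, ← rot_add]
    congr 3
    push_cast
    ring

/-- Powers of `J` with exponents in `ZMod 4`. -/
def Jp (c : ZMod 4) : M3 k := Jm ψ ^ c.val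

omit [CharP k 2] in
lemma Jp_mul_Wm (c : ZMod 4) (v : ZMod 3 × ZMod 3) (t : ZMod 3) :
    Jp ψ c * Wm ψ v t = Wm ψ (rot c v) t * Jp ψ c := by
  unfold Jp
  rw [Jm_pow_mul_Wm]
  simp

lemma Jp_add (hψ : ψ 1 ≠ 1) (c d : ZMod 4) : Jp ψ (c + d) = Jp ψ c * Jp ψ d := by
  unfold Jp
  rw [← pow_add, ZMod.val_add]
  conv_rhs => rw [← Nat.div_add_mod (c.val + d.val) 4, pow_add, pow_mul, Jm_pow_four ψ hψ, one_pow,
    one_mul]

omit [CharP k 2] in
lemma Jp_zero : Jp ψ 0 = 1 := by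
  unfold Jp
  rw [ZMod.val_zero, pow_zero]

omit [CharP k 2] in
lemma Jp_one : Jp ψ 1 = Jm ψ := by
  unfold Jp
  rw [show (1 : ZMod 4).val = 1 from rfl, pow_one]

/-- The trace of a Heisenberg matrix. -/
lemma trace_Wm (hψ : ψ 1 ≠ 1) (v : ZMod 3 × ZMod 3) (t : ZMod 3) :
    Matrix.trace (Wm ψ v t) = if v = 0 then ψ t else 0 := by
  rw [Matrix.trace]
  simp only [Matrix.diag_apply, Wm_apply]
  by_cases h1 : v.1 = 0
  · have h2 : ∀ x : ZMod 3, (if x = x + v.1 then ψ (t - v.2 * x + v.1 * v.2) else 0)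
        = ψ t * ψ ((-v.2) * x) := by
      intro x
      rw [h1, add_zero, if_pos rfl, ← AddChar.map_add_eq_mul]
      congr 1
      ring
    rw [Finset.sum_congr rfl (fun x _ => h2 x), ← Finset.mul_sum, sum_psi_mul ψ hψ, three_eq_one]
    by_cases h3 : v.2 = 0
    · rw [if_pos (by rw [h3, neg_zero]), if_pos (Prod.ext h1 h3), mul_one]
    · rw [if_neg (by rwa [neg_eq_zero]), if_neg (fun h => h3 (by rw [h]; rfl)), mul_zero]
  · rw [if_neg (fun h => h1 (by rw [h]; rfl))]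
    refine Finset.sum_eq_zero (fun x _ => ?_)
    rw [if_neg]
    intro h
    apply h1
    exact left_eq_add.1 h

/-- Fixed vectors of `J`. -/
lemma fixed_Jm (hψ : ψ 1 ≠ 1) (w : ZMod 3 → k) (hw : (Jm ψ).mulVec w = w) :
    w 0 = 0 ∧ w 1 = w 2 := by
  have h0 := psi_sum ψ hψ
  rw [AddChar.map_zero_eq_one] at h0
  have h2' : (2 : k) = 0 := CharP.cast_eq_zero k 2
  have hsum : ∀ F : ZMod 3 → k, ∑ x, F x = F 0 + F 1 + F 2 := fun F => Fin.sum_univ_three F
  have e0 := congrFun hw 0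
  have e1 := congrFun hw 1
  simp only [Matrix.mulVec, dotProduct, hsum, Jm_apply, zero_mul, one_mul,
    AddChar.map_zero_eq_one] at e0 e1
  have h12 : w 1 = w 2 := by
    linear_combination e0 - w 2 * h2'
  refine ⟨?_, h12⟩
  rw [← h12] at e1
  linear_combination e1 - w 1 * h0 + w 1 * h2'

end Pool.Agent.BlockFusion
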